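import Pool.Agent.H52.V.S8.H38R2.CG2.Stubs
import Pool.Agent.H52.V.S8.H38R2.CG.LM

/-!
# The weighted first moment of L(1, chi_D)  (helper329)
-/

set_option autoImplicit false

namespace Pool.Agent.H38R2.CG2

open Finset Filter NumberField Pool.Agent.H38R2.CG
open scoped Classical

namespace LMh

open Pool.Agent.H38R2.CG.LMh

/-- the main inequality for a set `F` of discriminants -/
lemma main_w (z r : ℕ) (hz : 2 ≤ z) (F : Finset ℕ) (hF : ∀ D ∈ F, D % Qz z = r) (w : ℕ → ℝ)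
    (hw : ∀ D ∈ F, 0 ≤ w D) (N : ℕ) (B : ℝ) (hB : 0 ≤ B) (hns : ∀ m : ℕ, 1 ≤ m → m ≤ N → m.Coprime (Qz z) → ¬ IsSquare m →
      |∑ D ∈ F, w D * ((jacobiSym (D : ℤ) m : ℤ) : ℝ)| ≤ B) :
    ∑ D ∈ F, w D * ∑ n ∈ Finset.Icc 1 N, (chi D n : ℝ) / n ≤
      B * ∑ n ∈ Finset.Icc 1 N, (1 : ℝ) / n +
        (∑ D ∈ F, w D) * ((1 + 1 / z) / PiR z r + Er z r N) := by
  set W : ℕ → ℝ := fun n => ∑ D ∈ F, w D * (chi D n : ℝ) with hW
  have hswap : ∑ D ∈ F, w D * ∑ n ∈ Finset.Icc 1 N, (chi D n : ℝ) / n =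
      ∑ n ∈ Finset.Icc 1 N, W n / n := by
    simp only [Finset.mul_sum]
    rw [Finset.sum_comm]
    apply Finset.sum_congr rfl
    intro n _
    rw [hW, Finset.sum_div]
    apply Finset.sum_congr rfl
    intro D _
    ring
  set M : Finset ℕ := (Finset.Icc 1 N).filter (fun m => m.Coprime (Qz z)) with hM
  set Sg : Finset (Σ _ : ℕ, ℕ) := M.sigma (fun m =>
    (Finset.Icc 1 (N / m ^ 2)).filter (fun n => n ∈ Nat.smoothNumbers (z + 1))) with hSg
  have hinj : Set.InjOn (fun x : Σ _ : ℕ, ℕ => x.2 * x.1 ^ 2) (Sg : Set (Σ _ : ℕ, ℕ)) := by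
    rintro ⟨m, a⟩ h1 ⟨m', a'⟩ h2 h
    simp only [hSg, hM, Finset.coe_sigma, Set.mem_sigma_iff, Finset.mem_coe, Finset.mem_filter,
      Finset.mem_Icc] at h1 h2
    dsimp only at h
    obtain ⟨h3, h4⟩ := decomp_unique h1.2.2 (Nat.Coprime.pow_left 2 h1.1.2) h2.2.2
      (Nat.Coprime.pow_left 2 h2.1.2) h
    have h5 : m = m' := Nat.pow_left_injective (n := 2) (by norm_num) h4
    subst h3 h5
    rfl
  set T : Finset ℕ := Sg.image (fun x => x.2 * x.1 ^ 2) with hT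
  have hTsub : T ⊆ Finset.Icc 1 N := by
    intro n hn
    simp only [hT, Finset.mem_image] at hn
    obtain ⟨⟨m, a⟩, h1, rfl⟩ := hn
    simp only [hSg, hM, Finset.mem_sigma, Finset.mem_filter, Finset.mem_Icc] at h1
    have hm2 : 0 < m ^ 2 := pow_pos h1.1.1.1 2
    simp only [Finset.mem_Icc]
    refine ⟨Nat.mul_pos h1.2.1.1 hm2, ?_⟩
    exact (Nat.le_div_iff_mul_le hm2).mp h1.2.1.2
  have hsplit : ∑ n ∈ Finset.Icc 1 N, W n / n = ∑ n ∈ Finset.Icc 1 N \ T, W n / n +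
      ∑ n ∈ T, W n / n := (Finset.sum_sdiff hTsub).symm
  -- the nonsquare part
  have hns' : ∑ n ∈ Finset.Icc 1 N \ T, W n / n ≤ B * ∑ n ∈ Finset.Icc 1 N, (1 : ℝ) / n := by
    have h1 : ∀ n ∈ Finset.Icc 1 N \ T, W n / n ≤ B * (1 / n) := by
      intro n hn
      rw [Finset.mem_sdiff, Finset.mem_Icc] at hn
      obtain ⟨⟨hn1, hnN⟩, hnT⟩ := hn
      obtain ⟨a, b, hab, ha, hb⟩ := exists_decomp z hz n (by omega)
      have ha0 : 0 < a := Nat.pos_of_ne_zero (Nat.ne_zero_of_mem_smoothNumbers ha)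
      have hb0 : 0 < b := by
        rcases Nat.eq_zero_or_pos b with h | h
        · subst h; omega
        · exact h
      have hbn : b ≤ N := by
        have : b ≤ a * b := Nat.le_mul_of_pos_left b ha0
        omega
      have hsq : ¬ IsSquare b := by
        rintro ⟨m, hm⟩
        apply hnT
        rw [hT, Finset.mem_image]
        refine ⟨⟨m, a⟩, ?_, by dsimp only; rw [hab, hm]; ring⟩
        have hm0 : 0 < m := by
          rcases Nat.eq_zero_or_pos m with h | h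
          · subst h; omega
          · exact h
        have hmc : m.Coprime (Qz z) := Nat.Coprime.coprime_dvd_left ⟨m, hm⟩ hb
        simp only [hSg, hM, Finset.mem_sigma, Finset.mem_filter, Finset.mem_Icc]
        refine ⟨⟨⟨hm0, ?_⟩, hmc⟩, ⟨ha0, ?_⟩, ha⟩
        · have : m ≤ m * m := Nat.le_mul_of_pos_left m hm0
          omega
        · rw [Nat.le_div_iff_mul_le (by positivity)]
          calc a * m ^ 2 = n := by rw [hab, hm]; ring
            _ ≤ N := hnN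
      have hWn : W n = (chi r a : ℝ) * ∑ D ∈ F, w D * ((jacobiSym (D : ℤ) b : ℤ) : ℝ) := by
        rw [hW, Finset.mul_sum]
        apply Finset.sum_congr rfl
        intro D hD
        rw [hab, chi_mul _ _ _ ha0.ne' hb0.ne', chi_smooth (hF D hD) a ha, chi_coprime hb]
        push_cast
        ring
      have h2 : W n ≤ B := by
        refine (le_abs_self _).trans ?_
        rw [hWn, abs_mul]
        calc |(chi r a : ℝ)| * |∑ D ∈ F, w D * ((jacobiSym (D : ℤ) b : ℤ) : ℝ)| ≤ 1 * B := by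
              gcongr
              · exact chi_abs_le' _ _
              · exact hns b hb0 hbn hb hsq
          _ = B := one_mul B
      rw [mul_one_div]
      gcongr
    calc ∑ n ∈ Finset.Icc 1 N \ T, W n / n ≤ ∑ n ∈ Finset.Icc 1 N \ T, B * (1 / n) :=
          Finset.sum_le_sum h1
      _ ≤ ∑ n ∈ Finset.Icc 1 N, B * (1 / (n : ℝ)) :=
          Finset.sum_le_sum_of_subset_of_nonneg Finset.sdiff_subset fun _ _ _ => by positivity
      _ = B * ∑ n ∈ Finset.Icc 1 N, (1 : ℝ) / n := by rw [Finset.mul_sum]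
  -- the square part
  set c : ℕ → ℝ := fun m => ∑ D ∈ F, w D * (((jacobiSym (D : ℤ) m : ℤ) : ℝ)) ^ 2 with hc
  have hc0 : ∀ m, 0 ≤ c m := fun m => Finset.sum_nonneg fun D hD => mul_nonneg (hw D hD) (sq_nonneg _)
  have hc1 : ∀ m, c m ≤ ∑ D ∈ F, w D := by
    intro m
    apply Finset.sum_le_sum
    intro D hD
    have hwD := hw D hD
    rcases jacobiSym.trichotomy (D : ℤ) m with h | h | h <;> simp [h, hwD]
  have hsq : ∑ n ∈ T, W n / n = ∑ m ∈ M, c m * ((m : ℝ) ^ 2)⁻¹ * G z r (N / m ^ 2) := by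
    rw [hT, Finset.sum_image hinj, hSg, Finset.sum_sigma]
    apply Finset.sum_congr rfl
    intro m hm
    rw [hM, Finset.mem_filter, Finset.mem_Icc] at hm
    unfold G
    rw [Finset.mul_sum]
    apply Finset.sum_congr rfl
    intro a ha
    rw [Finset.mem_filter, Finset.mem_Icc] at ha
    dsimp only
    have hm0 : m ≠ 0 := by omega
    have ha0 : a ≠ 0 := by omega
    have hWn : W (a * m ^ 2) = (chi r a : ℝ) * c m := by
      rw [hW, hc, Finset.mul_sum]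
      apply Finset.sum_congr rfl
      intro D hD
      rw [chi_mul _ _ _ ha0 (pow_ne_zero 2 hm0), chi_smooth (hF D hD) a ha.2,
        chi_coprime (Nat.Coprime.pow_left 2 hm.2), jacobiSym.pow_right]
      push_cast
      ring
    rw [hWn]
    push_cast
    have hm0' : (m : ℝ) ≠ 0 := by exact_mod_cast hm0
    have ha0' : (a : ℝ) ≠ 0 := by exact_mod_cast ha0
    field_simp
  have hw0 : 0 ≤ ∑ D ∈ F, w D := Finset.sum_nonneg hw
  have hPi := PiR_pos z r
  have hsq' : ∑ n ∈ T, W n / n ≤ (∑ D ∈ F, w D) * ((1 + 1 / z) / PiR z r + Er z r N) := by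
    rw [hsq]
    have h1 : ∀ m ∈ M, c m * ((m : ℝ) ^ 2)⁻¹ * G z r (N / m ^ 2) ≤
        (∑ D ∈ F, w D) * (((m : ℝ) ^ 2)⁻¹ * (1 / PiR z r) +
          ((m : ℝ) ^ 2)⁻¹ * |G z r (N / m ^ 2) - 1 / PiR z r|) := by
      intro m _
      have h2 : G z r (N / m ^ 2) ≤ 1 / PiR z r + |G z r (N / m ^ 2) - 1 / PiR z r| := by
        have := le_abs_self (G z r (N / m ^ 2) - 1 / PiR z r)
        linarith
      have h3 : 0 ≤ c m * ((m : ℝ) ^ 2)⁻¹ := mul_nonneg (hc0 m) (by positivity)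
      calc c m * ((m : ℝ) ^ 2)⁻¹ * G z r (N / m ^ 2)
          ≤ c m * ((m : ℝ) ^ 2)⁻¹ * (1 / PiR z r + |G z r (N / m ^ 2) - 1 / PiR z r|) :=
            mul_le_mul_of_nonneg_left h2 h3
        _ ≤ (∑ D ∈ F, w D) * ((m : ℝ) ^ 2)⁻¹ * (1 / PiR z r + |G z r (N / m ^ 2) - 1 / PiR z r|) := by
            gcongr
            exact hc1 m
        _ = _ := by ring
    calc ∑ m ∈ M, c m * ((m : ℝ) ^ 2)⁻¹ * G z r (N / m ^ 2)
        ≤ ∑ m ∈ M, (∑ D ∈ F, w D) * (((m : ℝ) ^ 2)⁻¹ * (1 / PiR z r) +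
          ((m : ℝ) ^ 2)⁻¹ * |G z r (N / m ^ 2) - 1 / PiR z r|) := Finset.sum_le_sum h1
      _ = (∑ D ∈ F, w D) * ((∑ m ∈ M, ((m : ℝ) ^ 2)⁻¹) * (1 / PiR z r) +
          ∑ m ∈ M, ((m : ℝ) ^ 2)⁻¹ * |G z r (N / m ^ 2) - 1 / PiR z r|) := by
          rw [← Finset.mul_sum, Finset.sum_add_distrib, ← Finset.sum_mul]
      _ ≤ (∑ D ∈ F, w D) * ((1 + 1 / z) * (1 / PiR z r) + Er z r N) := by
          gcongr
          · exact sum_coprime z N hz
          · unfold Er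
            exact Finset.sum_le_sum_of_subset_of_nonneg (Finset.filter_subset _ _)
              fun _ _ _ => by positivity
      _ = _ := by ring
  rw [hswap, hsplit]
  linarith

lemma log_pow_lim (k : ℕ) (s : ℝ) (hs : 0 < s) :
    Tendsto (fun X : ℕ => (Real.log X) ^ k / (X : ℝ) ^ s) atTop (nhds 0) := by
  have h := (isLittleO_log_rpow_rpow_atTop (k : ℝ) hs).tendsto_div_nhds_zero.comp
    (tendsto_natCast_atTop_atTop (R := ℝ))
  refine h.congr fun X => ?_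
  simp only [Function.comp, Real.rpow_natCast]

end LMh

open Pool.Agent.H38R2.CG.LMh LMh in
theorem T2_LM : P_N3a → P2_WT → P2_V0 → P2_V1 → P2_LM := by
  intro hN3a hWT hV0 hV1 a ha z r hz hfr η hη hη1 C0 hC0 ε hε
  obtain ⟨C, hC, hN3⟩ := hN3a
  obtain ⟨X1, hX1⟩ := hV1 a ha z r hfr η hη hη1 C0
  have hQ : (0 : ℝ) < Qz z := by exact_mod_cast Qz_pos z
  have hPi := PiR_pos z r
  have hz0 : (0 : ℝ) < z := by
    have : 0 < z := by omega
    exact_mod_cast this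
  have ha1 : 0 < a - 1 := by linarith
  obtain ⟨δ, hδ⟩ : ∃ δ, δ = cc a := ⟨_, rfl⟩
  have hδ0 : 0 < δ := by
    rw [hδ]; unfold cc
    exact div_pos (by linarith) (by linarith)
  have hδ1 : δ < 1 / 32 := by
    rw [hδ]; unfold cc
    rw [div_lt_div_iff₀ (by linarith) (by norm_num)]
    linarith
  have hth : 3 / 4 ≤ th a + 2 * cc a := by
    unfold th
    rw [← hδ]
    linarith
  set A : ℝ := (1 + 1 / z) / PiR z r with hA
  have hApos : 0 < A := by positivity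
  have hcast : Tendsto (fun X : ℕ => (X : ℝ)) atTop atTop := tendsto_natCast_atTop_atTop
  -- the error functions
  have he0 : Tendsto (fun X : ℕ => Qz z / η * ((Real.log X) ^ C0 / (X : ℝ) ^ δ +
      (Real.log X) ^ (C0 + 1) / (X : ℝ) ^ δ)) atTop (nhds 0) := by
    have := ((log_pow_lim C0 δ hδ0).add (log_pow_lim (C0 + 1) δ hδ0)).const_mul (Qz z / η)
    rwa [add_zero, mul_zero] at this
  have he1 : Tendsto (fun X : ℕ => 2 * (Qz z / η) * ((Real.log X) ^ C0 / (X : ℝ) ^ (1 - δ))) atTop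
      (nhds 0) := by
    have := (log_pow_lim C0 (1 - δ) (by linarith)).const_mul (2 * (Qz z / η))
    rwa [mul_zero] at this
  have he2 : Tendsto (fun X : ℕ => C * (2 * √2) * (Real.log 2 * ((Real.log X) ^ 0 /
      (X : ℝ) ^ (1 / 4 : ℝ)) + (Real.log X) ^ 1 / (X : ℝ) ^ (1 / 4 : ℝ))) atTop (nhds 0) := by
    have := (((log_pow_lim 0 (1 / 4) (by norm_num)).const_mul (Real.log 2)).add
      (log_pow_lim 1 (1 / 4) (by norm_num))).const_mul (C * (2 * √2))
    rwa [mul_zero, add_zero, mul_zero] at this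
  have hfl : Tendsto (fun X : ℕ => ⌊(X : ℝ) ^ (3 / 4 : ℝ)⌋₊) atTop atTop :=
    tendsto_nat_floor_atTop.comp ((tendsto_rpow_atTop (by norm_num)).comp hcast)
  have he3 := (Er_tendsto z r).comp hfl
  have hlim : Tendsto (fun X : ℕ => Qz z / η * ((Real.log X) ^ C0 / (X : ℝ) ^ δ +
      (Real.log X) ^ (C0 + 1) / (X : ℝ) ^ δ) +
      (1 + 2 * (Qz z / η) * ((Real.log X) ^ C0 / (X : ℝ) ^ (1 - δ))) *
      (A + Er z r ⌊(X : ℝ) ^ (3 / 4 : ℝ)⌋₊ + C * (2 * √2) * (Real.log 2 * ((Real.log X) ^ 0 /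
      (X : ℝ) ^ (1 / 4 : ℝ)) + (Real.log X) ^ 1 / (X : ℝ) ^ (1 / 4 : ℝ)))) atTop
      (nhds (0 + (1 + 0) * (A + 0 + 0))) :=
    he0.add ((he1.const_add _).mul ((he3.const_add A).add he2))
  have hlt : 0 + (1 + 0) * (A + 0 + 0) < (1 + ε) * (1 + 4 / z) / PiR z r := by
    have h1 : A ≤ (1 + 4 / z) / PiR z r := by
      rw [hA]
      gcongr
      norm_num
    have h3 : 0 < (1 + 4 / z) / PiR z r := by positivity
    calc 0 + (1 + 0) * (A + 0 + 0) = A := by ring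
      _ ≤ (1 + 4 / z) / PiR z r := h1
      _ < (1 + ε) * ((1 + 4 / z) / PiR z r) := by nlinarith
      _ = _ := by ring
  have hev := (hlim.eventually (gt_mem_nhds hlt)).and (eventually_ge_atTop (max X1 3))
  obtain ⟨X0, hX0⟩ := eventually_atTop.mp hev
  refine ⟨X0, fun X hX ρ hρ => ?_⟩
  obtain ⟨hbr, hXm⟩ := hX0 X hX
  have hX1' : X1 ≤ X := le_trans (le_max_left _ _) hXm
  have hX3 : 3 ≤ X := le_trans (le_max_right _ _) hXm
  have hXr : (3 : ℝ) ≤ X := by exact_mod_cast hX3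
  have hX0' : (0 : ℝ) < X := by linarith
  have hlogX : 1 ≤ Real.log X := by
    have h1 : Real.exp 1 ≤ X := by
      have := Real.exp_one_lt_d9
      linarith
    calc (1:ℝ) = Real.log (Real.exp 1) := (Real.log_exp 1).symm
      _ ≤ Real.log X := Real.log_le_log (Real.exp_pos 1) h1
  set N := ⌊(X : ℝ) ^ (3 / 4 : ℝ)⌋₊ with hN
  have hXp1 : (1 : ℝ) ≤ (X : ℝ) ^ (3 / 4 : ℝ) :=
    Real.one_le_rpow (by linarith) (by norm_num)
  have hN1 : 1 ≤ N := by
    rw [hN]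
    exact Nat.le_floor (by exact_mod_cast hXp1)
  have hNle : (N : ℝ) ≤ (X : ℝ) ^ (3 / 4 : ℝ) := Nat.floor_le (by positivity)
  have hNge : (X : ℝ) ^ (3 / 4 : ℝ) / 2 ≤ N := by
    have h1 : (X : ℝ) ^ (3 / 4 : ℝ) < N + 1 := Nat.lt_floor_add_one _
    have h2 : (1 : ℝ) ≤ N := by exact_mod_cast hN1
    linarith
  have hNpos : (0 : ℝ) < N := by exact_mod_cast hN1
  -- the weights
  have hw : ∀ D, 1 ≤ D → 0 ≤ wt ρ D := fun D hD =>
    (hWT z X (PA a X) (cc a) C0 ρ (by omega) (by rw [← hδ]; linarith) hρ D hD).1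
  have hDpos1 : ∀ D ∈ DD z r X η, 1 ≤ D := by
    intro D hD
    simp only [DD, Finset.mem_filter, Finset.mem_Ioc] at hD
    omega
  have hFD : FD z r X η ⊆ DD z r X η := Finset.filter_subset _ _
  have hwF : ∀ D ∈ FD z r X η, 0 ≤ wt ρ D := fun D hD => hw D (hDpos1 D (hFD hD))
  have hFmod : ∀ D ∈ FD z r X η, D % Qz z = r := by
    intro D hD
    simp only [FD, DD, Finset.mem_filter] at hD
    exact hD.1.2
  obtain ⟨T, hT⟩ : ∃ T, T = ∑ D ∈ FD z r X η, wt ρ D := ⟨_, rfl⟩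
  have hT0 : 0 ≤ T := by rw [hT]; exact Finset.sum_nonneg hwF
  have hWWe : WW z X η ρ = η * X / Qz z * GG X ρ := rfl
  have hTle : T ≤ WW z X η ρ + 2 * (X : ℝ) ^ δ := by
    have h1 : T ≤ ∑ D ∈ DD z r X η, wt ρ D := by
      rw [hT]
      exact Finset.sum_le_sum_of_subset_of_nonneg hFD fun D hD _ => hw D (hDpos1 D hD)
    have h2 := (abs_le.mp (hV0 z r X η (PA a X) (cc a) C0 ρ 1 hfr.1 hη (by omega)
      (by rw [← hδ]; linarith) hρ le_rfl (Nat.coprime_one_left _))).2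
    have h3 : (DD z r X η).filter (fun D => 1 ∣ D) = DD z r X η :=
      Finset.filter_true_of_mem fun D _ => one_dvd D
    have h4 : ∑ d ∈ Finset.Icc 1 X, ρ d / (Nat.lcm d 1 : ℝ) = GG X ρ := by
      unfold GG
      refine Finset.sum_congr rfl fun d _ => ?_
      rw [Nat.lcm_one_right]
    rw [h3, h4, ← hWWe, ← hδ] at h2
    linarith
  have hlogpos : 0 < (Real.log X) ^ C0 := pow_pos (by linarith) _
  have hWWlow : η * X / Qz z * ((Real.log X) ^ C0)⁻¹ ≤ WW z X η ρ := by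
    rw [hWWe]
    exact mul_le_mul_of_nonneg_left hρ.low (by positivity)
  have hWWpos : 0 < WW z X η ρ := lt_of_lt_of_le (by positivity) hWWlow
  have hmain := main_w z r hz (FD z r X η) hFmod (wt ρ) hwF N ((X : ℝ) ^ (1 - δ)) (by positivity)
    (fun m hm1 hmN hmc hms => by
      rw [hδ]
      refine (hX1 X hX1' ρ hρ m hm1 hmc hms).2 ?_
      have h1 : (m : ℝ) ≤ N := by exact_mod_cast hmN
      refine (h1.trans hNle).trans ?_
      exact Real.rpow_le_rpow_of_exponent_le (by linarith) hth)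
  rw [← hT] at hmain
  -- approximation of Lone
  obtain ⟨E2, hE2⟩ : ∃ E2, E2 = C * (2 * √2) * (Real.log 2 * ((Real.log X) ^ 0 /
      (X : ℝ) ^ (1 / 4 : ℝ)) + (Real.log X) ^ 1 / (X : ℝ) ^ (1 / 4 : ℝ)) := ⟨_, rfl⟩
  have hlog2 : 0 ≤ Real.log 2 := Real.log_nonneg (by norm_num)
  have hE2nn : 0 ≤ E2 := by
    rw [hE2]
    positivity
  have hLone : ∀ D ∈ FD z r X η, Lone D ≤ ∑ n ∈ Finset.Icc 1 N, (chi D n : ℝ) / n + E2 := by
    intro D hD
    have hD' := hD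
    simp only [FD, DD, Finset.mem_filter, Finset.mem_Ioc] at hD'
    obtain ⟨⟨⟨hD1, hD2⟩, -⟩, hDf⟩ := hD'
    have hDle : (D : ℝ) ≤ 2 * X := by
      have h1 : (D : ℝ) ≤ (1 + η) * X := by
        have : (D : ℝ) ≤ (⌊(1 + η) * X⌋₊ : ℝ) := by exact_mod_cast hD2
        exact this.trans (Nat.floor_le (by positivity))
      nlinarith
    have hDpos : (0 : ℝ) < D := by
      have : 0 < D := by omega
      exact_mod_cast this
    have h := (abs_le.mp (hN3 D hDf N hN1)).2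
    have h2 : C * √(D : ℝ) * Real.log D / N ≤ E2 := by
      have h3 : √(D : ℝ) ≤ √2 * (X : ℝ) ^ (1 / 2 : ℝ) := by
        rw [← Real.sqrt_eq_rpow, ← Real.sqrt_mul (by norm_num)]
        exact Real.sqrt_le_sqrt hDle
      have h4 : Real.log D ≤ Real.log 2 + Real.log X := by
        rw [← Real.log_mul (by norm_num) hX0'.ne']
        exact Real.log_le_log hDpos hDle
      have h5 : 0 ≤ Real.log 2 + Real.log X := by linarith
      have h6 : (X : ℝ) ^ (3 / 4 : ℝ) = (X : ℝ) ^ (1 / 2 : ℝ) * (X : ℝ) ^ (1 / 4 : ℝ) := by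
        rw [← Real.rpow_add hX0']
        norm_num
      have h7 : (0 : ℝ) < (X : ℝ) ^ (1 / 2 : ℝ) := by positivity
      have h8 : (0 : ℝ) < (X : ℝ) ^ (1 / 4 : ℝ) := by positivity
      calc C * √(D : ℝ) * Real.log D / N
          ≤ C * (√2 * (X : ℝ) ^ (1 / 2 : ℝ)) * (Real.log 2 + Real.log X) /
            ((X : ℝ) ^ (3 / 4 : ℝ) / 2) := by
            gcongr
        _ = _ := by
            rw [h6, hE2]
            field_simp
    linarith
  have hsum1 : ∑ D ∈ FD z r X η, wt ρ D * Lone D ≤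
      ∑ D ∈ FD z r X η, wt ρ D * ∑ n ∈ Finset.Icc 1 N, (chi D n : ℝ) / n + T * E2 := by
    calc ∑ D ∈ FD z r X η, wt ρ D * Lone D
        ≤ ∑ D ∈ FD z r X η, wt ρ D * (∑ n ∈ Finset.Icc 1 N, (chi D n : ℝ) / n + E2) :=
          Finset.sum_le_sum fun D hD => mul_le_mul_of_nonneg_left (hLone D hD) (hwF D hD)
      _ = _ := by
          rw [hT, Finset.sum_mul, ← Finset.sum_add_distrib]
          refine Finset.sum_congr rfl fun D _ => ?_
          ring
  have hEr := Er_nonneg z r N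
  have hharm : ∑ n ∈ Finset.Icc 1 N, (1 : ℝ) / n ≤ 1 + Real.log X := by
    refine (sum_inv_le N).trans ?_
    have hNX : (N : ℝ) ≤ X := by
      refine hNle.trans ?_
      calc (X : ℝ) ^ (3 / 4 : ℝ) ≤ (X : ℝ) ^ (1 : ℝ) :=
            Real.rpow_le_rpow_of_exponent_le (by linarith) (by norm_num)
        _ = X := Real.rpow_one _
    have := Real.log_le_log hNpos hNX
    linarith
  -- comparison with WW
  have hinvW : 1 ≤ WW z X η ρ * (Qz z / η * ((Real.log X) ^ C0 / X)) := by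
    calc (1:ℝ) = η * X / Qz z * ((Real.log X) ^ C0)⁻¹ * (Qz z / η * ((Real.log X) ^ C0 / X)) := by
          field_simp
      _ ≤ _ := mul_le_mul_of_nonneg_right hWWlow (by positivity)
  have hp1 : (X : ℝ) ^ (1 - δ) = X / (X : ℝ) ^ δ := by
    rw [Real.rpow_sub hX0', Real.rpow_one]
  have hp2 : (X : ℝ) ^ δ = X / (X : ℝ) ^ (1 - δ) := by
    rw [hp1]
    field_simp
  have hXδ : (0:ℝ) < (X : ℝ) ^ δ := by positivity
  have hX1δ : (0:ℝ) < (X : ℝ) ^ (1 - δ) := by positivity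
  have ht1 : (X : ℝ) ^ (1 - δ) * (1 + Real.log X) ≤ WW z X η ρ *
      (Qz z / η * ((Real.log X) ^ C0 / (X : ℝ) ^ δ + (Real.log X) ^ (C0 + 1) / (X : ℝ) ^ δ)) := by
    calc (X : ℝ) ^ (1 - δ) * (1 + Real.log X)
        = 1 * ((X : ℝ) ^ (1 - δ) * (1 + Real.log X)) := (one_mul _).symm
      _ ≤ WW z X η ρ * (Qz z / η * ((Real.log X) ^ C0 / X)) *
          ((X : ℝ) ^ (1 - δ) * (1 + Real.log X)) :=
          mul_le_mul_of_nonneg_right hinvW (by positivity)
      _ = _ := by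
          rw [hp1]
          field_simp
          ring
  have ht2 : 2 * (X : ℝ) ^ δ ≤ WW z X η ρ *
      (2 * (Qz z / η) * ((Real.log X) ^ C0 / (X : ℝ) ^ (1 - δ))) := by
    calc 2 * (X : ℝ) ^ δ = 1 * (2 * (X : ℝ) ^ δ) := (one_mul _).symm
      _ ≤ WW z X η ρ * (Qz z / η * ((Real.log X) ^ C0 / X)) * (2 * (X : ℝ) ^ δ) :=
          mul_le_mul_of_nonneg_right hinvW (by positivity)
      _ = _ := by
          rw [hp1]
          field_simp
  have hT2 : T ≤ WW z X η ρ * (1 + 2 * (Qz z / η) * ((Real.log X) ^ C0 / (X : ℝ) ^ (1 - δ))) := by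
    rw [mul_add, mul_one]
    linarith
  calc ∑ D ∈ FD z r X η, wt ρ D * Lone D
      ≤ (X : ℝ) ^ (1 - δ) * ∑ n ∈ Finset.Icc 1 N, (1 : ℝ) / n + T * (A + Er z r N) + T * E2 := by
        linarith
    _ = (X : ℝ) ^ (1 - δ) * ∑ n ∈ Finset.Icc 1 N, (1 : ℝ) / n + T * (A + Er z r N + E2) := by ring
    _ ≤ (X : ℝ) ^ (1 - δ) * (1 + Real.log X) +
        WW z X η ρ * (1 + 2 * (Qz z / η) * ((Real.log X) ^ C0 / (X : ℝ) ^ (1 - δ))) *
          (A + Er z r N + E2) := by gcongr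
    _ ≤ WW z X η ρ * (Qz z / η * ((Real.log X) ^ C0 / (X : ℝ) ^ δ +
          (Real.log X) ^ (C0 + 1) / (X : ℝ) ^ δ)) +
        WW z X η ρ * (1 + 2 * (Qz z / η) * ((Real.log X) ^ C0 / (X : ℝ) ^ (1 - δ))) *
          (A + Er z r N + E2) := by gcongr
    _ = WW z X η ρ * (Qz z / η * ((Real.log X) ^ C0 / (X : ℝ) ^ δ +
          (Real.log X) ^ (C0 + 1) / (X : ℝ) ^ δ) +
        (1 + 2 * (Qz z / η) * ((Real.log X) ^ C0 / (X : ℝ) ^ (1 - δ))) *
          (A + Er z r N + E2)) := by ring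
    _ ≤ WW z X η ρ * ((1 + ε) * (1 + 4 / z) / PiR z r) := by
        rw [hE2]
        exact mul_le_mul_of_nonneg_left hbr.le hWWpos.le
    _ = (1 + ε) * (1 + 4 / z) * WW z X η ρ / PiR z r := by ring

end Pool.Agent.H38R2.CG2
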