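import Pool.Agent.H52.V.S8.H38R2.CG2.Stubs

set_option autoImplicit false

namespace Pool.Agent.H38R2.CG2

open Finset Filter NumberField Pool.Agent.H38R2.CG
open scoped Classical

namespace TMch

theorem core (hTB2 : P_TB2) (hTB3c : P_TB3c) (hFJ : P2_FJ) (hJP : P2_JP) (hOMC : P2_OMC)
    (l : ℝ) (hl : 0 < l)
    (hOM : ∀ (X : ℕ) (η v x T0 T1 : ℝ), 1 ≤ X → 0 < η → η ≤ 1 → 0 ≤ v → T0 + 1 ≤ x → x + 1 ≤ T1 →
      om X η v (Real.exp x) ≤ (1 + 1) * Real.exp (1 / 2) * (∫ t in T0..T1,
        om X η (v * Real.exp (-(1 / 2))) (Real.exp t) * (l / fejI * fej (l * (x - t)))))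
    (a : ℝ) (z r X : ℕ) (η : ℝ) (hX : 1 ≤ X) (hη : 0 < η) (hη1 : η ≤ 1) (ρ : ℕ → ℝ) (C0 : ℕ)
    (hρ : SWt z X (PA a X) (cc a) C0 ρ)
    (hQ : ∀ p ∈ PA a X, ¬ p ∣ Qz z) (c : Finset ℕ) (hc : c ⊆ PA a X) (k : ℕ) (T0 T1 : ℝ)
    (hT : T0 ≤ T1)
    (hx : ∀ s ∈ (PA a X).powersetCard k, ∀ t ∈ (PA a X).powersetCard k,
      T0 + 1 ≤ Real.log (prodS c ^ 2 * (prodS s * prodS t) : ℕ) ∧
      Real.log (prodS c ^ 2 * (prodS s * prodS t) : ℕ) + 1 ≤ T1)
    (A1 A2 : ℝ) (hA1 : 0 ≤ A1)
    (hUJ : ∀ t : ℝ, ∑ v ∈ Finset.Icc 1 ⌊(X : ℝ) ^ (1 - cc a)⌋₊,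
      UJ a z X k ρ c (fun v => om X η (v * Real.exp (-(1 / 2))) (Real.exp t)) l t v ≤
      A1 * SF a X k c l t + A2) :
    ∑ s ∈ (PA a X).powersetCard k, ∑ t ∈ (PA a X).powersetCard k, MT a z r X η ρ c s t ≤
      2 ^ z * 16 * Real.exp (1 / 2) * (A1 * (CA a X k) ^ 2 + A2 * (l / fejI) * (T1 - T0)) := by
  obtain ⟨hF0, hFnn, hFc, hFI, -⟩ := hFJ
  set V := ⌊(X : ℝ) ^ (1 - cc a)⌋₊ with hV
  set P := PA a X with hP
  have hPprime : ∀ p ∈ P, p.Prime := by
    intro p hp
    exact (Finset.mem_filter.1 hp).2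
  have hQ0 : 0 < Qz z := by
    unfold Qz
    apply Nat.mul_pos (by norm_num)
    apply Finset.prod_pos
    intro p hp
    exact pow_pos (Finset.mem_filter.1 hp).2.pos 2
  have hQ0' : (0 : ℝ) < Qz z := by exact_mod_cast hQ0
  have hcop : ∀ s, s ⊆ P → (prodS s).Coprime (Qz z) := by
    intro s hs
    apply Nat.Coprime.prod_left
    intro p hp
    exact (Nat.Prime.coprime_iff_not_dvd (hPprime p (hs hp))).2 (hQ p (hs hp))
  have hpos : ∀ s, s ⊆ P → 0 < prodS s := by
    intro s hs
    apply Finset.prod_pos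
    intro p hp
    exact (hPprime p (hs hp)).pos
  -- abbreviations
  let N : Finset ℕ → Finset ℕ → ℕ := fun s t => prodS c ^ 2 * (prodS s * prodS t)
  let g : ℕ → Finset ℕ → Finset ℕ → ℝ → ℝ := fun v s t t' =>
    om X η ((v : ℝ) * Real.exp (-(1 / 2))) (Real.exp t') *
      (l / fejI * fej (l * (Real.log (N s t : ℕ) - t')))
  have hgc : ∀ v s t, Continuous (g v s t) := by
    intro v s t
    apply Continuous.mul
    · exact hOMC X η _ hX hη hη1 (by positivity)
    · apply Continuous.mul continuous_const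
      apply hFc.comp
      fun_prop
  have hJJ : ∀ m v, 0 ≤ JJ z X ρ c m v := fun m v => hJP z X P (cc a) C0 ρ c m v hρ
  have hMT : ∀ s ∈ P.powersetCard k, ∀ t ∈ P.powersetCard k, MT a z r X η ρ c s t ≤
      2 ^ z * 16 * Real.exp (1 / 2) * ∑ v ∈ Finset.Icc 1 V,
        JJ z X ρ c (prodS s * prodS t) v * ∫ t' in T0..T1, g v s t t' := by
    intro s hs t ht
    have hs' := (Finset.mem_powersetCard.1 hs).1
    have ht' := (Finset.mem_powersetCard.1 ht).1
    unfold MT
    rw [Finset.mul_sum]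
    apply Finset.sum_le_sum
    intro v hv
    have hv1 : 1 ≤ v := (Finset.mem_Icc.1 hv).1
    have hN0 : 0 < N s t := Nat.mul_pos (pow_pos (hpos c hc) 2)
      (Nat.mul_pos (hpos s hs') (hpos t ht'))
    have hN0' : (0 : ℝ) < (N s t : ℕ) := by exact_mod_cast hN0
    have hNc : (N s t).Coprime (Qz z) :=
      Nat.Coprime.mul_left (Nat.Coprime.pow_left 2 (hcop c hc))
        (Nat.Coprime.mul_left (hcop s hs') (hcop t ht'))
    have h1 : (rhoQ z r (N s t) v : ℝ) ≤ Qz z * (8 * 2 ^ z) := by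
      have := hTB3c z r (N s t) v hv1 hNc
      have h2 : (rhoQ z r (N s t) v : ℝ) ≤ ((Qz z * 8 * 2 ^ z : ℕ) : ℝ) := by exact_mod_cast this
      push_cast at h2
      linarith
    have hom0 : 0 ≤ om X η v (N s t : ℕ) := (hTB2 X η hX hη hη1 _ hN0').2.1 v
    have h3 : om X η v (N s t : ℕ) / Qz z * ((rhoQ z r (N s t) v : ℝ) *
        JJ z X ρ c (prodS s * prodS t) v) ≤
        (8 * 2 ^ z) * (om X η v (N s t : ℕ) * JJ z X ρ c (prodS s * prodS t) v) := by
      have h4 : om X η v (N s t : ℕ) / Qz z * ((rhoQ z r (N s t) v : ℝ) *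
        JJ z X ρ c (prodS s * prodS t) v) =
        (rhoQ z r (N s t) v : ℝ) / Qz z * (om X η v (N s t : ℕ) *
          JJ z X ρ c (prodS s * prodS t) v) := by ring
      rw [h4]
      apply mul_le_mul_of_nonneg_right _ (mul_nonneg hom0 (hJJ _ _))
      rw [div_le_iff₀ hQ0']
      linarith
    have h5 := hOM X η v (Real.log (N s t : ℕ)) T0 T1 hX hη hη1 (by positivity)
      (hx s hs t ht).1 (hx s hs t ht).2
    rw [Real.exp_log hN0'] at h5
    have h6 : om X η v (N s t : ℕ) * JJ z X ρ c (prodS s * prodS t) v ≤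
        ((1 + 1) * Real.exp (1 / 2) * ∫ t' in T0..T1, g v s t t') *
          JJ z X ρ c (prodS s * prodS t) v := mul_le_mul_of_nonneg_right h5 (hJJ _ _)
    calc _ ≤ _ := h3
      _ ≤ (8 * 2 ^ z) * (((1 + 1) * Real.exp (1 / 2) * ∫ t' in T0..T1, g v s t t') *
          JJ z X ρ c (prodS s * prodS t) v) := mul_le_mul_of_nonneg_left h6 (by positivity)
      _ = _ := by ring
  -- sum over everything
  have hsum : ∑ s ∈ P.powersetCard k, ∑ t ∈ P.powersetCard k, MT a z r X η ρ c s t ≤
      2 ^ z * 16 * Real.exp (1 / 2) * ∑ s ∈ P.powersetCard k, ∑ t ∈ P.powersetCard k,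
        ∑ v ∈ Finset.Icc 1 V, JJ z X ρ c (prodS s * prodS t) v * ∫ t' in T0..T1, g v s t t' := by
    rw [Finset.mul_sum]
    apply Finset.sum_le_sum
    intro s hs
    rw [Finset.mul_sum]
    apply Finset.sum_le_sum
    intro t ht
    exact hMT s hs t ht
  refine hsum.trans ?_
  apply mul_le_mul_of_nonneg_left _ (by positivity)
  let G : ℝ → ℝ := fun t' => ∑ s ∈ P.powersetCard k, ∑ t ∈ P.powersetCard k,
    ∑ v ∈ Finset.Icc 1 V, JJ z X ρ c (prodS s * prodS t) v * g v s t t'
  have hGint : ∫ t' in T0..T1, G t' = ∑ s ∈ P.powersetCard k, ∑ t ∈ P.powersetCard k,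
        ∑ v ∈ Finset.Icc 1 V, JJ z X ρ c (prodS s * prodS t) v * ∫ t' in T0..T1, g v s t t' := by
    simp only [G]
    rw [intervalIntegral.integral_finsetSum]
    · apply Finset.sum_congr rfl
      intro s hs
      rw [intervalIntegral.integral_finsetSum]
      · apply Finset.sum_congr rfl
        intro t ht
        rw [intervalIntegral.integral_finsetSum]
        · apply Finset.sum_congr rfl
          intro v hv
          rw [intervalIntegral.integral_const_mul]
        · intro v hv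
          exact (continuous_const.mul (hgc v s t)).intervalIntegrable _ _
      · intro t ht
        exact (continuous_finsetSum _ fun v _ =>
          continuous_const.mul (hgc v s t)).intervalIntegrable _ _
    · intro s hs
      exact (continuous_finsetSum _ fun t _ => continuous_finsetSum _ fun v _ =>
          continuous_const.mul (hgc v s t)).intervalIntegrable _ _
  rw [← hGint]
  have hGc : Continuous G := continuous_finsetSum _ fun s _ => continuous_finsetSum _ fun t _ =>
    continuous_finsetSum _ fun v _ => continuous_const.mul (hgc v s t)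
  have hGU : ∀ t', G t' = (l / fejI) * ∑ v ∈ Finset.Icc 1 V,
      UJ a z X k ρ c (fun v => om X η (v * Real.exp (-(1 / 2))) (Real.exp t')) l t' v := by
    intro t'
    simp only [G, UJ, g]
    have hcomm : ∑ s ∈ P.powersetCard k, ∑ t ∈ P.powersetCard k,
        ∑ v ∈ Finset.Icc 1 V, JJ z X ρ c (prodS s * prodS t) v *
          (om X η ((v : ℝ) * Real.exp (-(1 / 2))) (Real.exp t') *
            (l / fejI * fej (l * (Real.log (N s t : ℕ) - t')))) =
        ∑ v ∈ Finset.Icc 1 V, ∑ s ∈ P.powersetCard k, ∑ t ∈ P.powersetCard k,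
          JJ z X ρ c (prodS s * prodS t) v *
          (om X η ((v : ℝ) * Real.exp (-(1 / 2))) (Real.exp t') *
            (l / fejI * fej (l * (Real.log (N s t : ℕ) - t')))) := by
      calc _ = ∑ s ∈ P.powersetCard k, ∑ v ∈ Finset.Icc 1 V, ∑ t ∈ P.powersetCard k,
          JJ z X ρ c (prodS s * prodS t) v *
          (om X η ((v : ℝ) * Real.exp (-(1 / 2))) (Real.exp t') *
            (l / fejI * fej (l * (Real.log (N s t : ℕ) - t')))) :=
            Finset.sum_congr rfl fun s _ => Finset.sum_comm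
        _ = _ := Finset.sum_comm
    rw [hcomm, Finset.mul_sum]
    apply Finset.sum_congr rfl
    intro v hv
    rw [Finset.mul_sum, Finset.mul_sum]
    apply Finset.sum_congr rfl
    intro s hs
    rw [Finset.mul_sum, Finset.mul_sum]
    apply Finset.sum_congr rfl
    intro t ht
    ring
  have hlF : 0 ≤ l / fejI := by positivity
  have hSFc : Continuous (fun t' => SF a X k c l t') := by
    unfold SF
    apply continuous_finsetSum
    intro s _
    apply continuous_finsetSum
    intro t _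
    apply hFc.comp
    fun_prop
  have hle : ∫ t' in T0..T1, G t' ≤ ∫ t' in T0..T1, (l / fejI) * (A1 * SF a X k c l t' + A2) := by
    apply intervalIntegral.integral_mono_on hT (hGc.intervalIntegrable _ _)
    · apply Continuous.intervalIntegrable
      exact continuous_const.mul ((continuous_const.mul hSFc).add continuous_const)
    · intro t' _
      rw [hGU t']
      exact mul_le_mul_of_nonneg_left (hUJ t') hlF
  refine hle.trans ?_
  have hSFint : (l / fejI) * ∫ t' in T0..T1, SF a X k c l t' ≤ (CA a X k) ^ 2 := by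
    have h1 : ∫ t' in T0..T1, SF a X k c l t' = ∑ s ∈ P.powersetCard k, ∑ t ∈ P.powersetCard k,
        ∫ t' in T0..T1, fej (l * (Real.log (N s t : ℕ) - t')) := by
      unfold SF
      rw [intervalIntegral.integral_finsetSum]
      · apply Finset.sum_congr rfl
        intro s hs
        rw [intervalIntegral.integral_finsetSum]
        intro t ht
        apply Continuous.intervalIntegrable
        apply hFc.comp
        fun_prop
      · intro s hs
        apply Continuous.intervalIntegrable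
        apply continuous_finsetSum
        intro t _
        apply hFc.comp
        fun_prop
    rw [h1, Finset.mul_sum]
    have h2 : ∀ s ∈ P.powersetCard k, (l / fejI) * ∑ t ∈ P.powersetCard k,
        ∫ t' in T0..T1, fej (l * (Real.log (N s t : ℕ) - t')) ≤ CA a X k := by
      intro s hs
      rw [Finset.mul_sum]
      have h3 : ∀ t ∈ P.powersetCard k, (l / fejI) *
          ∫ t' in T0..T1, fej (l * (Real.log (N s t : ℕ) - t')) ≤ 1 := by
        intro t ht
        have h4 := hFI l (Real.log (N s t : ℕ)) T0 T1 hl hT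
        rw [intervalIntegral.integral_const_mul] at h4
        rw [div_mul_eq_mul_div, div_le_one hF0]
        exact h4
      refine (Finset.sum_le_sum h3).trans ?_
      rw [Finset.sum_const, Finset.card_powersetCard, nsmul_eq_mul, mul_one]
      exact le_rfl
    refine (Finset.sum_le_sum h2).trans ?_
    rw [Finset.sum_const, Finset.card_powersetCard, nsmul_eq_mul, sq]
    exact le_rfl
  have hexp : ∫ t' in T0..T1, (l / fejI) * (A1 * SF a X k c l t' + A2) =
      A1 * ((l / fejI) * ∫ t' in T0..T1, SF a X k c l t') + A2 * (l / fejI) * (T1 - T0) := by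
    have i1 : IntervalIntegrable (fun t' => A1 * SF a X k c l t') MeasureTheory.volume T0 T1 :=
      (continuous_const.mul hSFc).intervalIntegrable _ _
    rw [intervalIntegral.integral_const_mul, intervalIntegral.integral_add i1
      intervalIntegrable_const,
      intervalIntegral.integral_const_mul, intervalIntegral.integral_const, smul_eq_mul]
    ring
  rw [hexp]
  have := mul_le_mul_of_nonneg_left hSFint hA1
  linarith

/-- facts on the parameters for large X -/
theorem params (hSZ : P2_SZ) (hNB : P2_NB) (a : ℝ) (ha : 2 < a) (z : ℕ) (B : ℝ) :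
    ∃ X0 : ℕ, ∀ X ≥ X0, 3 ≤ X ∧ B ≤ Real.log X ∧ B ≤ kA a X ∧
      (∀ p ∈ PA a X, ¬ p ∣ Qz z) ∧
      ∀ c ⊆ PA a X, c.card ≤ kA a X → ∀ s ∈ (PA a X).powersetCard (kA a X - c.card),
        ∀ t ∈ (PA a X).powersetCard (kA a X - c.card),
          2 * th a * Real.log X ≤ Real.log (prodS c ^ 2 * (prodS s * prodS t) : ℕ) ∧
          Real.log (prodS c ^ 2 * (prodS s * prodS t) : ℕ) ≤ 2 * (th a + cc a) * Real.log X := by
  obtain ⟨X1, h1⟩ := hSZ a ha
  obtain ⟨X2, h2⟩ := hNB a ha 1 one_pos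
  obtain ⟨X3, h3⟩ : ∃ X3 : ℕ, ∀ X ≥ X3, (z : ℝ) + 2 + |B| + B ^ 2 ≤ Real.log X := by
    have := (Real.tendsto_log_atTop.comp tendsto_natCast_atTop_atTop).eventually_ge_atTop
      ((z : ℝ) + 2 + |B| + B ^ 2)
    exact eventually_atTop.1 this
  refine ⟨max X1 (max X2 (max X3 3)), fun X hX => ?_⟩
  have hX1 : X1 ≤ X := le_trans (le_max_left _ _) hX
  have hX2 : X2 ≤ X := le_trans (le_trans (le_max_left _ _) (le_max_right _ _)) hX
  have hX3 : X3 ≤ X := le_trans (le_trans (le_trans (le_max_left _ _) (le_max_right _ _))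
    (le_max_right _ _)) hX
  have hX4 : 3 ≤ X := le_trans (le_trans (le_trans (le_max_right _ _) (le_max_right _ _))
    (le_max_right _ _)) hX
  have hlog := h3 X hX3
  have hz0 : (0 : ℝ) ≤ z := Nat.cast_nonneg _
  have hB0 := abs_nonneg B
  have hB2 := sq_nonneg B
  obtain ⟨-, -, -, -, hk, -, hcard, -⟩ := h2 X hX2
  have hlk : Real.log X ≤ (kA a X : ℝ) ^ 2 := by
    have h4 := Real.sq_sqrt (show (0 : ℝ) ≤ Real.log X by linarith)
    have h5 := Real.sqrt_nonneg (Real.log X)
    nlinarith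
  refine ⟨hX4, ?_, ?_, ?_, ?_⟩
  · have := le_abs_self B
    linarith
  · have h5 : B ≤ √(Real.log X) := by
      apply Real.le_sqrt_of_sq_le
      linarith
    linarith
  · intro p hp hpQ
    have hpp : p.Prime := (Finset.mem_filter.1 hp).2
    have hpy : yA a X < p := (Finset.mem_Ioc.1 (Finset.mem_filter.1 hp).1).1
    have hc1 : (PA a X).card ≤ yA a X := by
      refine (Finset.card_filter_le _ _).trans ?_
      rw [Nat.card_Ioc]
      omega
    have h6 : (z : ℝ) + 2 ≤ p := by
      have h7 : (4 * (kA a X) ^ 2 : ℕ) ≤ yA a X := hcard.trans hc1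
      have h8 : ((4 * (kA a X) ^ 2 : ℕ) : ℝ) ≤ (yA a X : ℝ) := by exact_mod_cast h7
      push_cast at h8
      have h9 : (yA a X : ℝ) ≤ p := by exact_mod_cast hpy.le
      nlinarith
    have h7 : z + 2 ≤ p := by exact_mod_cast h6
    unfold Qz at hpQ
    rcases (Nat.Prime.dvd_mul hpp).1 hpQ with h | h
    · have h8 : p ∣ 2 := by
        apply Nat.Prime.dvd_of_dvd_pow hpp (n := 4)
        norm_num
        exact h
      have h9 := (Nat.dvd_prime Nat.prime_two).1 h8
      have h10 := hpp.one_lt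
      have h11 : p = 2 := by omega
      have h12 : z = 0 := by omega
      have h13 : 2 ≤ Real.log X := by linarith
      have h14 : ((4 * (kA a X) ^ 2 : ℕ) : ℝ) ≤ (yA a X : ℝ) := by
        exact_mod_cast hcard.trans hc1
      push_cast at h14
      have h15 : (yA a X : ℝ) < 2 := by
        have : yA a X < 2 := by omega
        exact_mod_cast this
      nlinarith
    · obtain ⟨q, hq, hpq⟩ := (Prime.dvd_finsetProd_iff hpp.prime _).1 h
      have h8 : p ∣ q := Nat.Prime.dvd_of_dvd_pow hpp hpq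
      have h9 : q ≤ z := (Finset.mem_Icc.1 (Finset.mem_filter.1 hq).1).2
      have h10 : 0 < q := (Finset.mem_filter.1 hq).2.pos
      have := Nat.le_of_dvd h10 h8
      omega
  · intro c hc hck s hs t ht
    obtain ⟨hs1, hs2⟩ := Finset.mem_powersetCard.1 hs
    obtain ⟨ht1, ht2⟩ := Finset.mem_powersetCard.1 ht
    have hX0 : (0 : ℝ) < X := by
      have : 0 < X := by omega
      exact_mod_cast this
    have a1 := h1 X hX1 c s hc hs1 (by omega)
    have a2 := h1 X hX1 c t hc ht1 (by omega)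
    have hpos : ∀ s, s ⊆ PA a X → (0 : ℝ) < prodS s := by
      intro s hs
      have : 0 < prodS s := by
        apply Finset.prod_pos
        intro p hp
        exact (Finset.mem_filter.1 (hs hp)).2.pos
      exact_mod_cast this
    have p1 := hpos c hc
    have p2 := hpos s hs1
    have p3 := hpos t ht1
    have e1 : Real.log (prodS c ^ 2 * (prodS s * prodS t) : ℕ) =
        Real.log ((prodS c : ℝ) * prodS s) + Real.log ((prodS c : ℝ) * prodS t) := by
      rw [← Real.log_mul (by positivity) (by positivity)]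
      congr 1
      push_cast
      ring
    have l1 := Real.log_le_log (by positivity) a1.1
    have l2 := Real.log_le_log (by positivity) a1.2
    have l3 := Real.log_le_log (by positivity) a2.1
    have l4 := Real.log_le_log (by positivity) a2.2
    rw [Real.log_rpow hX0] at l1 l2 l3 l4
    rw [e1]
    constructor <;> linarith

theorem Fanti (hTB2 : P_TB2) (X : ℕ) (η : ℝ) (hX : 1 ≤ X) (hη : 0 < η) (hη1 : η ≤ 1) (t : ℝ) :
    AntitoneOn (fun v => om X η (v * Real.exp (-(1 / 2))) (Real.exp t)) (Set.Ici 0) := by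
  intro u hu v hv huv
  have h := (hTB2 X η hX hη hη1 (Real.exp t) (Real.exp_pos t)).1
  simp only [Set.mem_Ici] at hu hv
  apply h
  · simp only [Set.mem_Ici]; positivity
  · simp only [Set.mem_Ici]; positivity
  · exact mul_le_mul_of_nonneg_right huv (by positivity)

theorem Fint (hTB2 : P_TB2) (X : ℕ) (η : ℝ) (hX : 1 ≤ X) (hη : 0 < η) (hη1 : η ≤ 1) (t V : ℝ)
    (hV : 0 ≤ V) :
    ∫ v in (0 : ℝ)..V, om X η (v * Real.exp (-(1 / 2))) (Real.exp t) ≤
      Real.exp (1 / 2) * (η * √(X : ℝ) / 8) := by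
  have h := (hTB2 X η hX hη hη1 (Real.exp t) (Real.exp_pos t)).2.2.2.1
    (V * Real.exp (-(1 / 2))) (by positivity)
  have h1 := intervalIntegral.integral_comp_mul_right (a := 0) (b := V)
    (fun v => om X η v (Real.exp t)) (Real.exp_pos (-(1 / 2))).ne'
  rw [zero_mul] at h1
  rw [h1, smul_eq_mul, ← Real.exp_neg, neg_neg]
  exact mul_le_mul_of_nonneg_left h (Real.exp_pos _).le

end TMch

open TMch in
theorem T2_TMc : P2_SZ → P2_NB → P_TB2 → P_TB3c → P2_FJ → P2_JP → P2_OMC → P2_OM → P2_TC0 →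
    P2_TMc := by
  intro hSZ hNB hTB2 hTB3c hFJ hJP hOMC hOM hTC0 a ha z r hz hr η hη hη1 C0 hC0
  obtain ⟨l, hl, hOMl⟩ := hOM 1 1 one_pos one_pos le_rfl
  obtain ⟨X0, hX0⟩ := params hSZ hNB a ha z 2
  refine ⟨X0, fun X hX ρ hρ c hc hck => ?_⟩
  obtain ⟨hX3, hlog, hk2, hQ, hsize⟩ := hX0 X hX
  set k := kA a X - c.card with hk
  have hX1 : 1 ≤ X := by omega
  have hcc : 0 < cc a := by
    unfold cc
    apply div_pos <;> nlinarith
  have hG : 0 ≤ GG X ρ := by
    refine le_trans ?_ hρ.low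
    have : (0 : ℝ) ≤ Real.log X := by linarith
    positivity
  set I : ℝ := Real.exp (1 / 2) * (η * √(X : ℝ) / 8) with hI
  have hl0 : (0 : ℝ) ≤ 1 + Real.log X := by linarith
  have hA1 : 0 ≤ (3 : ℝ) ^ c.card * GG X ρ * (I / (1 : ℕ)) * (1 + Real.log X) ^ (2 * C0) := by
    positivity
  have hcore := core hTB2 hTB3c hFJ hJP hOMC l hl hOMl a z r X η hX1 hη hη1 ρ C0 hρ hQ c hc k
    (2 * th a * Real.log X - 1) (2 * (th a + cc a) * Real.log X + 1) (by nlinarith)
    (by
      intro s hs t ht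
      have := hsize c hc hck s hs t ht
      constructor <;> linarith [this.1, this.2])
    _ 0 hA1 (by
      intro t
      have h1 := hTC0 a ha z X hX3 C0 hC0 ρ hρ hQ c k 1 ⌊(X : ℝ) ^ (1 - cc a)⌋₊
        (fun v => om X η (v * Real.exp (-(1 / 2))) (Real.exp t)) I l t hc le_rfl
        (by
          intro p hp hp1
          exact absurd (Nat.dvd_one.1 hp1) hp.one_lt.ne')
        (Fanti hTB2 X η hX1 hη hη1 t)
        (fun x => (hTB2 X η hX1 hη hη1 (Real.exp t) (Real.exp_pos t)).2.1 _)
        (fun V hV => Fint hTB2 X η hX1 hη hη1 t V hV) hl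
        (Nat.floor_le (by positivity))
      rw [Finset.filter_true_of_mem (fun v _ => one_dvd v)] at h1
      rw [add_zero]
      exact h1)
  refine hcore.trans ?_
  have he : Real.exp (1 / 2) * Real.exp (1 / 2) ≤ 3 := by
    rw [← Real.exp_add]
    norm_num
    have := Real.exp_one_lt_d9
    linarith
  have hCA : 0 ≤ (CA a X k) ^ 2 := sq_nonneg _
  have hR : 0 ≤ (2 : ℝ) ^ z * (3 ^ c.card * (1 + Real.log X) ^ (2 * C0) * GG X ρ * η * √(X : ℝ) *
      (CA a X k) ^ 2) := by positivity
  calc 2 ^ z * 16 * Real.exp (1 / 2) * ((3 : ℝ) ^ c.card * GG X ρ * (I / (1 : ℕ)) *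
        (1 + Real.log X) ^ (2 * C0) * (CA a X k) ^ 2 + 0 * (l / fejI) *
          (2 * (th a + cc a) * Real.log X + 1 - (2 * th a * Real.log X - 1)))
      = 2 * (Real.exp (1 / 2) * Real.exp (1 / 2)) * ((2 : ℝ) ^ z * (3 ^ c.card *
        (1 + Real.log X) ^ (2 * C0) * GG X ρ * η * √(X : ℝ) * (CA a X k) ^ 2)) := by
        rw [hI]; push_cast; ring
    _ ≤ 32 * ((2 : ℝ) ^ z * (3 ^ c.card *
        (1 + Real.log X) ^ (2 * C0) * GG X ρ * η * √(X : ℝ) * (CA a X k) ^ 2)) := by
        apply mul_le_mul_of_nonneg_right _ hR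
        linarith
    _ = _ := by rw [pow_add]; ring

end Pool.Agent.H38R2.CG2
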