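import Pool.Agent.H52.V.S8.H38R2.CG2.Stubs

set_option autoImplicit false

/-! Task BF: Bonferroni inequalities with weights. -/

namespace Pool.Agent.H38R2.CG2

open Finset Filter NumberField Pool.Agent.H38R2.CG
open scoped Classical

namespace BFh

/-- elementary symmetric sums -/
noncomputable def es (x : ℕ → ℝ) (P : Finset ℕ) (j : ℕ) : ℝ :=
  ∑ A ∈ P.powersetCard j, ∏ p ∈ A, x p

/-- truncated alternating sums -/
noncomputable def U (x : ℕ → ℝ) (P : Finset ℕ) (r : ℕ) : ℝ :=
  ∑ j ∈ Finset.range (r + 1), (-1 : ℝ) ^ j * es x P j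

theorem es_zero (x : ℕ → ℝ) (P : Finset ℕ) : es x P 0 = 1 := by
  simp [es]

theorem es_empty (x : ℕ → ℝ) (j : ℕ) : es x ∅ (j + 1) = 0 := by
  unfold es
  rw [Finset.powersetCard_eq_empty.2 (by simp), Finset.sum_empty]

theorem es_insert (x : ℕ → ℝ) (P : Finset ℕ) (q : ℕ) (hq : q ∉ P) (j : ℕ) :
    es x (insert q P) (j + 1) = es x P (j + 1) + x q * es x P j := by
  unfold es
  rw [Finset.powersetCard_succ_insert hq, Finset.sum_union]
  · congr 1
    rw [Finset.sum_image]
    · rw [Finset.mul_sum]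
      refine Finset.sum_congr rfl (fun A hA => ?_)
      rw [Finset.mem_powersetCard] at hA
      rw [Finset.prod_insert (fun h => hq (hA.1 h))]
    · intro A hA B hB h
      rw [Finset.mem_coe, Finset.mem_powersetCard] at hA hB
      have h1 : (insert q A).erase q = (insert q B).erase q := by
        simpa using congrArg (fun s => s.erase q) h
      rwa [Finset.erase_insert (fun h => hq (hA.1 h)), Finset.erase_insert (fun h => hq (hB.1 h))]
        at h1
  · rw [Finset.disjoint_left]
    intro A hA hB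
    rw [Finset.mem_powersetCard] at hA
    rw [Finset.mem_image] at hB
    obtain ⟨B, _, rfl⟩ := hB
    exact hq (hA.1 (Finset.mem_insert_self q B))

theorem U_insert (x : ℕ → ℝ) (P : Finset ℕ) (q : ℕ) (hq : q ∉ P) (r : ℕ) :
    U x (insert q P) (r + 1) = U x P (r + 1) - x q * U x P r := by
  unfold U
  rw [Finset.sum_range_succ' _ (r + 1), Finset.sum_range_succ' _ (r + 1), Finset.mul_sum]
  have h : ∀ k ∈ Finset.range (r + 1), (-1 : ℝ) ^ (k + 1) * es x (insert q P) (k + 1) =
      (-1 : ℝ) ^ (k + 1) * es x P (k + 1) - x q * ((-1 : ℝ) ^ k * es x P k) := by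
    intro k _
    rw [es_insert x P q hq]
    ring
  rw [Finset.sum_congr rfl h, Finset.sum_sub_distrib, es_zero, es_zero]
  ring

theorem U_zero (x : ℕ → ℝ) (P : Finset ℕ) : U x P 0 = 1 := by
  simp [U, es_zero]

theorem prod_le_one' (x : ℕ → ℝ) (P : Finset ℕ) (h : ∀ p ∈ P, 0 ≤ x p ∧ x p ≤ 1) :
    ∏ p ∈ P, (1 - x p) ≤ 1 :=
  Finset.prod_le_one (fun p hp => by linarith [(h p hp).2]) (fun p hp => by linarith [(h p hp).1])

theorem bonf (x : ℕ → ℝ) (P : Finset ℕ) : (∀ p ∈ P, 0 ≤ x p ∧ x p ≤ 1) → ∀ r : ℕ,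
    0 ≤ (-1 : ℝ) ^ r * (U x P r - ∏ p ∈ P, (1 - x p)) := by
  induction P using Finset.induction_on with
  | empty =>
    intro _ r
    have h : U x ∅ r = 1 := by
      unfold U
      rw [Finset.sum_range_succ']
      have : ∀ k ∈ Finset.range r, (-1 : ℝ) ^ (k + 1) * es x ∅ (k + 1) = 0 := by
        intro k _
        rw [es_empty, mul_zero]
      rw [Finset.sum_congr rfl this]
      simp [es_zero]
    rw [h]
    simp
  | insert q P hq ih =>
    intro h r
    have hP : ∀ p ∈ P, 0 ≤ x p ∧ x p ≤ 1 := fun p hp => h p (Finset.mem_insert_of_mem hp)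
    have hq' := h q (Finset.mem_insert_self q P)
    cases r with
    | zero =>
      rw [U_zero]
      have := prod_le_one' x (insert q P) h
      simpa using this
    | succ r =>
      rw [U_insert x P q hq, Finset.prod_insert hq]
      have h1 := ih hP (r + 1)
      have h2 := mul_nonneg hq'.1 (ih hP r)
      have : (-1 : ℝ) ^ (r + 1) * (U x P (r + 1) - x q * U x P r -
          (1 - x q) * ∏ p ∈ P, (1 - x p)) =
          (-1 : ℝ) ^ (r + 1) * (U x P (r + 1) - ∏ p ∈ P, (1 - x p)) +
          x q * ((-1 : ℝ) ^ r * (U x P r - ∏ p ∈ P, (1 - x p))) := by ring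
      rw [this]
      exact add_nonneg h1 h2

theorem powl (S y : ℝ) (hS : 0 ≤ S) (hy : 0 ≤ y) (n : ℕ) :
    S ^ (n + 1) + (n + 1) * y * S ^ n ≤ (S + y) ^ (n + 1) := by
  induction n with
  | zero => simp
  | succ n ih =>
    have h1 : S ^ n * (y * y) * (n + 1) ≥ 0 := by positivity
    calc S ^ (n + 1 + 1) + (((n + 1 : ℕ) : ℝ) + 1) * y * S ^ (n + 1)
        ≤ (S ^ (n + 1) + (n + 1) * y * S ^ n) * (S + y) := by
          push_cast
          have : (S ^ (n + 1) + (n + 1) * y * S ^ n) * (S + y) =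
            S ^ (n + 1 + 1) + ((n : ℝ) + 1 + 1) * y * S ^ (n + 1) + S ^ n * (y * y) * (n + 1) := by
            ring
          linarith
      _ ≤ (S + y) ^ (n + 1) * (S + y) := mul_le_mul_of_nonneg_right ih (by linarith)
      _ = (S + y) ^ (n + 1 + 1) := by ring

theorem es_le (x : ℕ → ℝ) (P : Finset ℕ) : (∀ p ∈ P, 0 ≤ x p) → ∀ j : ℕ,
    es x P j ≤ (∑ p ∈ P, x p) ^ j / j.factorial := by
  induction P using Finset.induction_on with
  | empty =>
    intro _ j
    cases j with
    | zero => simp [es_zero]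
    | succ j => rw [es_empty]; simp
  | insert q P hq ih =>
    intro h j
    have hP : ∀ p ∈ P, 0 ≤ x p := fun p hp => h p (Finset.mem_insert_of_mem hp)
    have hq' := h q (Finset.mem_insert_self q P)
    have hS : 0 ≤ ∑ p ∈ P, x p := Finset.sum_nonneg hP
    cases j with
    | zero => simp [es_zero]
    | succ j =>
      rw [es_insert x P q hq, Finset.sum_insert hq]
      have h1 := ih hP (j + 1)
      have h2 := mul_le_mul_of_nonneg_left (ih hP j) hq'
      have h3 := powl (∑ p ∈ P, x p) (x q) hS hq' j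
      have hf : (0 : ℝ) < (j.factorial : ℝ) := by exact_mod_cast j.factorial_pos
      calc es x P (j + 1) + x q * es x P j
          ≤ (∑ p ∈ P, x p) ^ (j + 1) / (j + 1).factorial +
            x q * ((∑ p ∈ P, x p) ^ j / j.factorial) := add_le_add h1 h2
        _ = ((∑ p ∈ P, x p) ^ (j + 1) + (j + 1) * x q * (∑ p ∈ P, x p) ^ j) /
            (j + 1).factorial := by
          rw [Nat.factorial_succ]
          push_cast
          field_simp
        _ ≤ (x q + ∑ p ∈ P, x p) ^ (j + 1) / (j + 1).factorial := by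
          rw [add_comm (x q)]
          exact div_le_div_of_nonneg_right h3 (by positivity)

theorem U_eq (x : ℕ → ℝ) (P : Finset ℕ) (r : ℕ) :
    ∑ A ∈ P.powerset.filter (fun A => A.card ≤ r), (-1 : ℝ) ^ A.card * ∏ p ∈ A, x p =
      U x P r := by
  unfold U es
  have h : ∀ j ∈ Finset.range (r + 1), (-1 : ℝ) ^ j * ∑ A ∈ P.powersetCard j, ∏ p ∈ A, x p =
      ∑ A ∈ (P.powerset.filter (fun A => A.card ≤ r)).filter (fun A => A.card = j),
        (-1 : ℝ) ^ A.card * ∏ p ∈ A, x p := by
    intro j hj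
    rw [Finset.mem_range] at hj
    rw [Finset.mul_sum]
    refine Finset.sum_congr ?_ ?_
    · ext A
      simp only [Finset.mem_powersetCard, Finset.mem_filter, Finset.mem_powerset]
      constructor
      · rintro ⟨h1, h2⟩
        exact ⟨⟨h1, by omega⟩, h2⟩
      · rintro ⟨⟨h1, _⟩, h2⟩
        exact ⟨h1, h2⟩
    · intro A hA
      rw [(Finset.mem_filter.1 hA).2]
  rw [Finset.sum_congr rfl h]
  symm
  apply Finset.sum_fiberwise_of_maps_to
  intro A hA
  rw [Finset.mem_range]
  have := (Finset.mem_filter.1 hA).2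
  omega

end BFh

open BFh in
theorem T2_BF : P2_BF := by
  intro P x b h
  rw [U_eq]
  have h1 := bonf x P h (2 * b)
  have h2 := bonf x P h (2 * b + 1)
  have e1 : (-1 : ℝ) ^ (2 * b) = 1 := by rw [pow_mul]; simp
  have e2 : (-1 : ℝ) ^ (2 * b + 1) = -1 := by rw [pow_succ, e1]; simp
  rw [e1] at h1
  rw [e2] at h2
  have h3 : U x P (2 * b + 1) = U x P (2 * b) - es x P (2 * b + 1) := by
    unfold U
    rw [Finset.sum_range_succ _ (2 * b + 1), e2]
    ring
  have h4 := es_le x P (fun p hp => (h p hp).1) (2 * b + 1)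
  constructor
  · linarith
  · linarith

end Pool.Agent.H38R2.CG2
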