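import Pool.Agent.H52.V.S8.H38R2.CG2.Stubs

/-!
# Existence of upper bound sieve weights
-/

set_option autoImplicit false

namespace Pool.Agent.H38R2.CG2

open Finset Filter NumberField Pool.Agent.H38R2.CG
open scoped Classical

namespace BHh

lemma prime_dvd_Qz (z p : ℕ) (hz : 2 ≤ z) (hp : p.Prime) (h : p ∣ Qz z) : p ≤ z := by
  unfold Qz at h
  rcases hp.dvd_mul.1 h with h | h
  · have h2 : p ∣ 2 ^ 4 := by norm_num; exact h
    have := hp.dvd_of_dvd_pow h2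
    exact (Nat.le_of_dvd (by norm_num) this).trans hz
  · obtain ⟨l, hl, hl'⟩ := (hp.prime.dvd_finsetProd_iff _).1 h
    have := hp.dvd_of_dvd_pow hl'
    rw [mem_filter, mem_Icc] at hl
    exact (Nat.le_of_dvd (by omega) this).trans hl.1.2

lemma rhoB_ne (J : ℕ) (B : ℕ → Finset ℕ) (b : ℕ → ℕ) (d : ℕ) (h : rhoB J B b d ≠ 0) :
    Squarefree d ∧ ∀ p ∈ d.primeFactors, ∃ j < J, p ∈ B j := by
  unfold rhoB at h
  by_contra hc
  apply h
  rw [if_neg]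
  intro h'
  exact hc ⟨h'.1, h'.2.1⟩

lemma rhoB_abs (J : ℕ) (B : ℕ → Finset ℕ) (b : ℕ → ℕ) (d : ℕ) : |rhoB J B b d| ≤ 1 := by
  unfold rhoB
  split_ifs
  · rw [abs_pow]; simp
  · simp

lemma rhoB_one (J : ℕ) (B : ℕ → Finset ℕ) (b : ℕ → ℕ) : rhoB J B b 1 = 1 := by
  unfold rhoB
  rw [if_pos]
  · simp
  · simp

lemma mem_blk {z : ℕ} {a : ℝ} {X : ℕ} {δ : ℝ} {j p : ℕ} (h : p ∈ blk z a X δ j) :
    ⌊(X : ℝ) ^ (δ / 8 / 2 ^ (j + 1))⌋₊ < p ∧ p ≤ ⌊(X : ℝ) ^ (δ / 8 / 2 ^ j)⌋₊ ∧ p.Prime ∧ z < p ∧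
      p ∉ PA a X := by
  unfold blk at h
  rw [mem_filter, mem_Ioc] at h
  exact ⟨h.1.1, h.1.2, h.2⟩

lemma pow_mono {X : ℕ} (hX : 1 ≤ X) {δ : ℝ} (hδ : 0 < δ) {i j : ℕ} (h : i ≤ j) :
    (X : ℝ) ^ (δ / 8 / 2 ^ j) ≤ (X : ℝ) ^ (δ / 8 / 2 ^ i) := by
  apply Real.rpow_le_rpow_of_exponent_le (by exact_mod_cast hX)
  apply div_le_div_of_nonneg_left (by positivity) (by positivity)
  exact pow_le_pow_right₀ (by norm_num) h

lemma disj_lt {z : ℕ} {a : ℝ} {X : ℕ} {δ : ℝ} (hX : 1 ≤ X) (hδ : 0 < δ) {i j : ℕ} (h : i < j) :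
    Disjoint (blk z a X δ i) (blk z a X δ j) := by
  rw [Finset.disjoint_left]
  intro p hp hp'
  have h1 := (mem_blk hp).1
  have h2 := (mem_blk hp').2.1
  have h3 : ⌊(X : ℝ) ^ (δ / 8 / 2 ^ j)⌋₊ ≤ ⌊(X : ℝ) ^ (δ / 8 / 2 ^ (i + 1))⌋₊ :=
    Nat.floor_le_floor (pow_mono hX hδ (Nat.succ_le_of_lt h))
  omega

lemma disj {z : ℕ} {a : ℝ} {X : ℕ} {δ : ℝ} (hX : 1 ≤ X) (hδ : 0 < δ) {i j : ℕ} (h : i ≠ j) :
    Disjoint (blk z a X δ i) (blk z a X δ j) := by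
  rcases lt_or_gt_of_ne h with h | h
  · exact disj_lt hX hδ h
  · exact (disj_lt hX hδ h).symm

lemma sqrt_eq {X : ℕ} (δ : ℝ) (j : ℕ) :
    √((X : ℝ) ^ (δ / 8 / 2 ^ j)) = (X : ℝ) ^ (δ / 8 / 2 ^ (j + 1)) := by
  rw [Real.sqrt_eq_rpow, ← Real.rpow_mul (by positivity)]
  congr 1
  rw [pow_succ]
  field_simp

end BHh

open BHh in
theorem T2_BH : P2_BF → P2_HB → P2_HD → P2_CH → P2_BHa → P2_BHc → P2_BH := by
  intro hBF hHB hHD hCH hBHa hBHc δ hδ hδ1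
  obtain ⟨L, hL, hL1, -, -⟩ := hCH
  obtain ⟨C1, hC1, hc⟩ := hBHc δ hδ hδ1
  refine ⟨C1 + ⌈Real.exp (3 * L)⌉₊, by omega, fun z hz a ha => ?_⟩
  obtain ⟨X1, hX1⟩ := hc z hz a ha
  refine ⟨max X1 3, fun X hX => ?_⟩
  have hX3 : 3 ≤ X := (le_max_right _ _).trans hX
  have hX1' : 1 ≤ X := by omega
  obtain ⟨hlow, hup⟩ := hX1 X ((le_max_left _ _).trans hX)
  have hlog : 1 ≤ Real.log X := by
    have h1 : Real.log 3 ≤ Real.log X :=
      Real.log_le_log (by norm_num) (by exact_mod_cast hX3)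
    have h2 : (1 : ℝ) ≤ Real.log 3 := by
      rw [Real.le_log_iff_exp_le (by norm_num)]
      have := Real.exp_one_lt_d9
      linarith
    linarith
  have hprime : ∀ j < X, ∀ p ∈ blk z a X δ j, p.Prime := fun j _ p hp => (mem_blk hp).2.2.1
  have hdisj : ∀ i < X, ∀ j < X, i ≠ j → Disjoint (blk z a X δ i) (blk z a X δ j) :=
    fun i _ j _ h => disj hX1' hδ h
  have hsupp : ∀ d, rhoB X (blk z a X δ) (fun j => j + 1) d ≠ 0 → d ≤ X := by
    intro d hd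
    have h1 := hBHa z a X δ d hz hX1' hδ hd
    have h2 : (X : ℝ) ^ δ ≤ (X : ℝ) ^ (1 : ℝ) :=
      Real.rpow_le_rpow_of_exponent_le (by exact_mod_cast hX1') hδ1
    rw [Real.rpow_one] at h2
    exact_mod_cast h1.trans h2
  refine ⟨rhoX z a X δ, ⟨?_, ?_, ?_, ?_, ?_⟩, ?_, ?_⟩
  · intro d hd
    have h1 := rhoB_ne _ _ _ _ hd
    have hd0 : d ≠ 0 := h1.1.ne_zero
    refine ⟨Nat.one_le_iff_ne_zero.2 hd0, hBHa z a X δ d hz hX1' hδ hd, h1.1, ?_, ?_⟩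
    · by_contra hcop
      obtain ⟨p, hp, hpd, hpQ⟩ := Nat.Prime.not_coprime_iff_dvd.1 hcop
      obtain ⟨j, _, hj⟩ := h1.2 p (Nat.mem_primeFactors.2 ⟨hp, hpd, hd0⟩)
      have h3 := (mem_blk hj).2.2.2.1
      have h4 := prime_dvd_Qz z p hz hp hpQ
      omega
    · intro p hp hpd
      have hpp : p.Prime := by
        unfold PA PP at hp
        exact (mem_filter.1 hp).2
      obtain ⟨j, _, hj⟩ := h1.2 p (Nat.mem_primeFactors.2 ⟨hpp, hpd, hd0⟩)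
      exact (mem_blk hj).2.2.2.2 hp
  · intro d
    exact rhoB_abs _ _ _ _
  · refine le_trans ?_ hlow
    apply inv_anti₀ (by positivity)
    exact pow_le_pow_right₀ hlog (by omega)
  · intro g hg
    refine hHD X X (blk z a X δ) (fun j => j + 1) L _ hL.le hprime hdisj hsupp ?_ ?_ g hg
    · intro j _
      have h1 : (1 : ℝ) ≤ (X : ℝ) ^ (δ / 8 / 2 ^ j) :=
        Real.one_le_rpow (by exact_mod_cast hX1') (by positivity)
      refine le_trans ?_ (hL1 _ h1)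
      rw [sqrt_eq]
      apply Finset.sum_le_sum_of_subset_of_nonneg
      · intro p hp
        have := mem_blk hp
        rw [mem_filter, mem_Ioc]
        exact ⟨⟨this.1, this.2.1⟩, this.2.2.1⟩
      · intro p _ _
        positivity
    · push_cast
      have h1 := Nat.le_ceil (Real.exp (3 * L))
      have h2 : (0 : ℝ) ≤ C1 := by positivity
      linarith
  · intro x hx
    have h1 := hHB X X (blk z a X δ) (fun j => j + 1) x hprime hdisj hsupp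
    have h2 : 0 ≤ ∏ j ∈ Finset.range X, ∑ A ∈ (blk z a X δ j).powerset.filter
        (fun A => A.card ≤ 2 * (j + 1)), (-1 : ℝ) ^ A.card * ∏ p ∈ A, x p := by
      apply Finset.prod_nonneg
      intro j _
      refine le_trans ?_ (hBF (blk z a X δ j) x (j + 1) (fun p _ => hx p)).1
      apply Finset.prod_nonneg
      intro p _
      linarith [(hx p).2]
    rw [← h1] at h2
    exact h2
  · exact rhoB_one _ _ _
  · refine hup.trans ?_
    apply div_le_div_of_nonneg_right _ (by linarith)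
    push_cast
    have h2 : (0 : ℝ) ≤ (⌈Real.exp (3 * L)⌉₊ : ℝ) := by positivity
    linarith

end Pool.Agent.H38R2.CG2
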