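import Pool.Agent.H52.V.S8.H38R2.CG2.Stubs

set_option autoImplicit false

namespace Pool.Agent.H38R2.CG2

open Finset Filter NumberField Pool.Agent.H38R2.CG
open scoped Classical

namespace BHch

theorem one_sub_ge_exp {u : ℝ} (h0 : 0 ≤ u) (h1 : u ≤ 1 / 2) :
    Real.exp (-(2 * u)) ≤ 1 - u := by
  have h2 : 1 + 2 * u ≤ Real.exp (2 * u) := by linarith [Real.add_one_le_exp (2 * u)]
  have h3 : 1 ≤ (1 - u) * (1 + 2 * u) := by nlinarith
  have h4 : Real.exp (-(2 * u)) * Real.exp (2 * u) = 1 := by rw [← Real.exp_add]; simp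
  have h5 : 1 ≤ (1 - u) * Real.exp (2 * u) :=
    le_trans h3 (mul_le_mul_of_nonneg_left h2 (by linarith))
  calc Real.exp (-(2 * u)) = Real.exp (-(2 * u)) * 1 := by ring
    _ ≤ Real.exp (-(2 * u)) * ((1 - u) * Real.exp (2 * u)) :=
        mul_le_mul_of_nonneg_left h5 (Real.exp_pos _).le
    _ = (1 - u) * (Real.exp (-(2 * u)) * Real.exp (2 * u)) := by ring
    _ = 1 - u := by rw [h4]; ring

theorem inv_le_half {p : ℕ} (hp : p.Prime) : (0 : ℝ) ≤ 1 / p ∧ (1 : ℝ) / p ≤ 1 / 2 := by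
  have h2 : (2 : ℝ) ≤ p := by exact_mod_cast hp.two_le
  refine ⟨by positivity, ?_⟩
  rw [div_le_div_iff₀ (by linarith) (by norm_num)]
  linarith

theorem prod_ge (s : Finset ℕ) (hs : ∀ p ∈ s, p.Prime) :
    Real.exp (-(2 * ∑ p ∈ s, (1 : ℝ) / p)) ≤ ∏ p ∈ s, (1 - (1 : ℝ) / p) := by
  rw [Finset.mul_sum, ← Finset.sum_neg_distrib, Real.exp_sum]
  apply Finset.prod_le_prod (fun p _ => (Real.exp_pos _).le)
  intro p hp
  obtain ⟨h1, h2⟩ := inv_le_half (hs p hp)
  exact one_sub_ge_exp h1 h2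

theorem prod_ge' (s : Finset ℕ) (hs : ∀ p ∈ s, p.Prime) (L : ℝ) (hL : ∑ p ∈ s, (1 : ℝ) / p ≤ L) :
    Real.exp (-(2 * L)) ≤ ∏ p ∈ s, (1 - (1 : ℝ) / p) := by
  refine le_trans (Real.exp_le_exp.mpr ?_) (prod_ge s hs)
  linarith

theorem prod_pos' (s : Finset ℕ) (hs : ∀ p ∈ s, p.Prime) :
    0 < ∏ p ∈ s, (1 - (1 : ℝ) / p) := lt_of_lt_of_le (Real.exp_pos _) (prod_ge s hs)

theorem prod_le_one' (s : Finset ℕ) (hs : ∀ p ∈ s, p.Prime) :
    ∏ p ∈ s, (1 - (1 : ℝ) / p) ≤ 1 := by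
  apply Finset.prod_le_one
  · intro p hp
    have := inv_le_half (hs p hp)
    linarith [this.2]
  · intro p hp
    have := inv_le_half (hs p hp)
    linarith [this.1]

theorem prod_anti (s t : Finset ℕ) (hst : s ⊆ t) (ht : ∀ p ∈ t, p.Prime) :
    ∏ p ∈ t, (1 - (1 : ℝ) / p) ≤ ∏ p ∈ s, (1 - (1 : ℝ) / p) := by
  rw [← Finset.prod_sdiff hst]
  have h1 := prod_le_one' (t \ s) (fun p hp => ht p (Finset.mem_sdiff.mp hp).1)
  have h2 := prod_pos' s (fun p hp => ht p (hst hp))
  nlinarith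

theorem mem_blk {z X j p : ℕ} {a δ : ℝ} : p ∈ blk z a X δ j ↔
    (⌊(X : ℝ) ^ (δ / 8 / 2 ^ (j + 1))⌋₊ < p ∧ p ≤ ⌊(X : ℝ) ^ (δ / 8 / 2 ^ j)⌋₊) ∧
      p.Prime ∧ z < p ∧ p ∉ PA a X := by
  simp [blk]

theorem floor_anti {X : ℕ} (hX : 1 ≤ X) {δ : ℝ} (hδ : 0 < δ) {i j : ℕ} (hij : i ≤ j) :
    ⌊(X : ℝ) ^ (δ / 8 / 2 ^ j)⌋₊ ≤ ⌊(X : ℝ) ^ (δ / 8 / 2 ^ i)⌋₊ := by
  apply Nat.floor_le_floor
  apply Real.rpow_le_rpow_of_exponent_le (by exact_mod_cast hX)
  apply div_le_div_of_nonneg_left (by positivity) (by positivity)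
  exact pow_le_pow_right₀ (by norm_num) hij

theorem blk_disj {z X : ℕ} {a δ : ℝ} (hX : 1 ≤ X) (hδ : 0 < δ) (i j : ℕ) (hij : i ≠ j) :
    Disjoint (blk z a X δ i) (blk z a X δ j) := by
  wlog h : i < j generalizing i j
  · exact (this j i hij.symm (lt_of_le_of_ne (not_lt.mp h) hij.symm)).symm
  rw [Finset.disjoint_left]
  intro p hp hq
  rw [mem_blk] at hp hq
  have := floor_anti hX hδ (show i + 1 ≤ j from h)
  omega

theorem blk_sum {z X : ℕ} {a δ L : ℝ} (hX : 1 ≤ X) (hδ : 0 < δ)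
    (hL : ∀ x : ℝ, 1 ≤ x →
      ∑ p ∈ (Finset.Ioc ⌊√x⌋₊ ⌊x⌋₊).filter Nat.Prime, (1 : ℝ) / p ≤ L) (j : ℕ) :
    ∑ p ∈ blk z a X δ j, (1 : ℝ) / p ≤ L := by
  have hX0 : (0 : ℝ) ≤ X := by positivity
  have hX1 : (1 : ℝ) ≤ X := by exact_mod_cast hX
  have h1 : (1 : ℝ) ≤ (X : ℝ) ^ (δ / 8 / 2 ^ j) := Real.one_le_rpow hX1 (by positivity)
  have h2 := hL _ h1
  refine le_trans ?_ h2
  apply Finset.sum_le_sum_of_subset_of_nonneg
  · intro p hp
    rw [mem_blk] at hp
    rw [Finset.mem_filter, Finset.mem_Ioc]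
    have e : √((X : ℝ) ^ (δ / 8 / 2 ^ j)) = (X : ℝ) ^ (δ / 8 / 2 ^ (j + 1)) := by
      rw [Real.sqrt_eq_rpow, ← Real.rpow_mul hX0]
      congr 1
      rw [pow_succ]
      field_simp
    rw [e]
    exact ⟨hp.1, hp.2.1⟩
  · intro p _ _
    positivity

theorem blk_prime {z X j p : ℕ} {a δ : ℝ} (hp : p ∈ blk z a X δ j) : p.Prime := by
  rw [mem_blk] at hp
  exact hp.2.1

theorem sum_fact (L : ℝ) (hL : 0 ≤ L) (X : ℕ) :
    ∑ j ∈ Finset.range X, L ^ (2 * (j + 1) + 1) / ((2 * (j + 1) + 1).factorial : ℝ) ≤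
      Real.exp L := by
  have h1 : ∑ j ∈ Finset.range X, L ^ (2 * (j + 1) + 1) / ((2 * (j + 1) + 1).factorial : ℝ) =
      ∑ i ∈ (Finset.range X).image (fun j => 2 * (j + 1) + 1), L ^ i / (i.factorial : ℝ) := by
    rw [Finset.sum_image]
    intro a _ b _ hab
    simp only at hab
    omega
  rw [h1]
  refine le_trans ?_ (Real.sum_le_exp_of_nonneg hL (2 * X + 3))
  apply Finset.sum_le_sum_of_subset_of_nonneg
  · intro i hi
    rw [Finset.mem_image] at hi
    obtain ⟨j, hj, rfl⟩ := hi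
    rw [Finset.mem_range] at hj ⊢
    omega
  · intro i _ _
    positivity

theorem GG_eq {z X : ℕ} {a δ : ℝ} : GG X (rhoX z a X δ) =
    ∑ d ∈ Finset.Icc 1 X, rhoB X (blk z a X δ) (fun j => j + 1) d *
      ∏ p ∈ d.primeFactors, ((fun p : ℕ => (1 : ℝ) / p) p) := by
  unfold GG rhoX
  apply Finset.sum_congr rfl
  intro d hd
  by_cases h : Squarefree d
  · have e : ∏ p ∈ d.primeFactors, ((1 : ℝ) / p) = 1 / d := by
      rw [Finset.prod_div_distrib, Finset.prod_const_one]
      congr 1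
      rw [← Nat.cast_prod, Nat.prod_primeFactors_of_squarefree h]
    simp only
    rw [e]; ring
  · have e : rhoB X (blk z a X δ) (fun j => j + 1) d = 0 := by
      unfold rhoB
      rw [if_neg]
      tauto
    rw [e]; simp

theorem supp_le (hBHa : P2_BHa) {z X : ℕ} {a δ : ℝ} (hz : 2 ≤ z) (hX : 1 ≤ X) (hδ : 0 < δ)
    (hδ1 : δ ≤ 1) (d : ℕ) (hd : rhoB X (blk z a X δ) (fun j => j + 1) d ≠ 0) : d ≤ X := by
  have h1 := hBHa z a X δ d hz hX hδ hd
  have hX1 : (1 : ℝ) ≤ X := by exact_mod_cast hX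
  have h2 : (X : ℝ) ^ δ ≤ X := by
    calc (X : ℝ) ^ δ ≤ (X : ℝ) ^ (1 : ℝ) := Real.rpow_le_rpow_of_exponent_le hX1 hδ1
      _ = X := Real.rpow_one _
  exact_mod_cast le_trans h1 h2

theorem nonempty_bd {z X : ℕ} {a δ : ℝ} (hX : 3 ≤ X) (hδ : 0 < δ) (hδ1 : δ ≤ 1) (j : ℕ)
    (hj : (blk z a X δ j).Nonempty) : (2 : ℝ) ^ j ≤ Real.log X := by
  obtain ⟨p, hp⟩ := hj
  rw [mem_blk] at hp
  have hX0 : (0 : ℝ) < X := by positivity
  have h2 : 2 ≤ p := hp.2.1.two_le
  have h3 : (2 : ℝ) ≤ (X : ℝ) ^ (δ / 8 / 2 ^ j) := by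
    calc (2 : ℝ) ≤ p := by exact_mod_cast h2
      _ ≤ (⌊(X : ℝ) ^ (δ / 8 / 2 ^ j)⌋₊ : ℝ) := by exact_mod_cast hp.1.2
      _ ≤ _ := Nat.floor_le (by positivity)
  have h4 := Real.log_le_log (by norm_num) h3
  rw [Real.log_rpow hX0] at h4
  have h5 : (0.5 : ℝ) < Real.log 2 := by linarith [Real.log_two_gt_d9]
  have hlog : 0 < Real.log X := Real.log_pos (by exact_mod_cast (by omega : 1 < X))
  have h2j : (0 : ℝ) < 2 ^ j := by positivity
  have h6 : δ / 8 / 2 ^ j * Real.log X = (δ / 8 * Real.log X) / 2 ^ j := by ring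
  rw [h6, le_div_iff₀ h2j] at h4
  nlinarith

theorem cover {z X p : ℕ} {a δ : ℝ} (hX : 3 ≤ X) (hδ : 0 < δ) (hδ1 : δ ≤ 1) (hp : p.Prime)
    (hpz : z < p) (hpA : p ∉ PA a X) (hpN : p ≤ ⌊(X : ℝ) ^ (δ / 8)⌋₊) :
    ∃ j < X, p ∈ blk z a X δ j := by
  have hX0 : (0 : ℝ) < X := by positivity
  have hex : ∃ m : ℕ, ⌊(X : ℝ) ^ (δ / 8 / 2 ^ m)⌋₊ < p := ⟨X, by
    refine lt_of_lt_of_le ?_ hp.two_le
    rw [Nat.floor_lt (by positivity)]
    have h1 : (2 : ℝ) = Real.exp (Real.log 2) := (Real.exp_log (by norm_num)).symm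
    push_cast
    rw [Real.rpow_def_of_pos hX0]
    conv_rhs => rw [h1]
    apply Real.exp_lt_exp.mpr
    have h2 : Real.log X ≤ X := by
      have := Real.log_le_sub_one_of_pos hX0
      linarith
    have h3 : (X : ℝ) < 2 ^ X := by exact_mod_cast Nat.lt_two_pow_self
    have h5 : (0.5 : ℝ) < Real.log 2 := by linarith [Real.log_two_gt_d9]
    have h2j : (0 : ℝ) < 2 ^ X := by positivity
    have h6 : Real.log X * (δ / 8 / 2 ^ X) = (Real.log X * (δ / 8)) / 2 ^ X := by ring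
    rw [h6, div_lt_iff₀ h2j]
    have hlog : 0 < Real.log X := Real.log_pos (by exact_mod_cast (by omega : 1 < X))
    nlinarith⟩
  have hfind := Nat.find_spec hex
  have hmin : ∀ m < Nat.find hex, ¬ ⌊(X : ℝ) ^ (δ / 8 / 2 ^ m)⌋₊ < p :=
    fun m hm => Nat.find_min hex hm
  have hle : Nat.find hex ≤ X := by
    by_contra hcon
    have := hmin X (by omega)
    apply this
    refine lt_of_lt_of_le ?_ hp.two_le
    rw [Nat.floor_lt (by positivity)]
    have h1 : (2 : ℝ) = Real.exp (Real.log 2) := (Real.exp_log (by norm_num)).symm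
    push_cast
    rw [Real.rpow_def_of_pos hX0]
    conv_rhs => rw [h1]
    apply Real.exp_lt_exp.mpr
    have h2 : Real.log X ≤ X := by
      have := Real.log_le_sub_one_of_pos hX0
      linarith
    have h3 : (X : ℝ) < 2 ^ X := by exact_mod_cast Nat.lt_two_pow_self
    have h5 : (0.5 : ℝ) < Real.log 2 := by linarith [Real.log_two_gt_d9]
    have h2j : (0 : ℝ) < 2 ^ X := by positivity
    have h6 : Real.log X * (δ / 8 / 2 ^ X) = (Real.log X * (δ / 8)) / 2 ^ X := by ring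
    rw [h6, div_lt_iff₀ h2j]
    have hlog : 0 < Real.log X := Real.log_pos (by exact_mod_cast (by omega : 1 < X))
    nlinarith
  have h0 : Nat.find hex ≠ 0 := by
    intro h0
    rw [h0] at hfind
    simp at hfind
    omega
  obtain ⟨j, hj⟩ := Nat.exists_eq_succ_of_ne_zero h0
  refine ⟨j, by omega, ?_⟩
  rw [mem_blk]
  refine ⟨⟨?_, ?_⟩, hp, hpz, hpA⟩
  · rw [hj] at hfind
    exact hfind
  · exact not_lt.mp (hmin j (by omega))

end BHch

open BHch

theorem T2_BHc : P2_BF → P2_HB → P2_CH → P2_MP → P2_BHa → P2_BHc := by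
  intro hBF hHB hCH hMP hBHa δ hδ hδ1
  obtain ⟨L, hL0, hL1, hL2, -⟩ := hCH
  obtain ⟨K, hK⟩ := pow_unbounded_of_one_lt (Real.exp (2 * L)) (by norm_num : (1 : ℝ) < 2)
  set E : ℝ := Real.exp (2 * L) with hE
  set CC : ℝ := Real.exp (E * Real.exp L) * (2 * E) * (16 / δ) with hCC
  have hCCpos : 0 < CC := by positivity
  refine ⟨2 * K + ⌈CC⌉₊ + 1, by omega, ?_⟩
  intro z hz a ha
  have htend : Tendsto (fun X : ℕ => (X : ℝ) ^ (δ / 16)) atTop atTop :=
    (tendsto_rpow_atTop (by positivity)).comp tendsto_natCast_atTop_atTop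
  have hev := (htend.eventually_ge_atTop (max 2 (z + 1 : ℝ))).and (eventually_ge_atTop 8)
  obtain ⟨X0, hX0⟩ := Filter.eventually_atTop.mp hev
  refine ⟨X0, ?_⟩
  intro X hX
  obtain ⟨hXa, hX8⟩ := hX0 X hX
  have hX1 : 1 ≤ X := by omega
  have hX3 : 3 ≤ X := by omega
  have hXpos : (0 : ℝ) < X := by positivity
  have hlog2 : 2 ≤ Real.log X := by
    have h1 : Real.log 8 ≤ Real.log X := Real.log_le_log (by norm_num) (by exact_mod_cast hX8)
    have h2 : Real.log 8 = 3 * Real.log 2 := by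
      rw [show (8 : ℝ) = 2 ^ (3 : ℕ) by norm_num, Real.log_pow]; norm_num
    linarith [Real.log_two_gt_d9]
  -- the product formula
  set V : ℕ → ℝ := fun j => ∏ p ∈ blk z a X δ j, (1 - (1 : ℝ) / p) with hV
  set T : ℕ → ℝ := fun j => ∑ A ∈ (blk z a X δ j).powerset.filter
    (fun A => A.card ≤ 2 * (j + 1)), (-1 : ℝ) ^ A.card * ∏ p ∈ A, ((1 : ℝ) / p) with hT
  have hGG : GG X (rhoX z a X δ) = ∏ j ∈ Finset.range X, T j := by
    rw [GG_eq]
    exact hHB X X (blk z a X δ) (fun j => j + 1) (fun p => (1 : ℝ) / p)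
      (fun j _ p hp => blk_prime hp) (fun i _ j _ hij => blk_disj hX1 hδ i j hij)
      (supp_le hBHa hz hX1 hδ hδ1)
  have hS : ∀ j, ∑ p ∈ blk z a X δ j, (1 : ℝ) / p ≤ L := fun j => blk_sum hX1 hδ hL1 j
  have hS0 : ∀ j, 0 ≤ ∑ p ∈ blk z a X δ j, (1 : ℝ) / p :=
    fun j => Finset.sum_nonneg (fun p _ => by positivity)
  have hVT : ∀ j, V j ≤ T j ∧ T j ≤ V j + (∑ p ∈ blk z a X δ j, (1 : ℝ) / p) ^
      (2 * (j + 1) + 1) / ((2 * (j + 1) + 1).factorial : ℝ) := by
    intro j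
    have := hBF (blk z a X δ j) (fun p => (1 : ℝ) / p) (j + 1) (fun p hp => by
      have := inv_le_half (blk_prime hp)
      exact ⟨this.1, by linarith [this.2]⟩)
    exact this
  have hVge : ∀ j, Real.exp (-(2 * L)) ≤ V j :=
    fun j => prod_ge' _ (fun p hp => blk_prime hp) L (hS j)
  have hVpos : ∀ j, 0 < V j := fun j => lt_of_lt_of_le (Real.exp_pos _) (hVge j)
  constructor
  · -- lower bound
    rw [hGG]
    set M : ℕ := ⌊Real.log X⌋₊ with hM
    set n : ℕ := Nat.log 2 M with hn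
    have hM2 : 2 ≤ M := Nat.le_floor (by exact_mod_cast hlog2)
    have hMn : 2 ^ n ≤ M := Nat.pow_log_le_self 2 (by omega)
    have hMlog : (M : ℝ) ≤ Real.log X := Nat.floor_le (by linarith)
    have h1 : ∏ j ∈ Finset.range X, (if (blk z a X δ j).Nonempty then Real.exp (-(2 * L)) else 1)
        ≤ ∏ j ∈ Finset.range X, T j := by
      apply Finset.prod_le_prod
      · intro j _
        split_ifs
        · exact (Real.exp_pos _).le
        · norm_num
      · intro j _
        refine le_trans ?_ (hVT j).1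
        split_ifs with hne
        · exact hVge j
        · rw [Finset.not_nonempty_iff_eq_empty] at hne
          simp only [hV, hne, Finset.prod_empty, le_refl]
    refine le_trans ?_ h1
    rw [← Finset.prod_filter, Finset.prod_const]
    have hcard : ((Finset.range X).filter (fun j => (blk z a X δ j).Nonempty)).card ≤ n + 1 := by
      have hsub : (Finset.range X).filter (fun j => (blk z a X δ j).Nonempty) ⊆
          Finset.range (n + 1) := by
        intro j hj
        rw [Finset.mem_filter] at hj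
        have h2 := nonempty_bd hX3 hδ hδ1 j hj.2
        have h3 : 2 ^ j ≤ M := Nat.le_floor (by push_cast; exact h2)
        rw [Finset.mem_range]
        have := Nat.le_log_of_pow_le (by norm_num : 1 < 2) h3
        omega
      calc _ ≤ (Finset.range (n + 1)).card := Finset.card_le_card hsub
        _ = n + 1 := Finset.card_range _
    have hexp1 : Real.exp (-(2 * L)) ≤ 1 := by
      rw [Real.exp_le_one_iff]; linarith
    have h4 : Real.exp (-(2 * L)) ^ (n + 1) ≤ Real.exp (-(2 * L)) ^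
        ((Finset.range X).filter (fun j => (blk z a X δ j).Nonempty)).card :=
      pow_le_pow_of_le_one (Real.exp_pos _).le hexp1 hcard
    refine le_trans ?_ h4
    rw [Real.exp_neg, inv_pow]
    apply inv_anti₀ (by positivity)
    have h5 : (2 : ℝ) ^ (n + 1) ≤ (Real.log X) ^ 2 := by
      have : (2 : ℝ) ^ n ≤ Real.log X := le_trans (by exact_mod_cast hMn) hMlog
      rw [pow_succ, sq]
      nlinarith
    calc Real.exp (2 * L) ^ (n + 1) ≤ (2 ^ K) ^ (n + 1) :=
          pow_le_pow_left₀ (Real.exp_pos _).le hK.le _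
      _ = (2 ^ (n + 1)) ^ K := by rw [← pow_mul, ← pow_mul, mul_comm]
      _ ≤ ((Real.log X) ^ 2) ^ K := pow_le_pow_left₀ (by positivity) h5 _
      _ = (Real.log X) ^ (2 * K) := by rw [← pow_mul]
      _ ≤ (Real.log X) ^ (2 * K + ⌈CC⌉₊ + 1) :=
          pow_le_pow_right₀ (by linarith) (by omega)
  · -- upper bound
    rw [hGG]
    have hTV : ∀ j, T j ≤ V j * Real.exp (E * (L ^ (2 * (j + 1) + 1) /
        ((2 * (j + 1) + 1).factorial : ℝ))) := by
      intro j
      have h1 := (hVT j).2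
      have h2 : (∑ p ∈ blk z a X δ j, (1 : ℝ) / p) ^ (2 * (j + 1) + 1) ≤
          L ^ (2 * (j + 1) + 1) := pow_le_pow_left₀ (hS0 j) (hS j) _
      have h3 : 1 ≤ V j * E := by
        have : Real.exp (-(2 * L)) * E = 1 := by rw [hE, ← Real.exp_add]; simp
        calc (1 : ℝ) = Real.exp (-(2 * L)) * E := this.symm
          _ ≤ V j * E := mul_le_mul_of_nonneg_right (hVge j) (Real.exp_pos _).le
      set f : ℝ := ((2 * (j + 1) + 1).factorial : ℝ) with hf
      have hfpos : 0 < f := by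
        rw [hf]; exact_mod_cast Nat.factorial_pos _
      set q : ℝ := L ^ (2 * (j + 1) + 1) / f with hq
      have hq0 : 0 ≤ q := by positivity
      have h4 : (∑ p ∈ blk z a X δ j, (1 : ℝ) / p) ^ (2 * (j + 1) + 1) / f ≤ q :=
        div_le_div_of_nonneg_right h2 hfpos.le
      have h5 : q ≤ V j * E * q := le_mul_of_one_le_left hq0 h3
      have h6 := Real.add_one_le_exp (E * q)
      have h7 := mul_le_mul_of_nonneg_left h6 (hVpos j).le
      nlinarith
    have hprod : ∏ j ∈ Finset.range X, T j ≤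
        (∏ j ∈ Finset.range X, V j) * Real.exp (E * Real.exp L) := by
      calc ∏ j ∈ Finset.range X, T j ≤ ∏ j ∈ Finset.range X, (V j * Real.exp
            (E * (L ^ (2 * (j + 1) + 1) / ((2 * (j + 1) + 1).factorial : ℝ)))) :=
            Finset.prod_le_prod (fun j _ => le_trans (hVpos j).le (hVT j).1) (fun j _ => hTV j)
        _ = (∏ j ∈ Finset.range X, V j) * Real.exp (E * ∑ j ∈ Finset.range X,
            L ^ (2 * (j + 1) + 1) / ((2 * (j + 1) + 1).factorial : ℝ)) := by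
            rw [Finset.prod_mul_distrib, Finset.mul_sum, Real.exp_sum]
        _ ≤ _ := by
            apply mul_le_mul_of_nonneg_left _ (Finset.prod_nonneg (fun j _ => (hVpos j).le))
            apply Real.exp_le_exp.mpr
            exact mul_le_mul_of_nonneg_left (sum_fact L hL0.le X) (Real.exp_pos _).le
    -- the product of the V_j
    set N : ℕ := ⌊(X : ℝ) ^ (δ / 8)⌋₊ with hN
    set A : Finset ℕ := (Finset.Icc 2 N).filter Nat.Prime with hA
    set W : Finset ℕ := A.filter (fun p => z < p ∧ p ∉ PA a X) with hW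
    have hU : ∏ j ∈ Finset.range X, V j ≤ ∏ p ∈ W, (1 - (1 : ℝ) / p) := by
      have h1 : ∏ j ∈ Finset.range X, V j =
          ∏ p ∈ (Finset.range X).biUnion (blk z a X δ), (1 - (1 : ℝ) / p) := by
        rw [Finset.prod_biUnion]
        intro i _ j _ hij
        exact blk_disj hX1 hδ i j hij
      rw [h1]
      apply prod_anti
      · intro p hp
        rw [hW, Finset.mem_filter, hA, Finset.mem_filter, Finset.mem_Icc] at hp
        obtain ⟨j, hj, hpj⟩ := cover hX3 hδ hδ1 hp.1.2 hp.2.1 hp.2.2 hp.1.1.2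
        rw [Finset.mem_biUnion]
        exact ⟨j, Finset.mem_range.mpr hj, hpj⟩
      · intro p hp
        rw [Finset.mem_biUnion] at hp
        obtain ⟨j, _, hpj⟩ := hp
        exact blk_prime hpj
    have hw2 : (2 : ℝ) ≤ (X : ℝ) ^ (δ / 16) := le_trans (le_max_left _ _) hXa
    have hwz : (z + 1 : ℝ) ≤ (X : ℝ) ^ (δ / 16) := le_trans (le_max_right _ _) hXa
    have hww : (X : ℝ) ^ (δ / 8) = (X : ℝ) ^ (δ / 16) * (X : ℝ) ^ (δ / 16) := by
      rw [← Real.rpow_add hXpos]; congr 1; ring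
    have hNw : (X : ℝ) ^ (δ / 16) ≤ N := by
      have h1 : (X : ℝ) ^ (δ / 8) < N + 1 := Nat.lt_floor_add_one _
      rw [hww] at h1
      nlinarith
    have hN2 : 2 ≤ N := by exact_mod_cast le_trans hw2 hNw
    have hNz : z ≤ N := by
      have : (z : ℝ) ≤ N := by linarith
      exact_mod_cast this
    have hNlog : δ / 16 * Real.log X ≤ Real.log N := by
      rw [← Real.log_rpow hXpos]
      exact Real.log_le_log (by positivity) hNw
    have hAprod : ∏ p ∈ A, (1 - (1 : ℝ) / p) ≤ 1 / Real.log N := hMP N hN2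
    set Z : ℝ := ∏ q ∈ (Finset.Icc 3 z).filter Nat.Prime, (1 - (1 : ℝ) / q) with hZ
    have hZpos : 0 < Z := prod_pos' _ (fun p hp => (Finset.mem_filter.mp hp).2)
    have hsplit : ∏ p ∈ A, (1 - (1 : ℝ) / p) = (1 / 2 * Z) *
        ((∏ p ∈ W, (1 - (1 : ℝ) / p)) *
          ∏ p ∈ A.filter (fun p => z < p ∧ p ∈ PA a X), (1 - (1 : ℝ) / p)) := by
      rw [← Finset.prod_filter_mul_prod_filter_not A (fun p => p ≤ z)]
      congr 1
      · have : A.filter (fun p => p ≤ z) = insert 2 ((Finset.Icc 3 z).filter Nat.Prime) := by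
          ext p
          simp only [hA, Finset.mem_filter, Finset.mem_Icc, Finset.mem_insert]
          constructor
          · rintro ⟨⟨⟨h1, h2⟩, h3⟩, h4⟩
            rcases Nat.lt_or_ge 2 p with h5 | h5
            · exact Or.inr ⟨⟨h5, h4⟩, h3⟩
            · left; omega
          · rintro (rfl | ⟨⟨h1, h2⟩, h3⟩)
            · exact ⟨⟨⟨le_refl _, hN2⟩, Nat.prime_two⟩, hz⟩
            · exact ⟨⟨⟨by omega, by omega⟩, h3⟩, h2⟩
        rw [this, Finset.prod_insert (by simp), ← hZ]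
        congr 1
        norm_num
      · rw [← Finset.prod_filter_mul_prod_filter_not (A.filter (fun p => ¬ p ≤ z))
          (fun p => p ∉ PA a X)]
        congr 1
        · apply Finset.prod_congr _ (fun _ _ => rfl)
          ext p
          simp only [hW, Finset.mem_filter, not_le]
          tauto
        · apply Finset.prod_congr _ (fun _ _ => rfl)
          ext p
          simp only [Finset.mem_filter, not_le, not_not]
          tauto
    have hPA : Real.exp (-(2 * L)) ≤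
        ∏ p ∈ A.filter (fun p => z < p ∧ p ∈ PA a X), (1 - (1 : ℝ) / p) := by
      apply prod_ge'
      · intro p hp
        rw [Finset.mem_filter, hA, Finset.mem_filter] at hp
        exact hp.1.2
      · refine le_trans ?_ (hL2 (yA a X))
        apply Finset.sum_le_sum_of_subset_of_nonneg
        · intro p hp
          rw [Finset.mem_filter] at hp
          exact hp.2.2
        · intro p _ _
          positivity
    have hWpos : 0 < ∏ p ∈ W, (1 - (1 : ℝ) / p) := prod_pos' _ (fun p hp => by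
      rw [hW, Finset.mem_filter, hA, Finset.mem_filter] at hp
      exact hp.1.2)
    set PW : ℝ := ∏ p ∈ W, (1 - (1 : ℝ) / p) with hPW
    have hlogN : 0 < Real.log N := Real.log_pos (by exact_mod_cast (by omega : 1 < N))
    have hfin1 : PW * Z ≤ 2 * E * (1 / Real.log N) := by
      have h1 : 1 / 2 * Z * (PW * Real.exp (-(2 * L))) ≤ 1 / Real.log N := by
        refine le_trans ?_ hAprod
        rw [hsplit]
        apply mul_le_mul_of_nonneg_left _ (by positivity)
        exact mul_le_mul_of_nonneg_left hPA hWpos.le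
      have h2 : Real.exp (-(2 * L)) * E = 1 := by rw [hE, ← Real.exp_add]; simp
      have hEpos : 0 < E := Real.exp_pos _
      calc PW * Z = 2 * E * (1 / 2 * Z * (PW * Real.exp (-(2 * L)))) := by
            have : 2 * E * (1 / 2 * Z * (PW * Real.exp (-(2 * L)))) =
              PW * Z * (Real.exp (-(2 * L)) * E) := by ring
            rw [this, h2, mul_one]
        _ ≤ 2 * E * (1 / Real.log N) := mul_le_mul_of_nonneg_left h1 (by positivity)
    have hfin2 : 1 / Real.log N ≤ (16 / δ) / Real.log X := by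
      rw [div_div, div_le_div_iff₀ hlogN (by positivity)]
      have : δ * Real.log X = 16 * (δ / 16 * Real.log X) := by ring
      rw [one_mul, this]
      linarith
    have hCCle : CC ≤ ((2 * K + ⌈CC⌉₊ + 1 : ℕ) : ℝ) := by
      push_cast
      have := Nat.le_ceil CC
      have hK0 : (0 : ℝ) ≤ K := by positivity
      linarith
    calc (∏ j ∈ Finset.range X, T j) * Z
        ≤ ((∏ j ∈ Finset.range X, V j) * Real.exp (E * Real.exp L)) * Z :=
          mul_le_mul_of_nonneg_right hprod hZpos.le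
      _ ≤ (PW * Real.exp (E * Real.exp L)) * Z :=
          mul_le_mul_of_nonneg_right
            (mul_le_mul_of_nonneg_right hU (Real.exp_pos _).le) hZpos.le
      _ = Real.exp (E * Real.exp L) * (PW * Z) := by ring
      _ ≤ Real.exp (E * Real.exp L) * (2 * E * ((16 / δ) / Real.log X)) := by
          apply mul_le_mul_of_nonneg_left _ (Real.exp_pos _).le
          refine le_trans hfin1 (mul_le_mul_of_nonneg_left hfin2 (by positivity))
      _ = CC / Real.log X := by rw [hCC]; ring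
      _ ≤ _ := div_le_div_of_nonneg_right hCCle (by linarith)

end Pool.Agent.H38R2.CG2
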