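import Pool.Agent.H52.V.S8.H38R2.CG2.Stubs

namespace Pool.Agent.H38R2.CG2
open Finset Filter NumberField Pool.Agent.H38R2.CG
open scoped Classical

namespace HDh

noncomputable def TT (B : Finset ℕ) (b : ℕ) (S : Finset ℕ) (x : ℕ → ℝ) : ℝ :=
  ∑ A ∈ B.powerset.filter (fun A => A.card ≤ 2 * b ∧ S ∩ B ⊆ A), (-1 : ℝ) ^ A.card * ∏ p ∈ A, x p

noncomputable def LL (X : ℕ) (r : ℕ → ℝ) (S : Finset ℕ) (x : ℕ → ℝ) : ℝ :=
  ∑ d ∈ (Finset.Icc 1 X).filter (fun d => S ⊆ d.primeFactors), r d * ∏ p ∈ d.primeFactors, x p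

theorem prod_update_mem (A : Finset ℕ) (x : ℕ → ℝ) (q : ℕ) (h : q ∈ A) :
    ∏ p ∈ A, Function.update x q 0 p = 0 :=
  Finset.prod_eq_zero h (by simp)

theorem prod_update_not (A : Finset ℕ) (x : ℕ → ℝ) (q : ℕ) (h : q ∉ A) :
    ∏ p ∈ A, Function.update x q 0 p = ∏ p ∈ A, x p := by
  refine Finset.prod_congr rfl fun p hp => ?_
  rw [Function.update_of_ne]
  rintro rfl
  exact h hp

theorem TT_insert (B : Finset ℕ) (b : ℕ) (S : Finset ℕ) (x : ℕ → ℝ) (q : ℕ) (hq : q ∈ B) :
    TT B b (insert q S) x = TT B b S x - TT B b S (Function.update x q 0) := by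
  unfold TT
  rw [Finset.sum_filter, Finset.sum_filter, Finset.sum_filter, ← Finset.sum_sub_distrib]
  refine Finset.sum_congr rfl fun A _ => ?_
  by_cases hA : q ∈ A
  · rw [prod_update_mem A x q hA]
    have : (insert q S ∩ B ⊆ A) ↔ (S ∩ B ⊆ A) := by
      rw [Finset.insert_inter_of_mem hq, Finset.insert_subset_iff]
      exact ⟨fun h => h.2, fun h => ⟨hA, h⟩⟩
    simp only [this]
    split_ifs <;> simp
  · rw [prod_update_not A x q hA]
    have : ¬ (insert q S ∩ B ⊆ A) := by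
      rw [Finset.insert_inter_of_mem hq, Finset.insert_subset_iff]
      exact fun h => hA h.1
    rw [if_neg (fun h => this h.2), sub_self]

theorem TT_insert' (B : Finset ℕ) (b : ℕ) (S : Finset ℕ) (x : ℕ → ℝ) (q : ℕ) (hq : q ∉ B) :
    TT B b (insert q S) x = TT B b S x := by
  unfold TT
  rw [Finset.insert_inter_of_notMem hq]

theorem TT_update (B : Finset ℕ) (b : ℕ) (S : Finset ℕ) (x : ℕ → ℝ) (q : ℕ) (hq : q ∉ B) :
    TT B b S (Function.update x q 0) = TT B b S x := by
  unfold TT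
  refine Finset.sum_congr rfl fun A hA => ?_
  rw [prod_update_not A x q]
  intro h
  exact hq (Finset.mem_powerset.1 (Finset.mem_filter.1 hA).1 h)

theorem LL_insert (X : ℕ) (r : ℕ → ℝ) (S : Finset ℕ) (x : ℕ → ℝ) (q : ℕ) :
    LL X r (insert q S) x = LL X r S x - LL X r S (Function.update x q 0) := by
  unfold LL
  rw [Finset.sum_filter, Finset.sum_filter, Finset.sum_filter, ← Finset.sum_sub_distrib]
  refine Finset.sum_congr rfl fun d _ => ?_
  by_cases hA : q ∈ d.primeFactors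
  · rw [prod_update_mem _ x q hA]
    have : (insert q S ⊆ d.primeFactors) ↔ (S ⊆ d.primeFactors) := by
      rw [Finset.insert_subset_iff]
      exact ⟨fun h => h.2, fun h => ⟨hA, h⟩⟩
    simp only [this]
    split_ifs <;> simp
  · rw [prod_update_not _ x q hA]
    have : ¬ (insert q S ⊆ d.primeFactors) := by
      rw [Finset.insert_subset_iff]
      exact fun h => hA h.1
    rw [if_neg this, sub_self]

theorem main_fact (hHB : P2_HB) (J X : ℕ) (B : ℕ → Finset ℕ) (b : ℕ → ℕ)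
    (h1 : ∀ j < J, ∀ p ∈ B j, p.Prime) (h2 : ∀ i < J, ∀ j < J, i ≠ j → Disjoint (B i) (B j))
    (h3 : ∀ d, rhoB J B b d ≠ 0 → d ≤ X) (S : Finset ℕ) :
    (∀ p ∈ S, ∃ j < J, p ∈ B j) → ∀ x : ℕ → ℝ,
      LL X (rhoB J B b) S x = ∏ j ∈ Finset.range J, TT (B j) (b j) S x := by
  induction S using Finset.induction_on with
  | empty =>
    intro _ x
    have := hHB J X B b x h1 h2 h3
    unfold LL TT
    simpa using this
  | insert q S hq ih =>
    intro hS x
    have ih' := ih (fun p hp => hS p (Finset.mem_insert_of_mem hp))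
    obtain ⟨j0, hj0, hqj⟩ := hS q (Finset.mem_insert_self _ _)
    rw [LL_insert, ih' x, ih' (Function.update x q 0)]
    have hj0' : j0 ∈ Finset.range J := Finset.mem_range.2 hj0
    rw [← Finset.mul_prod_erase _ _ hj0', ← Finset.mul_prod_erase _ _ hj0',
      ← Finset.mul_prod_erase _ _ hj0', TT_insert _ _ _ _ _ hqj]
    have hne : ∀ j ∈ (Finset.range J).erase j0, q ∉ B j := by
      intro j hj hqj'
      have hj1 := Finset.mem_erase.1 hj
      exact (Finset.disjoint_left.1 (h2 j0 hj0 j (Finset.mem_range.1 hj1.2) (Ne.symm hj1.1)) hqj) hqj'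
    have e1 : ∏ j ∈ (Finset.range J).erase j0, TT (B j) (b j) S (Function.update x q 0) =
        ∏ j ∈ (Finset.range J).erase j0, TT (B j) (b j) S x :=
      Finset.prod_congr rfl fun j hj => TT_update _ _ _ _ _ (hne j hj)
    have e2 : ∏ j ∈ (Finset.range J).erase j0, TT (B j) (b j) (insert q S) x =
        ∏ j ∈ (Finset.range J).erase j0, TT (B j) (b j) S x :=
      Finset.prod_congr rfl fun j hj => TT_insert' _ _ _ _ _ (hne j hj)
    rw [e1, e2]
    ring

theorem TT_abs (B : Finset ℕ) (b : ℕ) (S : Finset ℕ) (y : ℕ → ℝ) (hy : ∀ p, 0 ≤ y p) :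
    |TT B b S y| ≤ (∏ p ∈ S ∩ B, y p) * ∏ p ∈ B, (1 + y p) := by
  have h0 : |TT B b S y| ≤ ∑ A ∈ B.powerset.filter (fun A => S ∩ B ⊆ A), ∏ p ∈ A, y p := by
    unfold TT
    refine (Finset.abs_sum_le_sum_abs _ _).trans ?_
    refine (Finset.sum_le_sum (g := fun A => ∏ p ∈ A, y p) ?_).trans ?_
    · intro A _
      rw [abs_mul, abs_pow, abs_neg, abs_one, one_pow, one_mul,
        abs_of_nonneg (Finset.prod_nonneg fun p _ => hy p)]
    · refine Finset.sum_le_sum_of_subset_of_nonneg ?_ ?_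
      · intro A hA
        rw [Finset.mem_filter] at hA ⊢
        exact ⟨hA.1, hA.2.2⟩
      · intro A _ _
        exact Finset.prod_nonneg fun p _ => hy p
  refine h0.trans ?_
  have h1 : ∑ A ∈ B.powerset.filter (fun A => S ∩ B ⊆ A), ∏ p ∈ A, y p =
      ∏ p ∈ B, (y p + if p ∈ S then 0 else 1) := by
    rw [Finset.prod_add, Finset.sum_filter]
    refine Finset.sum_congr rfl fun A _ => ?_
    by_cases hA : S ∩ B ⊆ A
    · rw [if_pos hA, Finset.prod_eq_one (s := B \ A), mul_one]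
      intro p hp
      rw [Finset.mem_sdiff] at hp
      rw [if_neg]
      intro hS
      exact hp.2 (hA (Finset.mem_inter.2 ⟨hS, hp.1⟩))
    · rw [if_neg hA]
      rw [Finset.not_subset] at hA
      obtain ⟨p, hp, hpA⟩ := hA
      rw [Finset.mem_inter] at hp
      rw [Finset.prod_eq_zero (s := B \ A) (i := p) (Finset.mem_sdiff.2 ⟨hp.2, hpA⟩) (by rw [if_pos hp.1]),
        mul_zero]
  rw [h1]
  have h2 : (∏ p ∈ S ∩ B, y p) = ∏ p ∈ B, (if p ∈ S then y p else 1) := by
    rw [Finset.prod_ite, Finset.prod_const_one, mul_one]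
    refine Finset.prod_congr ?_ fun _ _ => rfl
    ext p
    simp [and_comm]
  rw [h2, ← Finset.prod_mul_distrib]
  refine Finset.prod_le_prod ?_ ?_
  · intro p _
    have := hy p
    split_ifs <;> linarith
  · intro p _
    have := hy p
    split_ifs
    · nlinarith
    · linarith

theorem prod_one_add_le (B : Finset ℕ) (y : ℕ → ℝ) (hy : ∀ p, 0 ≤ y p) (L : ℝ)
    (hL : ∑ p ∈ B, y p ≤ L) : ∏ p ∈ B, (1 + y p) ≤ Real.exp L := by
  calc ∏ p ∈ B, (1 + y p) ≤ ∏ p ∈ B, Real.exp (y p) := by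
        refine Finset.prod_le_prod (fun p _ => by have := hy p; linarith) fun p _ => ?_
        have := Real.add_one_le_exp (y p)
        linarith
    _ = Real.exp (∑ p ∈ B, y p) := (Real.exp_sum _ _).symm
    _ ≤ Real.exp L := Real.exp_le_exp.2 hL

theorem one_sub_ge (y : ℝ) (h0 : 0 ≤ y) (h1 : y ≤ 1 / 2) : Real.exp (-(2 * y)) ≤ 1 - y := by
  rw [Real.exp_neg]
  have h2 : 1 + 2 * y ≤ Real.exp (2 * y) := by
    have := Real.add_one_le_exp (2 * y)
    linarith
  have h3 : (Real.exp (2 * y))⁻¹ ≤ (1 + 2 * y)⁻¹ := inv_anti₀ (by linarith) h2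
  refine h3.trans ?_
  rw [inv_le_iff_one_le_mul₀ (by linarith)]
  nlinarith

theorem prod_one_sub_ge (B : Finset ℕ) (y : ℕ → ℝ) (hy : ∀ p, 0 ≤ y p) (hy2 : ∀ p ∈ B, y p ≤ 1 / 2)
    (L : ℝ) (hL : ∑ p ∈ B, y p ≤ L) : Real.exp (-(2 * L)) ≤ ∏ p ∈ B, (1 - y p) := by
  calc Real.exp (-(2 * L)) ≤ Real.exp (∑ p ∈ B, (-(2 * y p))) := by
        rw [Real.exp_le_exp, Finset.sum_neg_distrib, ← Finset.mul_sum]
        linarith
    _ = ∏ p ∈ B, Real.exp (-(2 * y p)) := Real.exp_sum _ _
    _ ≤ ∏ p ∈ B, (1 - y p) := by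
        refine Finset.prod_le_prod (fun p _ => (Real.exp_pos _).le) fun p hp => ?_
        exact one_sub_ge (y p) (hy p) (hy2 p hp)

theorem TT_empty_ge (hBF : P2_BF) (B : Finset ℕ) (b : ℕ) (hB : ∀ p ∈ B, p.Prime) (L : ℝ)
    (hL : ∑ p ∈ B, (1 : ℝ) / p ≤ L) :
    Real.exp (-(2 * L)) ≤ TT B b ∅ (fun p => (1 : ℝ) / p) := by
  have hp2 : ∀ p ∈ B, (1 : ℝ) / p ≤ 1 / 2 := by
    intro p hp
    have h2 : (2 : ℝ) ≤ p := by exact_mod_cast (hB p hp).two_le
    exact one_div_le_one_div_of_le (by norm_num) h2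
  have h1 := prod_one_sub_ge B (fun p => (1 : ℝ) / p) (fun p => by positivity) hp2 L hL
  refine h1.trans ?_
  have h2 := (hBF B (fun p => (1 : ℝ) / p) b (fun p hp => ⟨by positivity, by
    have := hp2 p hp
    linarith⟩)).1
  refine h2.trans (le_of_eq ?_)
  unfold TT
  simp

theorem TT_bound (hBF : P2_BF) (B : Finset ℕ) (b : ℕ) (S : Finset ℕ) (hB : ∀ p ∈ B, p.Prime)
    (L : ℝ) (hL0 : 0 ≤ L) (hL : ∑ p ∈ B, (1 : ℝ) / p ≤ L) (C0 : ℕ) (hC : Real.exp (3 * L) ≤ C0) :
    |TT B b S (fun p => (1 : ℝ) / p)| ≤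
      (∏ p ∈ S ∩ B, ((C0 : ℝ) * (1 / p))) * TT B b ∅ (fun p => (1 : ℝ) / p) := by
  have hT := TT_empty_ge hBF B b hB L hL
  have hC1 : (1 : ℝ) ≤ C0 := by
    refine le_trans ?_ hC
    rw [← Real.exp_zero]
    exact Real.exp_le_exp.2 (by linarith)
  by_cases hS : S ∩ B = ∅
  · have : TT B b S (fun p => (1 : ℝ) / p) = TT B b ∅ (fun p => (1 : ℝ) / p) := by
      unfold TT
      rw [hS]
      simp
    rw [this, hS, Finset.prod_empty, one_mul, abs_of_nonneg ((Real.exp_pos _).le.trans hT)]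
  · have h1 := TT_abs B b S (fun p => (1 : ℝ) / p) (fun p => by positivity)
    refine h1.trans ?_
    have h2 := prod_one_add_le B (fun p => (1 : ℝ) / p) (fun p => by positivity) L hL
    have hpos : 0 ≤ ∏ p ∈ S ∩ B, ((1 : ℝ) / p) := Finset.prod_nonneg fun p _ => by positivity
    rw [Finset.prod_mul_distrib, Finset.prod_const]
    have h3 : (C0 : ℝ) ≤ (C0 : ℝ) ^ (S ∩ B).card := by
      refine le_self_pow₀ hC1 ?_
      rw [Finset.card_ne_zero]
      exact Finset.nonempty_iff_ne_empty.2 hS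
    have h4 : Real.exp L ≤ (C0 : ℝ) ^ (S ∩ B).card * TT B b ∅ (fun p => (1 : ℝ) / p) := by
      calc Real.exp L = Real.exp (3 * L) * Real.exp (-(2 * L)) := by
            rw [← Real.exp_add]
            ring_nf
        _ ≤ (C0 : ℝ) ^ (S ∩ B).card * TT B b ∅ (fun p => (1 : ℝ) / p) := by
            refine mul_le_mul (hC.trans h3) hT (Real.exp_pos _).le (by positivity)
    calc (∏ p ∈ S ∩ B, ((1 : ℝ) / p)) * ∏ p ∈ B, (1 + (1 : ℝ) / p)
        ≤ (∏ p ∈ S ∩ B, ((1 : ℝ) / p)) *
          ((C0 : ℝ) ^ (S ∩ B).card * TT B b ∅ (fun p => (1 : ℝ) / p)) :=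
          mul_le_mul_of_nonneg_left (h2.trans h4) hpos
      _ = _ := by ring

theorem dvd_iff_sub (g d : ℕ) (hg : Squarefree g) (hd : d ≠ 0) :
    g ∣ d ↔ g.primeFactors ⊆ d.primeFactors := by
  constructor
  · intro h
    exact Nat.primeFactors_mono h hd
  · intro h
    rw [← Nat.prod_primeFactors_of_squarefree hg]
    refine Finset.prod_primes_dvd d ?_ ?_
    · intro p hp
      exact (Nat.prime_of_mem_primeFactors hp).prime
    · intro p hp
      exact Nat.dvd_of_mem_primeFactors (h hp)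

theorem LL_eq (J X : ℕ) (B : ℕ → Finset ℕ) (b : ℕ → ℕ) (g : ℕ) (hg : Squarefree g) :
    ∑ d ∈ (Finset.Icc 1 X).filter (fun d => g ∣ d), rhoB J B b d / d =
      LL X (rhoB J B b) g.primeFactors (fun p => (1 : ℝ) / p) := by
  unfold LL
  rw [Finset.sum_filter, Finset.sum_filter]
  refine Finset.sum_congr rfl fun d hd => ?_
  have hd0 : d ≠ 0 := by
    have := (Finset.mem_Icc.1 hd).1
    omega
  simp only [dvd_iff_sub g d hg hd0]
  by_cases hr : rhoB J B b d = 0
  · rw [hr]
    simp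
  · have hsq : Squarefree d := by
      unfold rhoB at hr
      by_contra hn
      exact hr (if_neg fun h => hn h.1)
    have : ∏ p ∈ d.primeFactors, ((1 : ℝ) / p) = 1 / d := by
      have h1 := Nat.prod_primeFactors_of_squarefree hsq
      have h2 : (d : ℝ) = ∏ p ∈ d.primeFactors, (p : ℝ) := by
        conv_lhs => rw [← h1]
        push_cast
        rfl
      rw [h2]
      simp [Finset.prod_inv_distrib]
    rw [this]
    congr 1
    ring

theorem GG_eq (hHB : P2_HB) (J X : ℕ) (B : ℕ → Finset ℕ) (b : ℕ → ℕ)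
    (h1 : ∀ j < J, ∀ p ∈ B j, p.Prime) (h2 : ∀ i < J, ∀ j < J, i ≠ j → Disjoint (B i) (B j))
    (h3 : ∀ d, rhoB J B b d ≠ 0 → d ≤ X) :
    GG X (rhoB J B b) = ∏ j ∈ Finset.range J, TT (B j) (b j) ∅ (fun p => (1 : ℝ) / p) := by
  have h := LL_eq J X B b 1 squarefree_one
  have h' := main_fact hHB J X B b h1 h2 h3 ∅ (by simp) (fun p => (1 : ℝ) / p)
  rw [Nat.primeFactors_one, h'] at h
  rw [← h]
  unfold GG
  simp

end HDh

open HDh in
theorem T2_HD : P2_BF → P2_HB → P2_HD := by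
  intro hBF hHB J X B b L C0 hL0 h1 h2 h3 hL hC g hg
  have hC1 : (1 : ℝ) ≤ C0 := by
    refine le_trans ?_ hC
    rw [← Real.exp_zero]
    exact Real.exp_le_exp.2 (by linarith)
  have hGG := GG_eq hHB J X B b h1 h2 h3
  have hTpos : ∀ j ∈ Finset.range J, 0 ≤ TT (B j) (b j) ∅ (fun p => (1 : ℝ) / p) := fun j hj =>
    (Real.exp_pos _).le.trans (TT_empty_ge hBF (B j) (b j) (h1 j (Finset.mem_range.1 hj)) L
      (hL j (Finset.mem_range.1 hj)))
  have hGpos : 0 ≤ GG X (rhoB J B b) := by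
    rw [hGG]
    exact Finset.prod_nonneg hTpos
  by_cases hout : ∀ p ∈ g.primeFactors, ∃ j < J, p ∈ B j
  · rw [LL_eq J X B b g hg, main_fact hHB J X B b h1 h2 h3 _ hout, Finset.abs_prod]
    calc ∏ j ∈ Finset.range J, |TT (B j) (b j) g.primeFactors (fun p => (1 : ℝ) / p)|
        ≤ ∏ j ∈ Finset.range J, ((∏ p ∈ g.primeFactors ∩ B j, ((C0 : ℝ) * (1 / p))) *
            TT (B j) (b j) ∅ (fun p => (1 : ℝ) / p)) := by
          refine Finset.prod_le_prod (fun _ _ => abs_nonneg _) fun j hj => ?_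
          exact TT_bound hBF (B j) (b j) g.primeFactors (h1 j (Finset.mem_range.1 hj)) L hL0
            (hL j (Finset.mem_range.1 hj)) C0 hC
      _ = (∏ j ∈ Finset.range J, ∏ p ∈ g.primeFactors ∩ B j, ((C0 : ℝ) * (1 / p))) *
            GG X (rhoB J B b) := by
          rw [Finset.prod_mul_distrib, hGG]
      _ = (∏ p ∈ g.primeFactors, ((C0 : ℝ) * (1 / p))) * GG X (rhoB J B b) := by
          congr 1
          rw [← Finset.prod_biUnion]
          · refine Finset.prod_congr ?_ fun _ _ => rfl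
            ext p
            simp only [Finset.mem_biUnion, Finset.mem_inter, Finset.mem_range]
            constructor
            · rintro ⟨j, _, hp, _⟩
              exact hp
            · intro hp
              obtain ⟨j, hj, hpj⟩ := hout p hp
              exact ⟨j, hj, hp, hpj⟩
          · intro i hi j hj hij
            have hd := h2 i (Finset.mem_range.1 (Finset.mem_coe.1 hi)) j
              (Finset.mem_range.1 (Finset.mem_coe.1 hj)) hij
            exact Finset.disjoint_of_subset_left Finset.inter_subset_right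
              (Finset.disjoint_of_subset_right Finset.inter_subset_right hd)
      _ = (C0 : ℝ) ^ g.primeFactors.card * GG X (rhoB J B b) / g := by
          rw [Finset.prod_mul_distrib, Finset.prod_const]
          have h1 := Nat.prod_primeFactors_of_squarefree hg
          have h2 : (g : ℝ) = ∏ p ∈ g.primeFactors, (p : ℝ) := by
            conv_lhs => rw [← h1]
            push_cast
            rfl
          have h3 : ∏ p ∈ g.primeFactors, ((1 : ℝ) / p) = 1 / g := by
            rw [h2]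
            simp [Finset.prod_inv_distrib]
          rw [h3]
          ring
  · have hz : ∑ d ∈ (Finset.Icc 1 X).filter (fun d => g ∣ d), rhoB J B b d / d = 0 := by
      refine Finset.sum_eq_zero fun d hd => ?_
      rw [Finset.mem_filter, Finset.mem_Icc] at hd
      have hd0 : d ≠ 0 := by omega
      have : rhoB J B b d = 0 := by
        unfold rhoB
        refine if_neg fun h => hout fun p hp => ?_
        exact h.2.1 p (Nat.primeFactors_mono hd.2 hd0 hp)
      rw [this, zero_div]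
    rw [hz, abs_zero]
    positivity

end Pool.Agent.H38R2.CG2
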