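import Pool.Agent.H52.V.S8.H38R2.CG2.Stubs

/-! CG2 task JX: expansion in Jacobi symbols.  Owner: helper202. -/

set_option autoImplicit false

namespace Pool.Agent.H38R2.CG2

open Finset Filter NumberField Pool.Agent.H38R2.CG
open scoped Classical

namespace JXh

theorem sqfree_prod (S : Finset ℕ) (hS : ∀ p ∈ S, p.Prime) : Squarefree (∏ p ∈ S, p) := by
  induction S using Finset.induction_on with
  | empty => simp
  | insert a S ha ih =>
    rw [Finset.prod_insert ha]
    have hS' : ∀ p ∈ S, p.Prime := fun p hp => hS p (Finset.mem_insert_of_mem hp)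
    have hap : a.Prime := hS a (Finset.mem_insert_self a S)
    have hc : Nat.Coprime a (∏ p ∈ S, p) := by
      rw [Nat.coprime_prod_right_iff]
      intro p hp
      rw [Nat.coprime_primes hap (hS' p hp)]
      rintro rfl
      exact ha hp
    exact (Nat.squarefree_mul hc).2 ⟨hap.squarefree, ih hS'⟩

theorem jac_prod (m : ℤ) (S : Finset ℕ) (hS : ∀ p ∈ S, p.Prime) :
    jacobiSym m (∏ p ∈ S, p) = ∏ p ∈ S, jacobiSym m p := by
  induction S using Finset.induction_on with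
  | empty => simp [jacobiSym.one_right]
  | insert a S ha ih =>
    have hS' : ∀ p ∈ S, p.Prime := fun p hp => hS p (Finset.mem_insert_of_mem hp)
    have hap : a.Prime := hS a (Finset.mem_insert_self a S)
    rw [Finset.prod_insert ha, Finset.prod_insert ha, jacobiSym.mul_right' m hap.ne_zero
      (Finset.prod_ne_zero_iff.2 fun p hp => (hS' p hp).ne_zero), ih hS']

/-- expansion of a product over primes -/
theorem prod_expand (m : ℕ) (T : Finset ℕ) (hT : ∀ p ∈ T, p.Prime) (F : Finset ℕ)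
    (hF : ∀ f : ℕ, f ∈ F ↔ Squarefree f ∧ ∀ p, p.Prime → p ∣ f → p ∈ T) :
    ∏ p ∈ T, (1 + (jacobiSym (m : ℤ) p : ℝ)) = ∑ f ∈ F, ((jacobiSym (m : ℤ) f : ℤ) : ℝ) := by
  rw [Finset.prod_one_add]
  refine Finset.sum_bij' (fun S _ => ∏ p ∈ S, p) (fun f _ => f.primeFactors) ?_ ?_ ?_ ?_ ?_
  · intro S hS
    rw [Finset.mem_powerset] at hS
    rw [hF]
    refine ⟨sqfree_prod S fun p hp => hT p (hS hp), fun p hp hpf => ?_⟩
    rw [hp.prime.dvd_finsetProd_iff] at hpf
    obtain ⟨q, hq, hpq⟩ := hpf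
    rw [(Nat.prime_dvd_prime_iff_eq hp (hT q (hS hq))).1 hpq]
    exact hS hq
  · intro f hf
    rw [Finset.mem_powerset]
    intro p hp
    exact ((hF f).1 hf).2 p (Nat.prime_of_mem_primeFactors hp) (Nat.dvd_of_mem_primeFactors hp)
  · intro S hS
    rw [Finset.mem_powerset] at hS
    exact Nat.primeFactors_prod fun p hp => hT p (hS hp)
  · intro f hf
    exact Nat.prod_primeFactors_of_squarefree ((hF f).1 hf).1
  · intro S hS
    rw [Finset.mem_powerset] at hS
    rw [jac_prod (m : ℤ) S fun p hp => hT p (hS hp)]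
    push_cast
    rfl

theorem dvd_of_sqfree {f n : ℕ} (hf : Squarefree f) (hn : n ≠ 0)
    (h : ∀ p, p.Prime → p ∣ f → p ∣ n) : f ∣ n := by
  rw [← Nat.prod_primeFactors_of_squarefree hf]
  refine Finset.prod_primes_dvd n (fun p hp => (Nat.prime_of_mem_primeFactors hp).prime)
    fun p hp => h p (Nat.prime_of_mem_primeFactors hp) (Nat.dvd_of_mem_primeFactors hp)

theorem div_gcd_dvd (f v d : ℕ) (hf : f ≠ 0) : f / Nat.gcd f v ∣ d ↔ f ∣ d * v := by
  have hg : 0 < Nat.gcd f v := Nat.gcd_pos_of_pos_left v (Nat.pos_of_ne_zero hf)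
  rw [Nat.div_dvd_iff_dvd_mul (Nat.gcd_dvd_left f v) hg]
  constructor
  · intro h
    refine h.trans ?_
    rw [mul_comm]
    exact Nat.mul_dvd_mul_left d (Nat.gcd_dvd_right f v)
  · intro h
    have h1 : f ∣ Nat.gcd (d * f) (d * v) := Nat.dvd_gcd (Dvd.intro_left d rfl) h
    rw [Nat.gcd_mul_left] at h1
    rwa [mul_comm]

theorem one_d (z X : ℕ) (P : Finset ℕ) (δ : ℝ) (C0 : ℕ) (ρ : ℕ → ℝ) (c : Finset ℕ) (m v : ℕ)
    (hρ : SWt z X P δ C0 ρ) (hc : c ⊆ P) (hP : ∀ p ∈ P, p.Prime ∧ ¬ p ∣ Qz z) (hv : 1 ≤ v)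
    (hvX : (v : ℝ) * (X : ℝ) ^ δ ≤ X) (d : ℕ) (hd : ρ d ≠ 0) :
    (∏ p ∈ v.primeFactors.filter (fun p => ¬ p ∣ Qz z ∧ p ∉ c),
      (1 + (jacobiSym (m : ℤ) p : ℝ))) *
      ∏ p ∈ d.primeFactors.filter (fun p => ¬ p ∣ v), (1 + (jacobiSym (m : ℤ) p : ℝ)) =
    ∑ f ∈ ((Finset.Icc 1 X).filter
      (fun f => Squarefree f ∧ f.Coprime (Qz z) ∧ ∀ p ∈ c, ¬ p ∣ f)).filter
        (fun f => f / Nat.gcd f v ∣ d), ((jacobiSym (m : ℤ) f : ℤ) : ℝ) := by
  obtain ⟨hd1, hdX, hdsq, hdQ, hdP⟩ := hρ.supp d hd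
  have hd0 : d ≠ 0 := by omega
  have hv0 : v ≠ 0 := by omega
  rw [← Finset.prod_union]
  · refine prod_expand m _ ?_ _ ?_
    · intro p hp
      rw [Finset.mem_union, Finset.mem_filter, Finset.mem_filter] at hp
      rcases hp with hp | hp
      · exact Nat.prime_of_mem_primeFactors hp.1
      · exact Nat.prime_of_mem_primeFactors hp.1
    · intro f
      rw [Finset.mem_filter, Finset.mem_filter, Finset.mem_Icc]
      constructor
      · rintro ⟨⟨⟨hf1, hfX⟩, hfsq, hfQ, hfc⟩, hfd⟩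
        have hf0 : f ≠ 0 := by omega
        rw [div_gcd_dvd f v d hf0] at hfd
        refine ⟨hfsq, fun p hp hpf => ?_⟩
        have hpQ : ¬ p ∣ Qz z := by
          intro h
          have := Nat.dvd_gcd hpf h
          rw [hfQ] at this
          exact hp.one_lt.ne' (Nat.dvd_one.1 this)
        have hpc : p ∉ c := fun h => hfc p h hpf
        rw [Finset.mem_union, Finset.mem_filter, Finset.mem_filter, Nat.mem_primeFactors,
          Nat.mem_primeFactors]
        by_cases hpv : p ∣ v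
        · exact Or.inl ⟨⟨hp, hpv, hv0⟩, hpQ, hpc⟩
        · right
          rcases (Nat.Prime.dvd_mul hp).1 (hpf.trans hfd) with h | h
          · exact ⟨⟨hp, h, hd0⟩, hpv⟩
          · exact absurd h hpv
      · rintro ⟨hfsq, hfT⟩
        have hf0 : f ≠ 0 := hfsq.ne_zero
        have hT : ∀ p, p.Prime → p ∣ f → (p ∣ d * v ∧ ¬ p ∣ Qz z ∧ p ∉ c) := by
          intro p hp hpf
          have h1 := hfT p hp hpf
          rw [Finset.mem_union, Finset.mem_filter, Finset.mem_filter, Nat.mem_primeFactors,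
            Nat.mem_primeFactors] at h1
          rcases h1 with ⟨⟨-, hpv, -⟩, hpQ, hpc⟩ | ⟨⟨-, hpd, -⟩, hpv⟩
          · exact ⟨hpv.mul_left d, hpQ, hpc⟩
          · refine ⟨hpd.mul_right v, ?_, ?_⟩
            · intro h
              have := Nat.dvd_gcd hpd h
              rw [hdQ] at this
              exact hp.one_lt.ne' (Nat.dvd_one.1 this)
            · intro h
              exact hdP p (hc h) hpd
        have hdv : f ∣ d * v :=
          dvd_of_sqfree hfsq (Nat.mul_ne_zero hd0 hv0) fun p hp hpf => (hT p hp hpf).1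
        refine ⟨⟨⟨Nat.pos_of_ne_zero hf0, ?_⟩, hfsq, ?_, ?_⟩, ?_⟩
        · have h1 : f ≤ d * v := Nat.le_of_dvd (Nat.pos_of_ne_zero (Nat.mul_ne_zero hd0 hv0)) hdv
          have h2 : ((f : ℕ) : ℝ) ≤ (X : ℝ) := by
            calc (f : ℝ) ≤ ((d * v : ℕ) : ℝ) := by exact_mod_cast h1
              _ = (v : ℝ) * d := by push_cast; ring
              _ ≤ (v : ℝ) * (X : ℝ) ^ δ := mul_le_mul_of_nonneg_left hdX (Nat.cast_nonneg v)
              _ ≤ X := hvX
          exact_mod_cast h2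
        · refine Nat.Coprime.symm (Nat.Coprime.symm ?_)
          by_contra hcop
          obtain ⟨p, hp, hpf, hpQ⟩ := Nat.Prime.not_coprime_iff_dvd.1 hcop
          exact (hT p hp hpf).2.1 hpQ
        · intro p hpc hpf
          exact (hT p (hP p (hc hpc)).1 hpf).2.2 hpc
        · rw [div_gcd_dvd f v d hf0]
          exact hdv
  · rw [Finset.disjoint_left]
    intro p hp hp'
    rw [Finset.mem_filter, Nat.mem_primeFactors] at hp
    rw [Finset.mem_filter] at hp'
    exact hp'.2 hp.1.2.1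

end JXh

theorem T2_JX : P2_JX := by
  intro z X P δ C0 ρ c m v hρ hc hP hv hvX
  unfold JJ kap
  rw [mul_assoc]
  congr 1
  rw [Finset.mul_sum]
  have h1 : ∀ d ∈ Finset.Icc 1 X, (∏ p ∈ v.primeFactors.filter (fun p => ¬ p ∣ Qz z ∧ p ∉ c),
      (1 + (jacobiSym (m : ℤ) p : ℝ))) * (ρ d / d *
        ∏ p ∈ d.primeFactors.filter (fun p => ¬ p ∣ v), (1 + (jacobiSym (m : ℤ) p : ℝ))) =
      ∑ f ∈ (Finset.Icc 1 X).filter
        (fun f => Squarefree f ∧ f.Coprime (Qz z) ∧ ∀ p ∈ c, ¬ p ∣ f),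
        if f / Nat.gcd f v ∣ d then ((jacobiSym (m : ℤ) f : ℤ) : ℝ) * (ρ d / d) else 0 := by
    intro d _
    by_cases hd : ρ d = 0
    · rw [hd]
      simp
    · rw [← Finset.sum_filter, ← Finset.sum_mul,
        ← JXh.one_d z X P δ C0 ρ c m v hρ hc hP hv hvX d hd]
      ring
  rw [Finset.sum_congr rfl h1, Finset.sum_comm]
  refine Finset.sum_congr rfl fun f _ => ?_
  rw [Finset.sum_filter, Finset.mul_sum]
  refine Finset.sum_congr rfl fun d _ => ?_
  by_cases h : f / Nat.gcd f v ∣ d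
  · rw [if_pos h, if_pos h]
  · rw [if_neg h, if_neg h, mul_zero]

end Pool.Agent.H38R2.CG2
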