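import Pool.Agent.H52.V.S8.H38R2.CG2.Stubs

namespace Pool.Agent.H38R2.CG2

open Finset Filter NumberField Pool.Agent.H38R2.CG

open scoped Classical

namespace MPh

/-- `n ↦ 1 / n` -/
noncomputable def inv1 : ℕ →* ℝ where
  toFun n := (n : ℝ)⁻¹
  map_one' := by simp
  map_mul' a b := by
    rw [Nat.cast_mul, mul_inv]

theorem inv1_apply (n : ℕ) : inv1 n = (n : ℝ)⁻¹ := rfl

theorem pr_eq (N : ℕ) : (N + 1).primesBelow = (Finset.Icc 2 N).filter Nat.Prime := by
  ext p
  rw [Nat.mem_primesBelow, Finset.mem_filter, Finset.mem_Icc]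
  constructor
  · rintro ⟨h1, h2⟩
    exact ⟨⟨h2.two_le, by omega⟩, h2⟩
  · rintro ⟨⟨_, h1⟩, h2⟩
    exact ⟨by omega, h2⟩

theorem harm_le (N : ℕ) : ∑ n ∈ Finset.Icc 1 N, (n : ℝ)⁻¹ ≤
    ∏ p ∈ (Finset.Icc 2 N).filter Nat.Prime, (1 - (1 : ℝ) / p)⁻¹ := by
  have h1 := (EulerProduct.summable_and_hasSum_smoothNumbers_prod_primesBelow_geometric
    (f := inv1) (by
      intro p hp
      rw [inv1_apply, Real.norm_eq_abs, abs_of_nonneg (by positivity)]
      have : (1 : ℝ) < p := by exact_mod_cast hp.one_lt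
      exact inv_lt_one_of_one_lt₀ this) (N + 1)).2
  have h2 : HasSum ((Nat.smoothNumbers (N + 1)).indicator inv1)
      (∏ p ∈ (N + 1).primesBelow, (1 - inv1 p)⁻¹) := by
    rw [← hasSum_subtype_iff_indicator]
    exact h1
  have h3 := sum_le_hasSum (Finset.Icc 1 N) (fun i _ => by
    apply Set.indicator_nonneg
    intro n _
    rw [inv1_apply]
    positivity) h2
  have h4 : ∑ n ∈ Finset.Icc 1 N, (Nat.smoothNumbers (N + 1)).indicator inv1 n =
      ∑ n ∈ Finset.Icc 1 N, (n : ℝ)⁻¹ := by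
    apply Finset.sum_congr rfl
    intro n hn
    rw [Finset.mem_Icc] at hn
    rw [Set.indicator_of_mem (Nat.mem_smoothNumbers_of_lt (by omega) (by omega)), inv1_apply]
  rw [h4, pr_eq] at h3
  refine h3.trans (le_of_eq ?_)
  apply Finset.prod_congr rfl
  intro p _
  rw [inv1_apply, one_div]

end MPh

theorem T2_MP : P2_MP := by
  intro N hN
  have h1 : Real.log N ≤ ∑ n ∈ Finset.Icc 1 N, (n : ℝ)⁻¹ := by
    have h2 := log_add_one_le_harmonic N
    have h3 : ((harmonic N : ℚ) : ℝ) = ∑ n ∈ Finset.Icc 1 N, (n : ℝ)⁻¹ := by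
      rw [harmonic_eq_sum_Icc]
      push_cast
      rfl
    rw [h3] at h2
    refine le_trans (Real.log_le_log (by positivity) ?_) h2
    push_cast
    linarith
  have h2 := h1.trans (MPh.harm_le N)
  have hlog : 0 < Real.log N := Real.log_pos (by exact_mod_cast hN)
  rw [Finset.prod_inv_distrib] at h2
  have hP : 0 < ∏ p ∈ (Finset.Icc 2 N).filter Nat.Prime, (1 - (1 : ℝ) / p) := by
    apply Finset.prod_pos
    intro p hp
    rw [Finset.mem_filter] at hp
    have : (1 : ℝ) < p := by exact_mod_cast hp.2.one_lt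
    rw [sub_pos, div_lt_one (by linarith)]
    exact this
  rw [le_div_iff₀ hlog]
  have h3 := mul_le_mul_of_nonneg_left h2 hP.le
  rw [mul_inv_cancel₀ hP.ne'] at h3
  exact h3

end Pool.Agent.H38R2.CG2
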