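import Pool.Agent.H52.V.S8.H38R2.CG2.Stubs
import Pool.Agent.H52.V.S8.H38R2.CG.TB1

/-!
# T1: the sum over D for one n, with sieve weights
-/

set_option autoImplicit false

namespace Pool.Agent.H38R2.CG2

open Finset Filter NumberField Pool.Agent.H38R2.CG Pool.Agent.H38R2.CG.TB1h
open scoped Classical

theorem T2_T1 : P2_WT → P2_T1a → P2_T1 := by
  intro hWT hA z r X n η P δ C0 ρ hr hη hη1 hX hn hδ hρ
  have hD : ∀ D ∈ DD z r X η, X < D := by
    intro D hD
    unfold DD at hD
    rw [Finset.mem_filter, Finset.mem_Ioc] at hD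
    exact hD.1.1
  have hw : ∀ D ∈ DD z r X η, 0 ≤ wt ρ D ∧
      wt ρ D = ∑ d ∈ (Finset.Icc 1 X).filter (fun d => d ∣ D), ρ d := fun D hD' =>
    hWT z X P δ C0 ρ hX hδ hρ D (by have := hD D hD'; omega)
  have h0 : ∑ D ∈ DD z r X η, wt ρ D * Rsum D n =
      ∑ D ∈ DD z r X η, wt ρ D * ∑ u ∈ Finset.Icc 1 (4 * n), T D n u 0 +
      2 * ∑ v ∈ Finset.Icc 1 (4 * n), ∑ D ∈ DD z r X η,
        wt ρ D * ∑ u ∈ Finset.Icc 1 (4 * n), T D n u (v : ℤ) := by
    rw [Finset.sum_comm, Finset.mul_sum, ← Finset.sum_add_distrib]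
    apply Finset.sum_congr rfl
    intro D _
    rw [Rsum_eq, mul_add, ← Finset.mul_sum]
    ring
  rw [h0]
  apply add_le_add
  · calc ∑ D ∈ DD z r X η, wt ρ D * ∑ u ∈ Finset.Icc 1 (4 * n), T D n u 0
        ≤ ∑ D ∈ DD z r X η, wt ρ D * (if IsSquare n then (1 : ℝ) else 0) :=
          Finset.sum_le_sum (fun D hD' =>
            mul_le_mul_of_nonneg_left (sum_T_zero D n (4 * n)) (hw D hD').1)
      _ = if IsSquare n then ∑ D ∈ DD z r X η, wt ρ D else 0 := by
          split_ifs <;> simp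
  · apply mul_le_mul_of_nonneg_left _ (by norm_num)
    set V : ℕ := ⌊2 * √((n : ℝ) / X)⌋₊ with hV
    have h1 : ∑ v ∈ Finset.Icc 1 (4 * n), ∑ D ∈ DD z r X η,
        wt ρ D * ∑ u ∈ Finset.Icc 1 (4 * n), T D n u (v : ℤ) =
        ∑ v ∈ (Finset.Icc 1 (4 * n)).filter (fun v => v ≤ V), ∑ D ∈ DD z r X η,
        wt ρ D * ∑ u ∈ Finset.Icc 1 (4 * n), T D n u (v : ℤ) := by
      rw [Finset.sum_filter]
      apply Finset.sum_congr rfl
      intro v _
      split_ifs with h
      · rfl
      · push Not at h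
        have h2 : 2 * √((n : ℝ) / X) < v := by
          rw [hV] at h
          exact Nat.lt_of_floor_lt h
        apply Finset.sum_eq_zero
        intro D hD'
        rw [Finset.sum_eq_zero, mul_zero]
        intro u _
        exact T_large X D n u v hX hn (hD D hD') h2
    rw [h1]
    have h2 : ∑ v ∈ (Finset.Icc 1 (4 * n)).filter (fun v => v ≤ V), ∑ D ∈ DD z r X η,
        wt ρ D * ∑ u ∈ Finset.Icc 1 (4 * n), T D n u (v : ℤ) ≤
        ∑ v ∈ Finset.Icc 1 V, ∑ D ∈ DD z r X η,
        wt ρ D * ∑ u ∈ Finset.Icc 1 (4 * n), T D n u (v : ℤ) := by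
      apply Finset.sum_le_sum_of_subset_of_nonneg
      · intro v hv
        rw [Finset.mem_filter, Finset.mem_Icc] at hv
        rw [Finset.mem_Icc]
        exact ⟨hv.1.1, hv.2⟩
      · intro v _ _
        exact Finset.sum_nonneg (fun D hD' => mul_nonneg (hw D hD').1
          (Finset.sum_nonneg (fun u _ => T_nonneg D n u v)))
    refine h2.trans ?_
    apply Finset.sum_le_sum
    intro v hv
    rw [Finset.mem_Icc] at hv
    have h3 : ∑ D ∈ DD z r X η, wt ρ D * ∑ u ∈ Finset.Icc 1 (4 * n), T D n u (v : ℤ) =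
        ∑ d ∈ Finset.Icc 1 X, ρ d * ∑ D ∈ (DD z r X η).filter (fun D => d ∣ D),
          ∑ u ∈ Finset.Icc 1 (4 * n), T D n u (v : ℤ) := by
      have h4 : ∀ D ∈ DD z r X η, wt ρ D * ∑ u ∈ Finset.Icc 1 (4 * n), T D n u (v : ℤ) =
          ∑ d ∈ Finset.Icc 1 X, if d ∣ D then
            ρ d * ∑ u ∈ Finset.Icc 1 (4 * n), T D n u (v : ℤ) else 0 := by
        intro D hD'
        rw [(hw D hD').2, Finset.sum_filter, Finset.sum_mul]
        apply Finset.sum_congr rfl
        intro d _
        split_ifs <;> simp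
      rw [Finset.sum_congr rfl h4, Finset.sum_comm]
      apply Finset.sum_congr rfl
      intro d _
      rw [Finset.mul_sum, Finset.sum_filter]
    rw [h3, Finset.mul_sum, ← Finset.sum_add_distrib]
    apply Finset.sum_le_sum
    intro d hd
    rw [Finset.mem_Icc] at hd
    by_cases hρd : ρ d = 0
    · rw [hρd]
      simp
    · have hcop := (hρ.supp d hρd).2.2.2.1
      have h5 := hA z r X n v d η hr hη hη1 hX hn hv.1 hd.1 hcop
      have h6 : ∑ D ∈ (DD z r X η).filter (fun D => d ∣ D),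
          ∑ u ∈ Finset.Icc 1 (4 * n), T D n u (v : ℤ) =
          ∑ D ∈ (DD z r X η).filter (fun D => d ∣ D), ∑ u ∈ Finset.Icc 1 (4 * n),
          (if ((u : ℤ) ^ 2 - (D : ℤ) * (v : ℤ) ^ 2 = 4 * n) then
            phi (Real.log (((u : ℝ) + v * √(D : ℝ)) / ((u : ℝ) - v * √(D : ℝ)))) else 0) := by
        apply Finset.sum_congr rfl
        intro D _
        apply Finset.sum_congr rfl
        intro u _
        unfold T
        push_cast
        rfl
      rw [← h6] at h5
      set A := ∑ D ∈ (DD z r X η).filter (fun D => d ∣ D),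
          ∑ u ∈ Finset.Icc 1 (4 * n), T D n u (v : ℤ) with hA'
      have h7 : ρ d * (A - (RR z r n v d : ℝ) * (om X η v n / (Qz z * d))) ≤
          |ρ d| * (RR z r n v d : ℝ) := by
        refine (le_abs_self _).trans ?_
        rw [abs_mul]
        exact mul_le_mul_of_nonneg_left h5 (abs_nonneg _)
      have h8 : om X η v n / Qz z * (ρ d / d * (RR z r n v d : ℝ)) =
          ρ d * ((RR z r n v d : ℝ) * (om X η v n / (Qz z * d))) := by
        have hd0 : (d : ℝ) ≠ 0 := by
          have : d ≠ 0 := by omega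
          exact_mod_cast this
        by_cases hq : (Qz z : ℝ) = 0
        · rw [hq]; simp
        · field_simp
      rw [h8]
      linarith

end Pool.Agent.H38R2.CG2
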