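import Pool.Agent.H52.V.S8.H38R2.CG2.Stubs
import Pool.Agent.H52.V.S8.H38R2.CG.TB1a

/-!
# T1a: one n, one v, one d
-/

set_option autoImplicit false

namespace Pool.Agent.H38R2.CG2

open Finset Filter NumberField Pool.Agent.H38R2.CG
open scoped Classical

namespace T1ah

open MeasureTheory Pool.Agent.H38R2.CG.TB1ah

/-- elements of the residue class in `(a, b]` -/
noncomputable def UC (a b : ℝ) (m c : ℕ) : Finset ℕ :=
  (Finset.range (⌊b⌋₊ + 1)).filter (fun u => a < (u : ℝ) ∧ (u : ℝ) ≤ b ∧ u % m = c)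

lemma mem_UC {a b : ℝ} {m c u : ℕ} : u ∈ UC a b m c ↔ a < (u : ℝ) ∧ (u : ℝ) ≤ b ∧ u % m = c := by
  rw [UC, Finset.mem_filter, Finset.mem_range]
  constructor
  · exact fun h => h.2
  · intro h
    exact ⟨Nat.lt_succ_of_le (Nat.le_floor h.2.1), h⟩

/-- lower bound -/
lemma prog_low (H : ℝ → ℝ) (a b : ℝ) (ha : 0 ≤ a) (hab : a ≤ b) (m : ℕ) (hm : 1 ≤ m) (c : ℕ)
    (hcm : c < m) (hanti : AntitoneOn H (Set.Icc a b)) (h0 : ∀ x ∈ Set.Icc a b, 0 ≤ H x)
    (h1 : ∀ x ∈ Set.Icc a b, H x ≤ 1) (hc : ContinuousOn H (Set.Icc a b)) :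
    (1 / (m : ℝ)) * ∫ x in a..b, H x ≤ 1 + ∑ u ∈ UC a b m c, H (u : ℝ) := by
  have hm' : (0 : ℝ) < m := by exact_mod_cast hm
  have hint : IntegrableOn H (Set.Icc a b) := hc.integrableOn_Icc
  set G : ℝ → ℝ := fun x => (Set.Ioc a (a + m)).indicator (fun _ => (1 : ℝ)) x +
    ∑ u ∈ UC a b m c, (Set.Ioc (u : ℝ) (u + m)).indicator (fun _ => H u) x with hG
  have hind : ∀ (p C : ℝ), Integrable ((Set.Ioc p (p + m)).indicator (fun _ => C)) := by
    intro p C
    rw [integrable_indicator_iff measurableSet_Ioc]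
    exact integrableOn_const (by simp)
  have hindI : ∀ (p C : ℝ), ∫ x, (Set.Ioc p (p + m)).indicator (fun _ => C) x = m * C := by
    intro p C
    rw [integral_indicator measurableSet_Ioc, setIntegral_const,
      Real.volume_real_Ioc_of_le (by linarith)]
    simp
  have hsumi : Integrable (fun x : ℝ => ∑ u ∈ UC a b m c,
      (Set.Ioc (u : ℝ) (u + m)).indicator (fun _ => H u) x) :=
    integrable_finsetSum _ fun u _ => hind (u : ℝ) (H u)
  have hGi : Integrable G := (hind a 1).add hsumi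
  have hGI : ∫ x, G x = m + ∑ u ∈ UC a b m c, m * H u := by
    have e1 := integral_add (hind a 1) hsumi
    have e2 := integral_finsetSum (μ := volume) (UC a b m c)
      (f := fun (u : ℕ) (x : ℝ) => (Set.Ioc (u : ℝ) (u + m)).indicator (fun _ => H u) x)
      fun u _ => hind (u : ℝ) (H u)
    rw [hindI, e2, mul_one] at e1
    refine e1.trans ?_
    congr 1
    exact Finset.sum_congr rfl fun u _ => hindI (u : ℝ) (H u)
  have hG0 : ∀ x, 0 ≤ G x := by
    intro x
    refine add_nonneg ?_ (Finset.sum_nonneg fun u hu => ?_)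
    · exact Set.indicator_nonneg (fun _ _ => zero_le_one) x
    · refine Set.indicator_nonneg (fun _ _ => ?_) x
      rw [mem_UC] at hu
      exact h0 _ ⟨hu.1.le, hu.2.1⟩
  have hle : ∀ x ∈ Set.Ioc a b, H x ≤ G x := by
    intro x hx
    by_cases hxa : x ≤ a + m
    · have e1 : (Set.Ioc a (a + m)).indicator (fun _ => (1 : ℝ)) x = 1 :=
        Set.indicator_of_mem (show x ∈ Set.Ioc a (a + m) from ⟨hx.1, hxa⟩) _
      have e2 : 0 ≤ ∑ u ∈ UC a b m c, (Set.Ioc (u : ℝ) (u + m)).indicator (fun _ => H u) x := by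
        refine Finset.sum_nonneg fun u hu => Set.indicator_nonneg (fun _ _ => ?_) x
        rw [mem_UC] at hu
        exact h0 _ ⟨hu.1.le, hu.2.1⟩
      have e3 := h1 x ⟨hx.1.le, hx.2⟩
      change H x ≤ _ + _
      rw [e1]
      linarith
    · push Not at hxa
      -- the element of the class in [x - m, x)
      obtain ⟨q, hq1, hq2⟩ : ∃ q : ℕ, (x - m : ℝ) ≤ ((c + m * q : ℕ) : ℝ) ∧
          ((c + m * q : ℕ) : ℝ) < x := by
        set q := ⌈(x - m - c) / m⌉₊ with hq
        refine ⟨q, ?_, ?_⟩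
        · have h3 := Nat.le_ceil ((x - m - c) / m)
          rw [div_le_iff₀ hm'] at h3
          push_cast
          linarith
        · by_cases hneg : (x - m - c) / m ≤ 0
          · have : q = 0 := Nat.ceil_eq_zero.mpr hneg
            rw [this]
            push_cast
            have hcm' : (c : ℝ) < m := by exact_mod_cast hcm
            nlinarith
          · push Not at hneg
            have h3 := Nat.ceil_lt_add_one hneg.le
            have h4 : (q : ℝ) * m < ((x - m - c) / m + 1) * m := by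
              exact mul_lt_mul_of_pos_right h3 hm'
            have h5 : ((x - m - c) / m + 1) * m = x - c := by
              field_simp
              ring
            push_cast
            linarith
      set u : ℕ := c + m * q with hu
      have huU : u ∈ UC a b m c := by
        rw [mem_UC]
        refine ⟨by linarith, by linarith [hx.2], ?_⟩
        rw [hu, Nat.add_mul_mod_self_left, Nat.mod_eq_of_lt hcm]
      have hxu : x ∈ Set.Ioc (u : ℝ) (u + m) := ⟨hq2, by linarith⟩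
      have hu3 := mem_UC.mp huU
      have e1 : H x ≤ H u := hanti ⟨hu3.1.le, hu3.2.1⟩ ⟨hx.1.le, hx.2⟩ hq2.le
      have e2 : (Set.Ioc (u : ℝ) (u + m)).indicator (fun _ => H u) x = H u :=
        Set.indicator_of_mem hxu _
      have e3 : (Set.Ioc (u : ℝ) (u + m)).indicator (fun _ => H u) x ≤
          ∑ u ∈ UC a b m c, (Set.Ioc (u : ℝ) (u + m)).indicator (fun _ => H u) x := by
        refine Finset.single_le_sum
          (f := fun u : ℕ => (Set.Ioc (u : ℝ) (u + m)).indicator (fun _ => H u) x) ?_ huU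
        intro w hw
        refine Set.indicator_nonneg (fun _ _ => ?_) x
        rw [mem_UC] at hw
        exact h0 _ ⟨hw.1.le, hw.2.1⟩
      have e4 : 0 ≤ (Set.Ioc a (a + m)).indicator (fun _ => (1 : ℝ)) x :=
        Set.indicator_nonneg (fun _ _ => zero_le_one) x
      change H x ≤ _ + _
      linarith
  have hI : ∫ x in a..b, H x ≤ m + ∑ u ∈ UC a b m c, m * H u := by
    rw [intervalIntegral.integral_of_le hab, ← hGI]
    calc ∫ x in Set.Ioc a b, H x ≤ ∫ x in Set.Ioc a b, G x :=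
          setIntegral_mono_on (hint.mono_set Set.Ioc_subset_Icc_self) hGi.integrableOn
            measurableSet_Ioc hle
      _ ≤ ∫ x, G x := setIntegral_le_integral hGi (ae_of_all _ hG0)
  rw [← Finset.mul_sum] at hI
  rw [one_div, ← div_eq_inv_mul, div_le_iff₀ hm']
  linarith

lemma HH_zero (n u : ℕ) (hn : 1 ≤ n) (hu : 4 * n < u) : HH n u = 0 := by
  have hn' : (1 : ℝ) ≤ n := by exact_mod_cast hn
  have hu' : (4 : ℝ) * n < u := by exact_mod_cast hu
  have hu1 : (4 : ℝ) * n + 1 ≤ u := by exact_mod_cast hu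
  unfold HH
  set w := √((u : ℝ) ^ 2 - 4 * n) / (2 * √(n : ℝ)) with hw
  have hsn : 0 < √(n : ℝ) := Real.sqrt_pos.mpr (by linarith)
  have hsn2 : √(n : ℝ) ^ 2 = n := Real.sq_sqrt (by linarith)
  have h1 : 4 * (n : ℝ) ≤ √((u : ℝ) ^ 2 - 4 * n) := by
    apply Real.le_sqrt_of_sq_le
    nlinarith
  have h2 : 2 ≤ w := by
    rw [hw, le_div_iff₀ (by positivity)]
    have h3 : √(n : ℝ) ≤ n := by
      rw [Real.sqrt_le_left (by linarith)]
      nlinarith
    linarith
  have h3 : 1 / 2 ≤ Real.arsinh w := by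
    rw [Real.arsinh, Real.le_log_iff_exp_le (by positivity)]
    have h4 : Real.exp (1 / 2) ≤ 2 := by
      have h5 : Real.exp (1 / 2) ^ 2 = Real.exp 1 := by
        rw [← Real.exp_nat_mul]; norm_num
      have h6 := Real.exp_one_lt_d9
      nlinarith [Real.exp_pos (1 / 2)]
    have h7 := Real.sqrt_nonneg (1 + w ^ 2)
    linarith
  unfold phi
  rw [abs_of_nonneg (by linarith)]
  exact max_eq_left (by linarith)

end T1ah

open T1ah Pool.Agent.H38R2.CG.TB1ah in
theorem T2_T1a : P2_T1a := by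
  intro z r X n v d η hr hη hη1 hX hn hv hd hdQ
  have hQ : 0 < Qz z := by omega
  have hn' : (0 : ℝ) < n := by exact_mod_cast hn
  have hX' : (0 : ℝ) < X := by exact_mod_cast hX
  have hv' : (0 : ℝ) < v := by exact_mod_cast hv
  have hd' : (0 : ℝ) < d := by exact_mod_cast hd
  have hQ' : (0 : ℝ) < Qz z := by exact_mod_cast hQ
  have hm : 1 ≤ Qz z * (d * v ^ 2) := Nat.one_le_iff_ne_zero.mpr (by positivity)
  set a : ℝ := √(4 * (n : ℝ) + X * (v : ℝ) ^ 2) with ha
  set b : ℝ := √(4 * (n : ℝ) + ((1 + η) * X) * (v : ℝ) ^ 2) with hb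
  have hab : a ≤ b := by
    apply Real.sqrt_le_sqrt
    have : (X : ℝ) * (v : ℝ) ^ 2 ≤ ((1 + η) * X) * (v : ℝ) ^ 2 := by
      apply mul_le_mul_of_nonneg_right _ (by positivity)
      nlinarith
    linarith
  have ha0 : 0 ≤ a := Real.sqrt_nonneg _
  have hDD : ∀ D, D ∈ DD z r X η ↔ (X : ℝ) < D ∧ (D : ℝ) ≤ (1 + η) * X ∧ D % Qz z = r := by
    intro D
    rw [DD, Finset.mem_filter, Finset.mem_Ioc, Nat.le_floor_iff (by positivity), and_assoc]
    exact and_congr_left fun _ => Nat.cast_lt.symm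
  set RS : Finset ℕ := (Finset.range (Qz z * (d * v ^ 2))).filter (fun u =>
    u ^ 2 ≡ 4 * n + r * v ^ 2 [MOD Qz z * v ^ 2] ∧ u ^ 2 ≡ 4 * n [MOD d * v ^ 2]) with hRS
  have hRR : (RR z r n v d : ℝ) = RS.card := rfl
  set U : Finset ℕ := (Finset.Icc 1 (4 * n)).filter
    (fun u => ∃ D ∈ (DD z r X η).filter (fun D => d ∣ D),
      (u : ℤ) ^ 2 - (D : ℤ) * (v : ℤ) ^ 2 = 4 * n) with hU
  set U' : Finset ℕ := (Finset.range (⌊b⌋₊ + 1)).filter
    (fun u => a < (u : ℝ) ∧ (u : ℝ) ≤ b ∧ u % (Qz z * (d * v ^ 2)) ∈ RS) with hU'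
  have hdvdQ : Qz z * v ^ 2 ∣ Qz z * (d * v ^ 2) := ⟨d, by ring⟩
  have hdvdd : d * v ^ 2 ∣ Qz z * (d * v ^ 2) := ⟨Qz z, by ring⟩
  have hmodiff : ∀ u : ℕ, u % (Qz z * (d * v ^ 2)) ∈ RS ↔
      (u ^ 2 ≡ 4 * n + r * v ^ 2 [MOD Qz z * v ^ 2] ∧ u ^ 2 ≡ 4 * n [MOD d * v ^ 2]) := by
    intro u
    rw [hRS, Finset.mem_filter, Finset.mem_range]
    have e1 : (u % (Qz z * (d * v ^ 2))) ^ 2 ≡ u ^ 2 [MOD Qz z * v ^ 2] :=
      ((Nat.mod_modEq u _).of_dvd hdvdQ).pow 2
    have e2 : (u % (Qz z * (d * v ^ 2))) ^ 2 ≡ u ^ 2 [MOD d * v ^ 2] :=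
      ((Nat.mod_modEq u _).of_dvd hdvdd).pow 2
    constructor
    · rintro ⟨_, h1, h2⟩
      exact ⟨e1.symm.trans h1, e2.symm.trans h2⟩
    · rintro ⟨h1, h2⟩
      exact ⟨Nat.mod_lt _ (by omega), e1.trans h1, e2.trans h2⟩
  -- step 1: swap the sums
  have hstep1 : ∑ D ∈ (DD z r X η).filter (fun D => d ∣ D), ∑ u ∈ Finset.Icc 1 (4 * n),
      (if ((u : ℤ) ^ 2 - (D : ℤ) * (v : ℤ) ^ 2 = 4 * n) then
        phi (Real.log (((u : ℝ) + v * √(D : ℝ)) / ((u : ℝ) - v * √(D : ℝ)))) else 0) =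
      ∑ u ∈ U, HH n u := by
    rw [Finset.sum_comm, hU, Finset.sum_filter]
    refine Finset.sum_congr rfl fun u hu => ?_
    rw [Finset.mem_Icc] at hu
    split_ifs with hex
    · obtain ⟨D, hD, h⟩ := hex
      rw [Finset.sum_eq_single_of_mem D hD]
      · rw [if_pos h, term_eq n v D u hn hu.1 h]
      · intro D' _ hne
        rw [if_neg]
        intro h'
        apply hne
        have h5 : ((D' : ℤ) - D) * (v : ℤ) ^ 2 = 0 := by linear_combination h - h'
        rcases mul_eq_zero.mp h5 with h6 | h6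
        · exact_mod_cast (sub_eq_zero.mp h6)
        · exfalso
          have : (v : ℤ) = 0 := by simpa using h6
          omega
    · refine Finset.sum_eq_zero fun D hD => ?_
      rw [if_neg]
      intro h
      exact hex ⟨D, hD, h⟩
  rw [hstep1]
  have hsub : U ⊆ U' := by
    intro u hu
    rw [hU, Finset.mem_filter, Finset.mem_Icc] at hu
    obtain ⟨⟨hu1, _⟩, D, hD, h⟩ := hu
    rw [Finset.mem_filter] at hD
    obtain ⟨⟨hD1, hD2, hD3⟩, hdD⟩ := And.intro ((hDD D).mp hD.1) hD.2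
    have hR : (u : ℝ) ^ 2 - (D : ℝ) * (v : ℝ) ^ 2 = 4 * n := by exact_mod_cast h
    have hu0 : (0 : ℝ) ≤ u := Nat.cast_nonneg _
    have hv2 : (0 : ℝ) < (v : ℝ) ^ 2 := by positivity
    have hua : a < (u : ℝ) := by
      rw [ha, Real.sqrt_lt' (by exact_mod_cast hu1)]
      nlinarith
    have hub : (u : ℝ) ≤ b := by
      rw [hb]
      apply Real.le_sqrt_of_sq_le
      nlinarith
    rw [hU', Finset.mem_filter, Finset.mem_range]
    refine ⟨Nat.lt_succ_of_le (Nat.le_floor hub), hua, hub, ?_⟩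
    rw [hmodiff]
    have h6 : u ^ 2 = 4 * n + D * v ^ 2 := by
      have : (u : ℤ) ^ 2 = 4 * n + D * (v : ℤ) ^ 2 := by linarith
      exact_mod_cast this
    rw [h6]
    have h8 : D ≡ r [MOD Qz z] := by
      rw [Nat.ModEq, hD3, Nat.mod_eq_of_lt hr]
    refine ⟨Nat.ModEq.add_left _ (Nat.ModEq.mul_right' _ h8), ?_⟩
    obtain ⟨k, hk⟩ := hdD
    rw [Nat.ModEq, hk, show 4 * n + d * k * v ^ 2 = 4 * n + (d * v ^ 2) * k by ring,
      Nat.add_mul_mod_self_left]
  have hUU' : ∑ u ∈ U, HH n u = ∑ u ∈ U', HH n u := by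
    refine Finset.sum_subset hsub ?_
    intro u hu hnu
    rw [hU', Finset.mem_filter, Finset.mem_range, hmodiff] at hu
    obtain ⟨_, hua, hub, hm1, hm2⟩ := hu
    have hu0 : (0 : ℝ) < u := lt_of_le_of_lt ha0 hua
    have hu1 : 1 ≤ u := by exact_mod_cast hu0
    have hsqa : 4 * (n : ℝ) + X * (v : ℝ) ^ 2 < (u : ℝ) ^ 2 := by
      rw [ha, Real.sqrt_lt' hu0] at hua
      exact hua
    have hsqb : (u : ℝ) ^ 2 ≤ 4 * (n : ℝ) + ((1 + η) * X) * (v : ℝ) ^ 2 := by
      have h9 := mul_self_le_mul_self hu0.le hub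
      rw [hb, Real.mul_self_sqrt (by positivity)] at h9
      nlinarith
    have hlt : 4 * n ≤ u ^ 2 := by
      have : (4 * (n : ℝ)) ≤ (u : ℝ) ^ 2 := by
        have : 0 ≤ (X : ℝ) * (v : ℝ) ^ 2 := by positivity
        linarith
      exact_mod_cast this
    obtain ⟨k, hk⟩ := (Nat.modEq_iff_dvd' hlt).mp hm2.symm
    have hk' : u ^ 2 = 4 * n + (d * k) * v ^ 2 := by
      have : u ^ 2 = 4 * n + (d * v ^ 2 * k) := by omega
      rw [this]; ring
    have hkR : (u : ℝ) ^ 2 = 4 * n + ((d * k : ℕ) : ℝ) * (v : ℝ) ^ 2 := by exact_mod_cast hk'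
    have hv2 : (0 : ℝ) < (v : ℝ) ^ 2 := by positivity
    have hex : (d * k) ∈ (DD z r X η).filter (fun D => d ∣ D) := by
      rw [Finset.mem_filter, hDD]
      refine ⟨⟨?_, ?_, ?_⟩, Dvd.intro _ rfl⟩
      · by_contra hcon
        push Not at hcon
        have := mul_le_mul_of_nonneg_right hcon hv2.le
        linarith
      · by_contra hcon
        push Not at hcon
        have := mul_lt_mul_of_pos_right hcon hv2
        linarith
      · have h10 : 4 * n + (d * k) * v ^ 2 ≡ 4 * n + r * v ^ 2 [MOD Qz z * v ^ 2] := by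
          rw [← hk']; exact hm1
        have h11 : (d * k) * v ^ 2 ≡ r * v ^ 2 [MOD Qz z * v ^ 2] := Nat.ModEq.add_left_cancel' _ h10
        have h12 : d * k ≡ r [MOD Qz z] :=
          Nat.ModEq.mul_right_cancel' (c := v ^ 2) (by positivity) h11
        rw [Nat.ModEq, Nat.mod_eq_of_lt hr] at h12
        exact h12
    apply HH_zero n u hn
    by_contra hcon
    push Not at hcon
    apply hnu
    rw [hU, Finset.mem_filter, Finset.mem_Icc]
    refine ⟨⟨hu1, hcon⟩, d * k, hex, ?_⟩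
    have : (u : ℤ) ^ 2 = 4 * n + ((d * k : ℕ) : ℤ) * (v : ℤ) ^ 2 := by exact_mod_cast hk'
    rw [this]; ring
  rw [hUU']
  have hmap : ∀ u ∈ U', u % (Qz z * (d * v ^ 2)) ∈ RS := by
    intro u hu
    rw [hU', Finset.mem_filter] at hu
    exact hu.2.2.2
  rw [← Finset.sum_fiberwise_of_maps_to hmap]
  have hfe : ∀ c ∈ RS, U'.filter (fun u => u % (Qz z * (d * v ^ 2)) = c) =
      UC a b (Qz z * (d * v ^ 2)) c := by
    intro c hc
    ext u
    rw [mem_UC, Finset.mem_filter, hU', Finset.mem_filter, Finset.mem_range]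
    constructor
    · rintro ⟨⟨_, h1, h2, _⟩, h3⟩
      exact ⟨h1, h2, h3⟩
    · rintro ⟨h1, h2, h3⟩
      exact ⟨⟨Nat.lt_succ_of_le (Nat.le_floor h2), h1, h2, by rw [h3]; exact hc⟩, h3⟩
  have hI := int_eq X n v η hη hX hn hv
  have hII : 1 / ((Qz z * (d * v ^ 2) : ℕ) : ℝ) * ∫ x in a..b, HH n x =
      om X η v n / (Qz z * d) := by
    rw [hI]
    push_cast
    field_simp
  have hfib : ∀ c ∈ RS, |(∑ u ∈ U'.filter (fun u => u % (Qz z * (d * v ^ 2)) = c), HH n (u : ℝ)) -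
      om X η v n / (Qz z * d)| ≤ 1 := by
    intro c hc
    rw [hfe c hc, ← hII]
    have hcm : c < Qz z * (d * v ^ 2) := by
      rw [hRS, Finset.mem_filter, Finset.mem_range] at hc
      exact hc.1
    have up := prog (HH n) a b hab (Qz z * (d * v ^ 2)) hm c (UC a b (Qz z * (d * v ^ 2)) c)
      (fun u hu => mem_UC.mp hu)
      (HH_anti n a b ha0) (fun x _ => phi_nonneg _) (fun x _ => phi_le_one _)
      (HH_cont n).continuousOn
    have lo := prog_low (HH n) a b ha0 hab (Qz z * (d * v ^ 2)) hm c hcm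
      (HH_anti n a b ha0) (fun x _ => phi_nonneg _) (fun x _ => phi_le_one _)
      (HH_cont n).continuousOn
    rw [abs_le]
    constructor <;> linarith
  have hfin : (∑ c ∈ RS, ∑ u ∈ U'.filter (fun u => u % (Qz z * (d * v ^ 2)) = c), HH n (u : ℝ)) -
      (RR z r n v d : ℝ) * (om X η v n / (Qz z * d)) =
      ∑ c ∈ RS, ((∑ u ∈ U'.filter (fun u => u % (Qz z * (d * v ^ 2)) = c), HH n (u : ℝ)) -
        om X η v n / (Qz z * d)) := by
    rw [Finset.sum_sub_distrib, Finset.sum_const, nsmul_eq_mul, hRR]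
  rw [hfin]
  refine (Finset.abs_sum_le_sum_abs _ _).trans ?_
  refine (Finset.sum_le_sum hfib).trans ?_
  rw [Finset.sum_const, nsmul_eq_mul, mul_one, hRR]

end Pool.Agent.H38R2.CG2
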