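import Pool.Agent.H52.V.S8.H38R2.CG2.Stubs

/-!
TE: the v with fixed part at the primes dividing Q
-/

set_option autoImplicit false

namespace Pool.Agent.H38R2.CG2

open Finset Filter NumberField Pool.Agent.H38R2.CG
open scoped Classical

namespace TEh

/-- the error term of P2_TD -/
noncomputable def EE (a : ℝ) (X k : ℕ) (l t : ℝ) (M f : ℕ) : ℝ :=
  ∑ ψ : DirichletCharacter ℂ M,
    (if ψ = 1 ∧ f = 1 then 0 else
      ‖∑ s ∈ (PA a X).powersetCard k, ∑ t' ∈ (PA a X).powersetCard k,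
        ψ (prodS s : ZMod M) * ((jacobiSym (prodS s : ℤ) f : ℤ) : ℂ) *
        (ψ (prodS t' : ZMod M) * ((jacobiSym (prodS t' : ℤ) f : ℤ) : ℂ)) *
        ((fej (l * (Real.log (prodS s) + Real.log (prodS t') - t)) : ℝ) : ℂ)‖)

theorem mem_PA {a : ℝ} {X p : ℕ} (hp : p ∈ PA a X) : p.Prime ∧ yA a X < p := by
  unfold PA PP at hp
  rw [Finset.mem_filter, Finset.mem_Ioc] at hp
  exact ⟨hp.2, hp.1.1⟩

theorem prodS_pos {a : ℝ} {X : ℕ} {s : Finset ℕ} (hs : s ⊆ PA a X) : 0 < prodS s :=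
  Finset.prod_pos fun _ hp => (mem_PA (hs hp)).1.pos

theorem large_y {a : ℝ} (ha : 2 < a) (z : ℕ) : ∃ X0 : ℕ, ∀ X ≥ X0, z ≤ yA a X := by
  have h1 : Tendsto (fun X : ℕ => (Real.log X) ^ a / 4) atTop atTop := by
    apply Tendsto.atTop_div_const (by norm_num)
    exact (tendsto_rpow_atTop (by linarith)).comp (Real.tendsto_log_atTop.comp
      tendsto_natCast_atTop_atTop)
  have h2 := h1.eventually_ge_atTop (z : ℝ)
  obtain ⟨X0, h⟩ := eventually_atTop.1 h2
  exact ⟨X0, fun X hX => Nat.le_floor (h X hX)⟩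

theorem Qz_pos (z : ℕ) : 0 < Qz z := by
  unfold Qz
  refine Nat.mul_pos (by norm_num) (Finset.prod_pos fun l hl => ?_)
  rw [Finset.mem_filter] at hl
  exact pow_pos hl.2.pos 2

theorem not_dvd_Qz {z p : ℕ} (hz : 2 ≤ z) (hp : p.Prime) (hzp : z < p) : ¬ p ∣ Qz z := by
  unfold Qz
  rw [hp.dvd_mul]
  rintro (h | h)
  · have h1 : p ∣ 2 ^ 4 := by simpa using h
    have h2 := hp.dvd_of_dvd_pow h1
    have := Nat.le_of_dvd (by norm_num) h2
    omega
  · rw [Prime.dvd_finsetProd_iff hp.prime] at h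
    obtain ⟨l, hl, hpl⟩ := h
    rw [Finset.mem_filter, Finset.mem_Icc] at hl
    have h2 := hp.dvd_of_dvd_pow hpl
    have := Nat.le_of_dvd hl.2.pos h2
    omega

theorem two_dvd_Qz (z : ℕ) : 2 ∣ Qz z := by
  unfold Qz
  exact Dvd.dvd.mul_right (by norm_num) _

theorem qpart_dvd {z v : ℕ} (hv : 1 ≤ v) : qpart z v ∣ v := by
  unfold qpart
  conv_rhs => rw [← Nat.prod_factorization_pow_eq_self (by omega : v ≠ 0)]
  rw [Finsupp.prod, Nat.support_factorization]
  exact Finset.prod_dvd_prod_of_subset _ _ _ (Finset.filter_subset _ _)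

theorem qpart_primes {z v p : ℕ} (hp : p.Prime) (h : p ∣ qpart z v) : p ∣ Qz z := by
  unfold qpart at h
  rw [Prime.dvd_finsetProd_iff hp.prime] at h
  obtain ⟨q, hq, hpq⟩ := h
  rw [Finset.mem_filter, Nat.mem_primeFactors] at hq
  have h2 := hp.dvd_of_dvd_pow hpq
  rw [(Nat.prime_dvd_prime_iff_eq hp hq.1.1).1 h2]
  exact hq.2

theorem log_prod {a : ℝ} {X k : ℕ} {s t' : Finset ℕ} (hs : s ∈ (PA a X).powersetCard k)
    (ht : t' ∈ (PA a X).powersetCard k) :
    Real.log ((prodS s * prodS t' : ℕ) : ℝ) = Real.log (prodS s) + Real.log (prodS t') := by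
  have h1 := prodS_pos (Finset.mem_powersetCard.1 hs).1
  have h2 := prodS_pos (Finset.mem_powersetCard.1 ht).1
  rw [Nat.cast_mul, Real.log_mul (by positivity) (by positivity)]

theorem SF_eq (a : ℝ) (X k : ℕ) (l t : ℝ) : SF a X k ∅ l t =
    ∑ s ∈ (PA a X).powersetCard k, ∑ t' ∈ (PA a X).powersetCard k,
      fej (l * (Real.log (prodS s) + Real.log (prodS t') - t)) := by
  unfold SF
  refine Finset.sum_congr rfl fun s hs => Finset.sum_congr rfl fun t' ht => ?_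
  have : prodS ∅ ^ 2 * (prodS s * prodS t') = prodS s * prodS t' := by simp [prodS]
  rw [this, log_prod hs ht]

theorem norm_le {a : ℝ} {X k : ℕ} {l t : ℝ} (h0 : ∀ h, 0 ≤ fej h) (c : Finset ℕ → ℂ)
    (hc : ∀ s, ‖c s‖ ≤ 1) :
    ‖∑ s ∈ (PA a X).powersetCard k, ∑ t' ∈ (PA a X).powersetCard k,
        c s * c t' * ((fej (l * (Real.log (prodS s) + Real.log (prodS t') - t)) : ℝ) : ℂ)‖ ≤
      SF a X k ∅ l t := by
  rw [SF_eq]
  refine (norm_sum_le _ _).trans (Finset.sum_le_sum fun s _ => ?_)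
  refine (norm_sum_le _ _).trans (Finset.sum_le_sum fun t' _ => ?_)
  rw [norm_mul, norm_mul, Complex.norm_real, Real.norm_eq_abs, abs_of_nonneg (h0 _)]
  have h1 : ‖c s‖ * ‖c t'‖ ≤ 1 := mul_le_one₀ (hc s) (norm_nonneg _) (hc t')
  exact mul_le_of_le_one_left (h0 _) h1

theorem norm_char {M f : ℕ} (ψ : DirichletCharacter ℂ M) (x : ℕ) :
    ‖ψ (x : ZMod M) * ((jacobiSym (x : ℤ) f : ℤ) : ℂ)‖ ≤ 1 := by
  rw [norm_mul]
  have h1 := DirichletCharacter.norm_le_one ψ (x : ZMod M)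
  have h2 : ‖((jacobiSym (x : ℤ) f : ℤ) : ℂ)‖ ≤ 1 := by
    rcases jacobiSym.trichotomy (x : ℤ) f with h | h | h <;> rw [h] <;> simp
  exact mul_le_one₀ h1 (norm_nonneg _) h2

/-- bound for the error term -/
theorem EE_le (hFS : P2_FS) (h0 : ∀ h, 0 ≤ fej h) {a : ℝ} {X k M f : ℕ} {l t b : ℝ} (hl : 0 < l)
    (hb0 : 0 ≤ b)
    (hb : ¬ BadF M (yA a X) f → ∀ ψ : DirichletCharacter ℂ M, ¬ (ψ = 1 ∧ f = 1) →
      ∀ ξ : ℝ, |ξ| ≤ l →
      ‖∑ s ∈ (PA a X).powersetCard k, ψ (prodS s : ZMod M) *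
      ((jacobiSym (prodS s : ℤ) f : ℤ) : ℂ) * Complex.exp (ξ * Real.log (prodS s) * Complex.I)‖ ≤ b)
    (hSF : 0 ≤ SF a X k ∅ l t) :
    EE a X k l t M f ≤ (Fintype.card (DirichletCharacter ℂ M) : ℝ) *
      (b ^ 2 + if BadF M (yA a X) f then SF a X k ∅ l t else 0) := by
  unfold EE
  have hterm : ∀ ψ ∈ (Finset.univ : Finset (DirichletCharacter ℂ M)),
      (if ψ = 1 ∧ f = 1 then 0 else
      ‖∑ s ∈ (PA a X).powersetCard k, ∑ t' ∈ (PA a X).powersetCard k,
        ψ (prodS s : ZMod M) * ((jacobiSym (prodS s : ℤ) f : ℤ) : ℂ) *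
        (ψ (prodS t' : ZMod M) * ((jacobiSym (prodS t' : ℤ) f : ℤ) : ℂ)) *
        ((fej (l * (Real.log (prodS s) + Real.log (prodS t') - t)) : ℝ) : ℂ)‖) ≤
      b ^ 2 + if BadF M (yA a X) f then SF a X k ∅ l t else 0 := by
    intro ψ _
    by_cases h1 : ψ = 1 ∧ f = 1
    · rw [if_pos h1]
      split_ifs <;> positivity
    · rw [if_neg h1]
      by_cases h2 : BadF M (yA a X) f
      · rw [if_pos h2]
        have h3 := norm_le (a := a) (X := X) (k := k) (l := l) (t := t) h0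
          (fun s => ψ (prodS s : ZMod M) * ((jacobiSym (prodS s : ℤ) f : ℤ) : ℂ))
          (fun s => norm_char ψ _)
        have h4 : 0 ≤ b ^ 2 := by positivity
        linarith
      · rw [if_neg h2, add_zero]
        exact hFS (Finset ℕ) ((PA a X).powersetCard k)
          (fun s => ψ (prodS s : ZMod M) * ((jacobiSym (prodS s : ℤ) f : ℤ) : ℂ))
          (fun s => Real.log (prodS s)) l t b hl hb0 (hb h2 ψ h1)
  refine (Finset.sum_le_sum hterm).trans (le_of_eq ?_)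
  rw [Finset.sum_const, nsmul_eq_mul, Finset.card_univ]

end TEh

open TEh

theorem T2_TE : P2_NB → P2_FJ → P2_FS → P2_JX → P2_KB → P2_HS → P2_CC7 → P2_NBAD → P2_TD →
    P2_TE := by
  intro _ hFJ hFS hJX hKB hHS hCC7 hNBAD hTD a ha z r hz hr C0 w hC0 hw l ε hl hε
  obtain ⟨_, hfej0, hfejc, _, _⟩ := hFJ
  set M : ℕ := Qz z * w ^ 2 with hM
  have hQ : 0 < Qz z := Qz_pos z
  have hM1 : 1 ≤ M := Nat.mul_pos hQ (pow_pos (by omega) 2)
  set K : ℝ := (Qz z * 8 * 2 ^ z : ℝ) with hK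
  have hK0 : 0 ≤ K := by positivity
  set Nc : ℝ := (Fintype.card (DirichletCharacter ℂ M) : ℝ) with hNc
  have hNc0 : 0 ≤ Nc := Nat.cast_nonneg _
  set ε' : ℝ := ε / (K * Nc + 1) with hε'
  have hKN : 0 < K * Nc + 1 := by positivity
  have hε'0 : 0 < ε' := by positivity
  have hKε : K * Nc * ε' ≤ ε := by
    rw [hε', ← mul_div_assoc, div_le_iff₀ hKN]
    nlinarith
  obtain ⟨X1, h1⟩ := hNBAD a ha M hM1 (2 * C0) 0 l ε' hl hε'0
  obtain ⟨X2, h2⟩ := hCC7 a ha M hM1 (2 * C0) ε' hε'0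
  obtain ⟨X3, h3⟩ := large_y ha z
  refine ⟨max (max X1 X2) (max X3 3), fun X hX ρ hρ V F I t hF hF0 hI hV => ?_⟩
  have hX1 : X1 ≤ X := (le_max_left _ _).trans ((le_max_left _ _).trans hX)
  have hX2 : X2 ≤ X := (le_max_right _ _).trans ((le_max_left _ _).trans hX)
  have hX3 : X3 ≤ X := (le_max_left _ _).trans ((le_max_right _ _).trans hX)
  have hX4 : 3 ≤ X := (le_max_right _ _).trans ((le_max_right _ _).trans hX)
  have hlogX : 0 < Real.log X := Real.log_pos (by exact_mod_cast (by omega : 1 < X))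
  have hGG : 0 < GG X ρ := lt_of_lt_of_le (by positivity) hρ.low
  have hI0 : 0 ≤ I := by simpa using hI 0 le_rfl
  have hSF : 0 ≤ SF a X (kA a X) ∅ l t := by
    rw [SF_eq]
    exact Finset.sum_nonneg fun s _ => Finset.sum_nonneg fun t' _ => hfej0 _
  set S : ℝ := SF a X (kA a X) ∅ l t with hS
  have hPA : ∀ p ∈ PA a X, p.Prime ∧ ¬ p ∣ Qz z := fun p hp =>
    ⟨(mem_PA hp).1, not_dvd_Qz hz (mem_PA hp).1 ((h3 X hX3).trans_lt (mem_PA hp).2)⟩
  obtain ⟨b, hb0, hb, hbb⟩ := h1 X hX1 (kA a X) (Nat.sub_le _ _) le_rfl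
  have hNA : CA a X (kA a X) = NA a X := rfl
  rw [hNA] at hb
  set Vs : Finset ℕ := (Finset.Icc 1 V).filter (fun v => qpart z v = w) with hVs
  by_cases hex : Vs = ∅
  · rw [hex, Finset.sum_empty, Finset.sum_empty]
    have : 0 ≤ ε * I * (S + NA a X ^ 2 / Real.log X) := by positivity
    have h5 : 0 ≤ GG X ρ * (ε * I * (S + NA a X ^ 2 / Real.log X)) := mul_nonneg hGG.le this
    linarith
  obtain ⟨v0, hv0⟩ := Finset.nonempty_iff_ne_empty.2 hex
  rw [hVs, Finset.mem_filter, Finset.mem_Icc] at hv0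
  have hwQ : ∀ p : ℕ, p.Prime → p ∣ w → p ∣ Qz z := by
    intro p hp hpw
    rw [← hv0.2] at hpw
    exact qpart_primes hp hpw
  set Fs : Finset ℕ := (Finset.Icc 1 X).filter
      (fun f => Squarefree f ∧ f.Coprime (Qz z) ∧ ∀ p ∈ (∅ : Finset ℕ), ¬ p ∣ f) with hFs
  have hFsm : ∀ f ∈ Fs, 1 ≤ f ∧ f ≤ X ∧ Squarefree f ∧ f.Coprime (Qz z) := by
    intro f hf
    rw [hFs, Finset.mem_filter, Finset.mem_Icc] at hf
    exact ⟨hf.1.1, hf.1.2, hf.2.1, hf.2.2.1⟩
  have hfw : ∀ f ∈ Fs, f.Coprime w := by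
    intro f hf
    obtain ⟨_, _, _, hc⟩ := hFsm f hf
    rw [Nat.coprime_iff_gcd_eq_one]
    by_contra hne
    obtain ⟨p, hp, hpd⟩ := Nat.exists_prime_and_dvd hne
    have hpf := hpd.trans (Nat.gcd_dvd_left _ _)
    have hpw := hpd.trans (Nat.gcd_dvd_right _ _)
    exact hp.one_lt.ne' (Nat.dvd_one.1 (hc ▸ Nat.dvd_gcd hpf (hwQ p hp hpw)))
  have hf2M : ∀ f ∈ Fs, f.Coprime (2 * M) := by
    intro f hf
    obtain ⟨_, _, _, hc⟩ := hFsm f hf
    refine Nat.Coprime.mul_right (Nat.Coprime.coprime_dvd_right (two_dvd_Qz z) hc) ?_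
    exact Nat.Coprime.mul_right hc (Nat.Coprime.pow_right 2 (hfw f hf))
  have h1Fs : 1 ∈ Fs := by
    rw [hFs, Finset.mem_filter, Finset.mem_Icc]
    exact ⟨⟨le_rfl, by omega⟩, squarefree_one, Nat.coprime_one_left _, by simp⟩
  -- one v
  have hkap1 : ∀ v, kap X ρ 1 v = GG X ρ := by
    intro v
    unfold kap GG
    congr 1
    rw [Finset.filter_eq_self]
    intro d _
    simp
  have hone : ∀ v ∈ Vs, ∑ s ∈ SA a X, ∑ t' ∈ SA a X, (rhoQ z r (prodS s * prodS t') v : ℝ) *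
      JJ z X ρ ∅ (prodS s * prodS t') v *
      fej (l * (Real.log (prodS s * prodS t' : ℕ) - t)) ≤
      GG X ρ * rbar z r v * S + K * ∑ f ∈ Fs, |kap X ρ f v| * EE a X (kA a X) l t M f := by
    intro v hv
    rw [hVs, Finset.mem_filter, Finset.mem_Icc] at hv
    obtain ⟨⟨hv1, hvV⟩, hqv⟩ := hv
    have hvX : (v : ℝ) * (X : ℝ) ^ (cc a) ≤ X := by
      have hX0 : (0 : ℝ) < X := by exact_mod_cast (by omega : 0 < X)
      have h5 : (v : ℝ) ≤ (X : ℝ) ^ (1 - cc a) := le_trans (by exact_mod_cast hvV) hV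
      calc (v : ℝ) * (X : ℝ) ^ (cc a) ≤ (X : ℝ) ^ (1 - cc a) * (X : ℝ) ^ (cc a) := by gcongr
        _ = X := by rw [← Real.rpow_add hX0]; simp
    have hJ : ∀ s t' : Finset ℕ, JJ z X ρ ∅ (prodS s * prodS t') v =
        ∑ f ∈ Fs, ((jacobiSym ((prodS s * prodS t' : ℕ) : ℤ) f : ℤ) : ℝ) * kap X ρ f v := by
      intro s t'
      rw [hJX z X (PA a X) (cc a) C0 ρ ∅ (prodS s * prodS t') v hρ (Finset.empty_subset _) hPA hv1
        hvX]
      simp [tau, hFs]
    have hTD' : ∀ f : ℕ, |(∑ s ∈ SA a X, ∑ t' ∈ SA a X,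
        (rhoQ z r (prodS s * prodS t') v : ℝ) *
        ((jacobiSym ((prodS s * prodS t' : ℕ) : ℤ) f : ℤ) : ℝ) *
        fej (l * (Real.log (prodS s * prodS t' : ℕ) - t))) -
        (if f = 1 then rbar z r v * S else 0)| ≤ K * EE a X (kA a X) l t M f := by
      intro f
      have h6 := hTD z r v f X (kA a X) a l t hz hr hv1 fun p hp => (hPA p hp).2
      have h7 : |(∑ s ∈ SA a X, ∑ t' ∈ SA a X,
        (rhoQ z r (prodS s * prodS t') v : ℝ) *
        ((jacobiSym ((prodS s * prodS t' : ℕ) : ℤ) f : ℤ) : ℝ) *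
        fej (l * (Real.log (prodS s * prodS t' : ℕ) - t))) -
        (if f = 1 then rbar z r v * S else 0)| ≤
          K * EE a X (kA a X) l t (Qz z * (qpart z v) ^ 2) f := h6
      rw [hqv] at h7
      exact h7
    have hexp : ∑ s ∈ SA a X, ∑ t' ∈ SA a X, (rhoQ z r (prodS s * prodS t') v : ℝ) *
      JJ z X ρ ∅ (prodS s * prodS t') v *
      fej (l * (Real.log (prodS s * prodS t' : ℕ) - t)) =
      ∑ f ∈ Fs, kap X ρ f v * ∑ s ∈ SA a X, ∑ t' ∈ SA a X,
        (rhoQ z r (prodS s * prodS t') v : ℝ) *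
        ((jacobiSym ((prodS s * prodS t' : ℕ) : ℤ) f : ℤ) : ℝ) *
        fej (l * (Real.log (prodS s * prodS t' : ℕ) - t)) := by
      have e1 : ∀ s ∈ SA a X, ∑ t' ∈ SA a X, (rhoQ z r (prodS s * prodS t') v : ℝ) *
          JJ z X ρ ∅ (prodS s * prodS t') v *
          fej (l * (Real.log (prodS s * prodS t' : ℕ) - t)) =
          ∑ f ∈ Fs, ∑ t' ∈ SA a X, kap X ρ f v * ((rhoQ z r (prodS s * prodS t') v : ℝ) *
          ((jacobiSym ((prodS s * prodS t' : ℕ) : ℤ) f : ℤ) : ℝ) *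
          fej (l * (Real.log (prodS s * prodS t' : ℕ) - t))) := by
        intro s _
        rw [Finset.sum_comm]
        refine Finset.sum_congr rfl fun t' _ => ?_
        rw [hJ, Finset.mul_sum, Finset.sum_mul]
        exact Finset.sum_congr rfl fun f _ => by ring
      rw [Finset.sum_congr rfl e1, Finset.sum_comm]
      refine Finset.sum_congr rfl fun f _ => ?_
      rw [Finset.mul_sum]
      exact Finset.sum_congr rfl fun s _ => by rw [Finset.mul_sum]
    rw [hexp]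
    have hle : ∀ f ∈ Fs, kap X ρ f v * ∑ s ∈ SA a X, ∑ t' ∈ SA a X,
        (rhoQ z r (prodS s * prodS t') v : ℝ) *
        ((jacobiSym ((prodS s * prodS t' : ℕ) : ℤ) f : ℤ) : ℝ) *
        fej (l * (Real.log (prodS s * prodS t' : ℕ) - t)) ≤
        kap X ρ f v * (if f = 1 then rbar z r v * S else 0) +
          |kap X ρ f v| * (K * EE a X (kA a X) l t M f) := by
      intro f _
      have h8 := hTD' f
      set A := ∑ s ∈ SA a X, ∑ t' ∈ SA a X,
        (rhoQ z r (prodS s * prodS t') v : ℝ) *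
        ((jacobiSym ((prodS s * prodS t' : ℕ) : ℤ) f : ℤ) : ℝ) *
        fej (l * (Real.log (prodS s * prodS t' : ℕ) - t)) with hA
      set B := (if f = 1 then rbar z r v * S else 0) with hB
      have h9 : kap X ρ f v * (A - B) ≤ |kap X ρ f v| * (K * EE a X (kA a X) l t M f) := by
        calc kap X ρ f v * (A - B) ≤ |kap X ρ f v * (A - B)| := le_abs_self _
          _ = |kap X ρ f v| * |A - B| := abs_mul _ _
          _ ≤ _ := mul_le_mul_of_nonneg_left h8 (abs_nonneg _)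
      linarith
    refine (Finset.sum_le_sum hle).trans (le_of_eq ?_)
    rw [Finset.sum_add_distrib]
    congr 1
    · rw [Finset.sum_eq_single_of_mem 1 h1Fs]
      · rw [if_pos rfl, hkap1]; ring
      · intro f _ hf1
        rw [if_neg hf1, mul_zero]
    · rw [Finset.mul_sum]
      exact Finset.sum_congr rfl fun f _ => by ring
  -- the sum over v
  have hKB' : ∀ f ∈ Fs, ∑ v ∈ Vs, F v * |kap X ρ f v| ≤
      ((2 * C0 : ℕ) : ℝ) ^ f.primeFactors.card / f * (GG X ρ * (I / w)) := by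
    intro f hf
    obtain ⟨hf1, _, hfs, _⟩ := hFsm f hf
    have h6 := hKB z X V f w (PA a X) (cc a) C0 ρ ∅ F I hρ hC0 hw hf1 hfs (hfw f hf).symm
      (by simp) hF hF0 hI
    have h7 : ∑ v ∈ Vs, F v * |kap X ρ f v| ≤
        ∑ v ∈ (Finset.Icc 1 V).filter (fun v => w ∣ v), F v * (tau ∅ v * |kap X ρ f v|) := by
      have e1 : ∑ v ∈ (Finset.Icc 1 V).filter (fun v => w ∣ v), F v * (tau ∅ v * |kap X ρ f v|) =
          ∑ v ∈ (Finset.Icc 1 V).filter (fun v => w ∣ v), F v * |kap X ρ f v| :=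
        Finset.sum_congr rfl fun v _ => by simp [tau]
      rw [e1]
      refine Finset.sum_le_sum_of_subset_of_nonneg ?_ fun v _ _ =>
        mul_nonneg (hF0 _) (abs_nonneg _)
      intro v hv
      rw [hVs, Finset.mem_filter, Finset.mem_Icc] at hv
      rw [Finset.mem_filter, Finset.mem_Icc]
      exact ⟨hv.1, hv.2 ▸ qpart_dvd hv.1.1⟩
    refine h7.trans (h6.trans (le_of_eq ?_))
    push_cast
    simp
    ring
  have hEE : ∀ f ∈ Fs, EE a X (kA a X) l t M f ≤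
      Nc * (b ^ 2 + if BadF M (yA a X) f then S else 0) := by
    intro f hf
    obtain ⟨hf1, _, hfs, _⟩ := hFsm f hf
    exact EE_le hFS hfej0 hl hb0 (fun hnb ψ hψ ξ hξ => hbb ψ f hfs (hf2M f hf) hψ hnb ξ hξ) hSF
  set T : ℝ := GG X ρ * (I / w) with hT
  have hT0 : 0 ≤ T := mul_nonneg hGG.le (div_nonneg hI0 (Nat.cast_nonneg _))
  have hTI : T ≤ GG X ρ * I := by
    refine mul_le_mul_of_nonneg_left ?_ hGG.le
    exact div_le_self hI0 (by exact_mod_cast hw)
  have hEE0 : ∀ f, 0 ≤ EE a X (kA a X) l t M f := fun f => by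
    unfold EE
    refine Finset.sum_nonneg fun ψ _ => ?_
    split_ifs
    · exact le_rfl
    · exact norm_nonneg _
  have hsum1 : ∑ f ∈ Fs, EE a X (kA a X) l t M f * ∑ v ∈ Vs, F v * |kap X ρ f v| ≤
      Nc * T * (b ^ 2 * (1 + Real.log X) ^ (2 * C0) + S * ε') := by
    have hs1 : ∑ f ∈ Fs, ((2 * C0 : ℕ) : ℝ) ^ f.primeFactors.card / f ≤
        (1 + Real.log X) ^ (2 * C0) := by
      refine le_trans (Finset.sum_le_sum_of_subset_of_nonneg ?_ fun f _ _ => by positivity)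
        (hHS (2 * C0) X (by omega))
      intro f hf
      obtain ⟨hf1, hfX, hfs, _⟩ := hFsm f hf
      rw [Finset.mem_filter, Finset.mem_Icc]
      exact ⟨⟨hf1, hfX⟩, hfs⟩
    have hs2 : ∑ f ∈ Fs, (if BadF M (yA a X) f then
        ((2 * C0 : ℕ) : ℝ) ^ f.primeFactors.card / f else 0) ≤ ε' := by
      rw [← Finset.sum_filter]
      refine le_trans (Finset.sum_le_sum_of_subset_of_nonneg ?_ fun f _ _ => by positivity)
        (h2 X hX2)
      intro f hf
      rw [Finset.mem_filter] at hf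
      obtain ⟨hf1, hfX, hfs, _⟩ := hFsm f hf.1
      rw [Finset.mem_filter, Finset.mem_Icc]
      exact ⟨⟨hf1, hfX⟩, hfs, hf2M f hf.1, hf.2⟩
    calc ∑ f ∈ Fs, EE a X (kA a X) l t M f * ∑ v ∈ Vs, F v * |kap X ρ f v|
        ≤ ∑ f ∈ Fs, Nc * (b ^ 2 + if BadF M (yA a X) f then S else 0) *
          (((2 * C0 : ℕ) : ℝ) ^ f.primeFactors.card / f * T) := by
          refine Finset.sum_le_sum fun f hf => ?_
          refine mul_le_mul (hEE f hf) (hKB' f hf)
            (Finset.sum_nonneg fun v _ => mul_nonneg (hF0 _) (abs_nonneg _)) ?_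
          refine mul_nonneg hNc0 ?_
          split_ifs <;> positivity
      _ = Nc * T * (b ^ 2 * ∑ f ∈ Fs, ((2 * C0 : ℕ) : ℝ) ^ f.primeFactors.card / f +
          S * ∑ f ∈ Fs, (if BadF M (yA a X) f then
            ((2 * C0 : ℕ) : ℝ) ^ f.primeFactors.card / f else 0)) := by
          rw [Finset.mul_sum, Finset.mul_sum, ← Finset.sum_add_distrib, Finset.mul_sum]
          refine Finset.sum_congr rfl fun f _ => ?_
          split_ifs <;> ring
      _ ≤ Nc * T * (b ^ 2 * (1 + Real.log X) ^ (2 * C0) + S * ε') := by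
          refine mul_le_mul_of_nonneg_left ?_ (mul_nonneg hNc0 hT0)
          exact add_le_add (mul_le_mul_of_nonneg_left hs1 (sq_nonneg b))
            (mul_le_mul_of_nonneg_left hs2 hSF)
  calc ∑ v ∈ Vs, F v * ∑ s ∈ SA a X, ∑ t' ∈ SA a X, (rhoQ z r (prodS s * prodS t') v : ℝ) *
      JJ z X ρ ∅ (prodS s * prodS t') v * fej (l * (Real.log (prodS s * prodS t' : ℕ) - t))
      ≤ ∑ v ∈ Vs, F v * (GG X ρ * rbar z r v * S +
          K * ∑ f ∈ Fs, |kap X ρ f v| * EE a X (kA a X) l t M f) :=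
        Finset.sum_le_sum fun v hv => mul_le_mul_of_nonneg_left (hone v hv) (hF0 _)
    _ = GG X ρ * (∑ v ∈ Vs, F v * rbar z r v) * S +
          K * ∑ f ∈ Fs, EE a X (kA a X) l t M f * ∑ v ∈ Vs, F v * |kap X ρ f v| := by
        have e1 : ∑ f ∈ Fs, EE a X (kA a X) l t M f * ∑ v ∈ Vs, F v * |kap X ρ f v| =
            ∑ v ∈ Vs, F v * ∑ f ∈ Fs, |kap X ρ f v| * EE a X (kA a X) l t M f := by
          simp_rw [Finset.mul_sum]
          rw [Finset.sum_comm]
          exact Finset.sum_congr rfl fun v _ => Finset.sum_congr rfl fun f _ => by ring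
        rw [e1, Finset.mul_sum, Finset.mul_sum, Finset.sum_mul, ← Finset.sum_add_distrib]
        exact Finset.sum_congr rfl fun v _ => by ring
    _ ≤ GG X ρ * (∑ v ∈ Vs, F v * rbar z r v) * S +
          K * (Nc * T * (b ^ 2 * (1 + Real.log X) ^ (2 * C0) + S * ε')) :=
        add_le_add le_rfl (mul_le_mul_of_nonneg_left hsum1 hK0)
    _ ≤ GG X ρ * (∑ v ∈ Vs, F v * rbar z r v) * S +
          K * (Nc * T * (ε' / Real.log X * NA a X ^ 2 + S * ε')) := by
        refine add_le_add le_rfl (mul_le_mul_of_nonneg_left ?_ hK0)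
        refine mul_le_mul_of_nonneg_left ?_ (mul_nonneg hNc0 hT0)
        exact add_le_add hb le_rfl
    _ = GG X ρ * (∑ v ∈ Vs, F v * rbar z r v) * S +
          K * Nc * ε' * (T * (S + NA a X ^ 2 / Real.log X)) := by ring
    _ ≤ GG X ρ * (∑ v ∈ Vs, F v * rbar z r v) * S +
          ε * (GG X ρ * I * (S + NA a X ^ 2 / Real.log X)) := by
        have h10 : 0 ≤ S + NA a X ^ 2 / Real.log X := by positivity
        refine add_le_add le_rfl ?_
        refine mul_le_mul hKε (mul_le_mul_of_nonneg_right hTI h10) (mul_nonneg hT0 h10) hε.le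
    _ = GG X ρ * ((∑ v ∈ Vs, F v * rbar z r v) * S +
        ε * I * (S + NA a X ^ 2 / Real.log X)) := by ring

end Pool.Agent.H38R2.CG2
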