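import Pool.Agent.H52.V.S8.H38R2.CG2.Stubs
import Pool.Agent.H52.V.S8.H38R2.CG.TM

/-!
# Class group project, part 2, task TM: the near collision bound
-/

set_option autoImplicit false

namespace Pool.Agent.H38R2.CG2

open Finset Filter NumberField Pool.Agent.H38R2.CG
open scoped Classical

namespace TMh

/-- sums over subsets depending only on the cardinality -/
theorem sum_card (P : Finset ℕ) (k j : ℕ) (hk : k ≤ P.card) (w : ℕ → ℝ) :
    ∑ c ∈ P.powerset.filter (fun c => c.card ≤ k), (if j ≤ c.card then w c.card else 0) =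
      ∑ i ∈ Finset.Icc j k, (P.card.choose i : ℝ) * w i := by
  rw [Finset.sum_filter]
  have h1 : ∀ c ∈ P.powerset, (if c.card ≤ k then (if j ≤ c.card then w c.card else 0) else 0) =
      (fun i => if i ≤ k then (if j ≤ i then w i else 0) else 0) c.card := fun c _ => rfl
  rw [Finset.sum_congr rfl h1, Finset.sum_powerset_apply_card
    (fun i => if i ≤ k then (if j ≤ i then w i else 0) else 0)]
  rw [← Finset.sum_subset (s₁ := Finset.Icc j k)]
  · refine Finset.sum_congr rfl fun i hi => ?_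
    rw [Finset.mem_Icc] at hi
    simp only [hi.1, hi.2, if_true, nsmul_eq_mul]
  · intro i hi
    rw [Finset.mem_Icc] at hi
    rw [Finset.mem_range]
    omega
  · intro i _ hi
    rw [Finset.mem_Icc, not_and_or] at hi
    rcases hi with hi | hi
    · simp only [hi, if_false, ite_self, smul_zero]
    · simp only [hi, if_false, smul_zero]

theorem cc_pos {a : ℝ} (ha : 2 < a) : 0 < cc a := by
  unfold cc
  have : 0 < a - 2 := by linarith
  have : 0 < a - 1 := by linarith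
  positivity

theorem cc_le {a : ℝ} (ha : 2 < a) : cc a ≤ 1 / 32 := by
  unfold cc
  rw [div_le_div_iff₀ (by linarith) (by norm_num)]
  linarith

theorem mem_PA {a : ℝ} {X p : ℕ} (hp : p ∈ PA a X) : p.Prime ∧ yA a X < p := by
  unfold PA PP at hp
  rw [Finset.mem_filter, Finset.mem_Ioc] at hp
  exact ⟨hp.2, hp.1.1⟩

theorem prodS_pos {a : ℝ} {X : ℕ} {s : Finset ℕ} (hs : s ⊆ PA a X) : 0 < prodS s :=
  Finset.prod_pos fun _ hp => (mem_PA (hs hp)).1.pos

theorem yA_large {a : ℝ} (ha : 2 < a) (z : ℕ) : ∃ X0 : ℕ, ∀ X ≥ X0, z ≤ yA a X := by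
  have h : Tendsto (fun X : ℕ => (Real.log X) ^ a / 4) atTop atTop := by
    refine Tendsto.atTop_div_const (by norm_num) ?_
    exact (tendsto_rpow_atTop (by linarith)).comp
      (Real.tendsto_log_atTop.comp tendsto_natCast_atTop_atTop)
  obtain ⟨X0, h0⟩ := (h.eventually_ge_atTop (z : ℝ)).exists_forall_of_atTop
  exact ⟨X0, fun X hX => Nat.le_floor (h0 X hX)⟩

theorem prod_split (s t : Finset ℕ) :
    prodS s * prodS t = prodS (s ∩ t) ^ 2 * (prodS (s \ t) * prodS (t \ s)) := by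
  have h1 : prodS s = prodS (s ∩ t) * prodS (s \ t) := by
    unfold prodS
    rw [← Finset.prod_union (Finset.disjoint_sdiff_inter s t).symm,
      Finset.union_comm, Finset.sdiff_union_inter]
  have h2 : prodS t = prodS (s ∩ t) * prodS (t \ s) := by
    unfold prodS
    rw [Finset.inter_comm, ← Finset.prod_union (Finset.disjoint_sdiff_inter t s).symm,
      Finset.union_comm, Finset.sdiff_union_inter]
  rw [h1, h2]
  ring

theorem MT_nonneg (hTB2 : P_TB2) (hJP : P2_JP) {a : ℝ} {z r X C0 : ℕ} {η : ℝ} {ρ : ℕ → ℝ}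
    (hX : 1 ≤ X) (hη : 0 < η) (hη1 : η ≤ 1) (hρ : SWt z X (PA a X) (cc a) C0 ρ)
    {c s t : Finset ℕ} (hc : c ⊆ PA a X) (hs : s ⊆ PA a X) (ht : t ⊆ PA a X) :
    0 ≤ MT a z r X η ρ c s t := by
  unfold MT
  refine Finset.sum_nonneg fun v _ => ?_
  have hn : (0 : ℝ) < ((prodS c ^ 2 * (prodS s * prodS t) : ℕ) : ℝ) := by
    exact_mod_cast Nat.mul_pos (pow_pos (prodS_pos hc) 2) (Nat.mul_pos (prodS_pos hs)
      (prodS_pos ht))
  have h1 := (hTB2 X η hX hη hη1 _ hn).2.1 v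
  have h2 := hJP z X (PA a X) (cc a) C0 ρ c (prodS s * prodS t) v hρ
  positivity

/-- the number of v -/
theorem VV_le {a : ℝ} (ha : 2 < a) {X : ℕ} (hX : 4 ≤ X) {s t : Finset ℕ}
    (hs : (prodS s : ℝ) ≤ (X : ℝ) ^ (th a + cc a)) (ht : (prodS t : ℝ) ≤ (X : ℝ) ^ (th a + cc a)) :
    ⌊2 * √(((prodS s * prodS t : ℕ) : ℝ) / X)⌋₊ ≤ ⌊(X : ℝ) ^ (1 - cc a)⌋₊ := by
  refine Nat.floor_le_floor ?_
  have hXR : (4 : ℝ) ≤ X := by exact_mod_cast hX
  have hX0 : (0 : ℝ) < X := by linarith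
  have hc := cc_pos ha
  have hc1 := cc_le ha
  have h1 : ((prodS s * prodS t : ℕ) : ℝ) ≤ (X : ℝ) ^ (2 - 14 * cc a) := by
    push_cast
    refine (mul_le_mul hs ht (Nat.cast_nonneg _) (by positivity)).trans ?_
    rw [← Real.rpow_add hX0]
    refine Real.rpow_le_rpow_of_exponent_le (by linarith) ?_
    unfold th
    linarith
  have h2 : ((prodS s * prodS t : ℕ) : ℝ) / X ≤ (X : ℝ) ^ (1 - 14 * cc a) := by
    rw [div_le_iff₀ hX0]
    refine h1.trans (le_of_eq ?_)
    nth_rewrite 3 [← Real.rpow_one (X : ℝ)]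
    rw [← Real.rpow_add hX0]
    congr 1
    ring
  have h3 : √(((prodS s * prodS t : ℕ) : ℝ) / X) ≤ (X : ℝ) ^ (1 / 2 - 7 * cc a) := by
    rw [Real.sqrt_le_left (by positivity)]
    refine h2.trans (le_of_eq ?_)
    rw [← Real.rpow_natCast, ← Real.rpow_mul hX0.le]
    congr 1
    push_cast
    ring
  have h4 : (2 : ℝ) ≤ (X : ℝ) ^ (1 / 2 + 6 * cc a) := by
    calc (2 : ℝ) = (4 : ℝ) ^ (1 / 2 : ℝ) := by
          rw [← Real.sqrt_eq_rpow]
          rw [show (4 : ℝ) = 2 ^ 2 by norm_num, Real.sqrt_sq (by norm_num)]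
      _ ≤ (X : ℝ) ^ (1 / 2 : ℝ) := Real.rpow_le_rpow (by norm_num) hXR (by norm_num)
      _ ≤ (X : ℝ) ^ (1 / 2 + 6 * cc a) :=
          Real.rpow_le_rpow_of_exponent_le (by linarith) (by linarith)
  calc 2 * √(((prodS s * prodS t : ℕ) : ℝ) / X)
      ≤ (X : ℝ) ^ (1 / 2 + 6 * cc a) * (X : ℝ) ^ (1 / 2 - 7 * cc a) :=
        mul_le_mul h4 h3 (Real.sqrt_nonneg _) (by positivity)
    _ = (X : ℝ) ^ (1 - cc a) := by
        rw [← Real.rpow_add hX0]
        congr 1
        ring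

/-- one pair of sets -/
theorem pair_bound (hTB2 : P_TB2) (hT1 : P2_T1) (hT2 : P2_T2) (hJP : P2_JP) {a : ℝ} (ha : 2 < a)
    {z r X C0 : ℕ} {η : ℝ} {ρ : ℕ → ℝ} (hr : r < Qz z)
    (hX : 4 ≤ X) (hη : 0 < η) (hη1 : η ≤ 1) (hρ : SWt z X (PA a X) (cc a) C0 ρ)
    (hP : ∀ p ∈ PA a X, p.Prime ∧ ¬ p ∣ Qz z) {s t : Finset ℕ} (hs : s ⊆ PA a X)
    (ht : t ⊆ PA a X) (hs1 : (prodS s : ℝ) ≤ (X : ℝ) ^ (th a + cc a))
    (ht1 : (prodS t : ℝ) ≤ (X : ℝ) ^ (th a + cc a)) :
    ∑ D ∈ DD z r X η, wt ρ D * Rsum D (prodS s * prodS t) ≤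
      ((if IsSquare (prodS s * prodS t) then ∑ D ∈ DD z r X η, wt ρ D else 0) +
      2 * ∑ v ∈ Finset.Icc 1 ⌊2 * √(((prodS s * prodS t : ℕ) : ℝ) / X)⌋₊,
        ∑ d ∈ Finset.Icc 1 X, |ρ d| * (RR z r (prodS s * prodS t) v d : ℝ)) +
      2 * MT a z r X η ρ (s ∩ t) (s \ t) (t \ s) := by
  have hX1 : 1 ≤ X := by omega
  have hn1 : 1 ≤ prodS s * prodS t := Nat.mul_pos (prodS_pos hs) (prodS_pos ht)
  have hcc := cc_le ha
  have h1 := hT1 z r X (prodS s * prodS t) η (PA a X) (cc a) C0 ρ hr hη hη1 hX1 hn1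
    (by linarith) hρ
  rw [Finset.sum_add_distrib, mul_add] at h1
  have hic : s ∩ t ⊆ PA a X := Finset.inter_subset_left.trans hs
  have hsc : s \ t ⊆ PA a X := Finset.sdiff_subset.trans hs
  have htc : t \ s ⊆ PA a X := Finset.sdiff_subset.trans ht
  have hd1 : Disjoint (s ∩ t) (s \ t) := (Finset.disjoint_sdiff_inter s t).symm
  have hd2 : Disjoint (s ∩ t) (t \ s) := by
    rw [Finset.inter_comm]
    exact (Finset.disjoint_sdiff_inter t s).symm
  have hd3 : Disjoint (s \ t) (t \ s) := by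
    rw [Finset.disjoint_left]
    intro x hx hx2
    rw [Finset.mem_sdiff] at hx hx2
    exact hx.2 hx2.1
  have hQ : (0 : ℝ) < Qz z := by exact_mod_cast Pool.Agent.H38R2.CG.TMh.Qz_pos z
  have hn : (0 : ℝ) < ((prodS s * prodS t : ℕ) : ℝ) := by exact_mod_cast hn1
  have hom := (hTB2 X η hX1 hη hη1 _ hn).2.1
  have h2 : ∑ v ∈ Finset.Icc 1 ⌊2 * √(((prodS s * prodS t : ℕ) : ℝ) / X)⌋₊,
      om X η v (prodS s * prodS t : ℕ) / Qz z *
        ∑ d ∈ Finset.Icc 1 X, ρ d / d * (RR z r (prodS s * prodS t) v d : ℝ) ≤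
      MT a z r X η ρ (s ∩ t) (s \ t) (t \ s) := by
    unfold MT
    have hterm : ∀ v ∈ Finset.Icc 1 ⌊2 * √(((prodS s * prodS t : ℕ) : ℝ) / X)⌋₊,
        om X η v (prodS s * prodS t : ℕ) / Qz z *
          ∑ d ∈ Finset.Icc 1 X, ρ d / d * (RR z r (prodS s * prodS t) v d : ℝ) ≤
        om X η v (prodS (s ∩ t) ^ 2 * (prodS (s \ t) * prodS (t \ s)) : ℕ) / Qz z *
        ((rhoQ z r (prodS (s ∩ t) ^ 2 * (prodS (s \ t) * prodS (t \ s))) v : ℝ) *
          JJ z X ρ (s ∩ t) (prodS (s \ t) * prodS (t \ s)) v) := by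
      intro v hv
      have hv1 := (Finset.mem_Icc.1 hv).1
      have h3 := hT2 z r X v (PA a X) (cc a) C0 ρ (s ∩ t) (s \ t) (t \ s) hv1 hρ hP hic hsc htc
        hd1 hd2 hd3
      rw [← prod_split] at h3 ⊢
      have h4 := hom v
      exact mul_le_mul_of_nonneg_left h3 (by positivity)
    refine (Finset.sum_le_sum hterm).trans ?_
    refine Finset.sum_le_sum_of_subset_of_nonneg
      (Finset.Icc_subset_Icc_right (VV_le ha hX hs1 ht1)) ?_
    intro v _ _
    have h3 := hJP z X (PA a X) (cc a) C0 ρ (s ∩ t) (prodS (s \ t) * prodS (t \ s)) v hρ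
    rw [← prod_split]
    have h4 := hom v
    positivity
  linarith

/-- the error terms -/
theorem err_small {a : ℝ} (ha : 2 < a) (C0 : ℕ) (K : ℝ) (ε : ℝ) (hε : 0 < ε) :
    ∃ i0 : ℕ, ∃ X0 : ℕ, ∀ X ≥ X0, ∀ u : ℝ, 0 ≤ u →
      u ≤ 24 * (Real.log X) ^ (-((a - 2) / 2)) →
      K * (u ^ (0 + 1) * Real.exp u) ≤ ε ∧
      K * ((1 + Real.log X) ^ (2 * C0) * (u ^ (i0 + 1) * Real.exp u)) ≤ ε := by
  have hb : 0 < (a - 2) / 2 := by linarith
  obtain ⟨i0, hi0⟩ := exists_nat_gt ((2 * C0 : ℝ) / ((a - 2) / 2))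
  rw [div_lt_iff₀ hb] at hi0
  refine ⟨i0, ?_⟩
  have hlog : Tendsto (fun X : ℕ => Real.log X) atTop atTop :=
    Real.tendsto_log_atTop.comp tendsto_natCast_atTop_atTop
  have hu : Tendsto (fun X : ℕ => 24 * (Real.log X) ^ (-((a - 2) / 2))) atTop (nhds 0) := by
    have := ((tendsto_rpow_neg_atTop hb).comp hlog).const_mul 24
    rw [mul_zero] at this
    exact this
  have he : Tendsto (fun X : ℕ => Real.exp (24 * (Real.log X) ^ (-((a - 2) / 2)))) atTop
      (nhds 1) := by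
    have := (Real.continuous_exp.tendsto 0).comp hu
    rw [Real.exp_zero] at this
    exact this
  have hA : Tendsto (fun X : ℕ => |K| * ((24 * (Real.log X) ^ (-((a - 2) / 2))) ^ (0 + 1) *
      Real.exp (24 * (Real.log X) ^ (-((a - 2) / 2))))) atTop (nhds 0) := by
    have := ((hu.pow (0 + 1)).mul he).const_mul |K|
    simpa using this
  have hq : Tendsto (fun X : ℕ => (1 + Real.log X) ^ (2 * C0) *
      (24 * (Real.log X) ^ (-((a - 2) / 2))) ^ (i0 + 1)) atTop (nhds 0) := by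
    have h1 : Tendsto (fun x : ℝ => (2 : ℝ) ^ (2 * C0) * 24 ^ (i0 + 1) *
        x ^ (-(((i0 + 1 : ℕ) : ℝ) * ((a - 2) / 2) - 2 * C0))) atTop (nhds 0) := by
      have h2 : 0 < ((i0 + 1 : ℕ) : ℝ) * ((a - 2) / 2) - 2 * C0 := by
        push_cast
        nlinarith
      have := (tendsto_rpow_neg_atTop h2).const_mul ((2 : ℝ) ^ (2 * C0) * 24 ^ (i0 + 1))
      rw [mul_zero] at this
      exact this
    have h3 := h1.comp hlog
    refine squeeze_zero' ?_ ?_ h3
    · filter_upwards [hlog.eventually_ge_atTop 1] with X hX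
      have : 0 ≤ Real.log X := by linarith
      positivity
    · filter_upwards [hlog.eventually_ge_atTop 1] with X hX
      have hL : 0 < Real.log (X : ℝ) := by linarith
      have h4 : (1 + Real.log X) ^ (2 * C0) ≤ (2 * Real.log X) ^ (2 * C0) := by
        gcongr
        linarith
      calc (1 + Real.log X) ^ (2 * C0) * (24 * (Real.log X) ^ (-((a - 2) / 2))) ^ (i0 + 1)
          ≤ (2 * Real.log X) ^ (2 * C0) *
            (24 * (Real.log X) ^ (-((a - 2) / 2))) ^ (i0 + 1) := by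
            gcongr
        _ = (2 : ℝ) ^ (2 * C0) * 24 ^ (i0 + 1) *
            (Real.log X) ^ (-(((i0 + 1 : ℕ) : ℝ) * ((a - 2) / 2) - 2 * C0)) := by
            rw [mul_pow, mul_pow]
            have h5 : (Real.log (X : ℝ)) ^ (-(((i0 + 1 : ℕ) : ℝ) * ((a - 2) / 2) - 2 * C0)) =
                (Real.log X) ^ (2 * C0) * ((Real.log X) ^ (-((a - 2) / 2))) ^ (i0 + 1) := by
              rw [← Real.rpow_natCast (Real.log X) (2 * C0), ← Real.rpow_natCast
                ((Real.log (X : ℝ)) ^ (-((a - 2) / 2))) (i0 + 1), ← Real.rpow_mul hL.le,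
                ← Real.rpow_add hL]
              congr 1
              push_cast
              ring
            rw [h5]
            ring
  have hB : Tendsto (fun X : ℕ => |K| * ((1 + Real.log X) ^ (2 * C0) *
      ((24 * (Real.log X) ^ (-((a - 2) / 2))) ^ (i0 + 1) *
      Real.exp (24 * (Real.log X) ^ (-((a - 2) / 2)))))) atTop (nhds 0) := by
    have := (hq.mul he).const_mul |K|
    simp only [zero_mul, mul_zero] at this
    refine this.congr fun X => ?_
    ring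
  obtain ⟨X1, h1⟩ := (hA.eventually_le_const hε).exists_forall_of_atTop
  obtain ⟨X2, h2⟩ := (hB.eventually_le_const hε).exists_forall_of_atTop
  obtain ⟨X3, h3⟩ := (hlog.eventually_ge_atTop 0).exists_forall_of_atTop
  refine ⟨max X1 (max X2 X3), fun X hX u hu0 hu1 => ?_⟩
  simp only [ge_iff_le, max_le_iff] at hX
  have hl := h3 X hX.2.2
  have hK : K ≤ |K| := le_abs_self K
  constructor
  · refine le_trans ?_ (h1 X hX.1)
    refine (mul_le_mul_of_nonneg_right hK (by positivity)).trans ?_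
    gcongr
  · refine le_trans ?_ (h2 X hX.2.1)
    refine (mul_le_mul_of_nonneg_right hK (by positivity)).trans ?_
    gcongr

end TMh

open TMh in
theorem T2_TM : P2_SZ → P2_NB → P2_COMB → P2_PAIR → P_TB2 → P2_WT → P2_T1 → P2_T2 → P2_JP →
    P2_ERR → P2_TMa → P2_TMb → P2_TMc → P2_TM := by
  intro hSZ hNB hCOMB hPAIR hTB2 _hWT hT1 hT2 hJP hERR hTMa hTMb hTMc
  intro a ha z r hz hfr η hη hη1 C0 hC0 ε hε
  have hQ : (0 : ℝ) < Qz z := by exact_mod_cast Pool.Agent.H38R2.CG.TMh.Qz_pos z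
  have hPi := Pool.Agent.H38R2.CG.TMh.PiR_pos z r
  obtain ⟨A1, hA1⟩ : ∃ A1 : ℝ, A1 = PiR z r / (4 * Qz z) := ⟨_, rfl⟩
  have hA1p : 0 < A1 := by
    rw [hA1]
    positivity
  obtain ⟨i0, X1, h1⟩ := err_small ha C0 (2 ^ (z + 5)) (ε * A1 / 8) (by positivity)
  obtain ⟨X2, h2⟩ := hSZ a ha
  obtain ⟨X3, h3⟩ := hNB a ha 1 one_pos
  obtain ⟨X4, h4⟩ := hERR a ha z r hfr η hη hη1 C0 hC0 (ε * A1 * η / 2) (by positivity)
  obtain ⟨X5, h5⟩ := hTMa a ha z r hz hfr η hη hη1 C0 hC0 (ε / 4) (by positivity)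
  obtain ⟨X6, h6⟩ := hTMb a ha z r hz hfr η hη hη1 C0 i0 hC0
  obtain ⟨X7, h7⟩ := hTMc a ha z r hz hfr η hη hη1 C0 hC0
  obtain ⟨X8, h8⟩ := yA_large ha z
  refine ⟨max (max (max X1 X2) (max X3 X4)) (max (max X5 X6) (max (max X7 X8) 4)), ?_⟩
  intro X hX ρ hρ
  simp only [ge_iff_le, max_le_iff] at hX
  obtain ⟨⟨⟨hX1, hX2⟩, hX3, hX4⟩, ⟨hX5, hX6⟩, ⟨hX7, hX8⟩, hX9⟩ := hX
  have hX0 : 1 ≤ X := by omega
  have hlog : 0 < Real.log (X : ℝ) := Real.log_pos (by exact_mod_cast (by omega : 1 < X))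
  have hG : 0 ≤ GG X ρ := le_trans (by positivity) hρ.low
  have hsq : 0 ≤ √(X : ℝ) := Real.sqrt_nonneg _
  have hP : ∀ p ∈ PA a X, p.Prime ∧ ¬ p ∣ Qz z := by
    intro p hp
    refine ⟨(mem_PA hp).1, fun hdvd => ?_⟩
    have h9 := Pool.Agent.H38R2.CG.TMh.prime_dvd_Qz hz (mem_PA hp).1 hdvd
    have h10 := (mem_PA hp).2
    have h11 := h8 X hX8
    omega
  have hsize : ∀ s ∈ SA a X, s ⊆ PA a X ∧ (prodS s : ℝ) ≤ (X : ℝ) ^ (th a + cc a) := by
    intro s hs
    have hs' := Finset.mem_powersetCard.1 hs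
    have h9 := (h2 X hX2 ∅ s (Finset.empty_subset _) hs'.1 (by
      rw [Finset.card_empty, zero_add]
      exact hs'.2)).2
    refine ⟨hs'.1, ?_⟩
    simpa [prodS] using h9
  -- numbers
  obtain ⟨n1, _, _, _, n5, _, n7, _⟩ := h3 X hX3
  have hk1 : 1 ≤ kA a X := by
    unfold kA
    omega
  have hk2 : 2 * kA a X ≤ (PA a X).card := by nlinarith
  have hk3 : kA a X ≤ (PA a X).card := by omega
  have hcard : 1 ≤ (PA a X).card := by omega
  have hcardR : (0 : ℝ) < (PA a X).card := by exact_mod_cast hcard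
  obtain ⟨u, hu⟩ : ∃ u : ℝ, u = 4 * 6 * (kA a X : ℝ) ^ 2 / (PA a X).card := ⟨_, rfl⟩
  have hu0 : 0 ≤ u := by
    rw [hu]
    positivity
  have hu1 : u ≤ 24 * (Real.log X) ^ (-((a - 2) / 2)) := by
    rw [hu, div_le_iff₀ hcardR]
    linarith
  obtain ⟨e1, e2⟩ := h1 X hX1 u hu0 hu1
  have c1 := hCOMB (PA a X).card (kA a X) 0 6 (by norm_num) hcard hk2
  have c2 := hCOMB (PA a X).card (kA a X) i0 6 (by norm_num) hcard hk2
  rw [← hu] at c1 c2
  -- swap
  have hswap : ∑ D ∈ DD z r X η, wt ρ D * SD D (SA a X) (fun _ => 1) =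
      ∑ s ∈ SA a X, ∑ t ∈ SA a X, 2 ^ ((s ∩ t).card) *
        ∑ D ∈ DD z r X η, wt ρ D * Rsum D (prodS s * prodS t) := by
    unfold SD
    simp only [Finset.mul_sum]
    rw [Finset.sum_comm]
    refine Finset.sum_congr rfl fun s _ => ?_
    rw [Finset.sum_comm]
    refine Finset.sum_congr rfl fun t _ => ?_
    refine Finset.sum_congr rfl fun D _ => ?_
    ring
  rw [hswap]
  have hpt : ∀ s ∈ SA a X, ∀ t ∈ SA a X, (2 : ℝ) ^ ((s ∩ t).card) *
        ∑ D ∈ DD z r X η, wt ρ D * Rsum D (prodS s * prodS t) ≤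
      2 ^ ((s ∩ t).card) *
        ((if IsSquare (prodS s * prodS t) then ∑ D ∈ DD z r X η, wt ρ D else 0) +
        2 * ∑ v ∈ Finset.Icc 1 ⌊2 * √(((prodS s * prodS t : ℕ) : ℝ) / X)⌋₊,
          ∑ d ∈ Finset.Icc 1 X, |ρ d| * (RR z r (prodS s * prodS t) v d : ℝ)) +
      2 ^ ((s ∩ t).card) * (2 * MT a z r X η ρ (s ∩ t) (s \ t) (t \ s)) := by
    intro s hs t ht
    rw [← mul_add]
    refine mul_le_mul_of_nonneg_left ?_ (by positivity)
    exact pair_bound hTB2 hT1 hT2 hJP ha hfr.1 hX9 hη hη1 hρ hP (hsize s hs).1 (hsize t ht).1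
      (hsize s hs).2 (hsize t ht).2
  have hsum := Finset.sum_le_sum fun s hs => Finset.sum_le_sum fun t ht => hpt s hs t ht
  simp only [Finset.sum_add_distrib] at hsum
  refine hsum.trans ?_
  have hE := h4 X hX4 ρ hρ
  simp only [mul_add, Finset.sum_add_distrib] at hE ⊢
  -- main part
  have hM : ∑ s ∈ SA a X, ∑ t ∈ SA a X,
      (2 : ℝ) ^ ((s ∩ t).card) * (2 * MT a z r X η ρ (s ∩ t) (s \ t) (t \ s)) ≤
      2 * ((1 + ε / 4) * A1 * GG X ρ * η * √(X : ℝ) * (NA a X) ^ 2 +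
        GG X ρ * η * √(X : ℝ) * (NA a X) ^ 2 * (ε * A1 / 8) +
        GG X ρ * η * √(X : ℝ) * (NA a X) ^ 2 * (ε * A1 / 8)) := by
    have hp := hPAIR (PA a X) (kA a X)
      (fun c s t => (2 : ℝ) ^ c.card * (2 * MT a z r X η ρ c s t)) (by
        intro c s t hc hs ht
        have := MT_nonneg (z := z) (r := r) hTB2 hJP hX0 hη hη1 hρ hc hs ht
        positivity)
    refine hp.trans ?_
    obtain ⟨w, hw⟩ : ∃ w : ℕ → ℝ, ∀ i, w i = 6 ^ i * (CA a X (kA a X - i)) ^ 2 :=
      ⟨_, fun i => rfl⟩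
    -- bound for each c
    have hc : ∀ c ∈ (PA a X).powerset.filter (fun c => c.card ≤ kA a X),
        ∑ s ∈ (PA a X).powersetCard (kA a X - c.card),
          ∑ t ∈ (PA a X).powersetCard (kA a X - c.card),
            (2 : ℝ) ^ c.card * (2 * MT a z r X η ρ c s t) ≤
        2 * ((if c = ∅ then (1 + ε / 4) * A1 * GG X ρ * η * √(X : ℝ) * (NA a X) ^ 2 else 0) +
          GG X ρ * η * √(X : ℝ) * 2 ^ (z + 5) *
            (if 1 ≤ c.card then w c.card else 0) +
          GG X ρ * η * √(X : ℝ) * 2 ^ (z + 5) * (1 + Real.log X) ^ (2 * C0) *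
            (if i0 + 1 ≤ c.card then w c.card
              else 0)) := by
      intro c hc
      rw [Finset.mem_filter, Finset.mem_powerset] at hc
      have hfac : ∑ s ∈ (PA a X).powersetCard (kA a X - c.card),
          ∑ t ∈ (PA a X).powersetCard (kA a X - c.card),
            (2 : ℝ) ^ c.card * (2 * MT a z r X η ρ c s t) =
          2 * (2 ^ c.card * ∑ s ∈ (PA a X).powersetCard (kA a X - c.card),
          ∑ t ∈ (PA a X).powersetCard (kA a X - c.card), MT a z r X η ρ c s t) := by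
        simp only [Finset.mul_sum]
        refine Finset.sum_congr rfl fun s _ => Finset.sum_congr rfl fun t _ => ?_
        ring
      rw [hfac, hw]
      refine mul_le_mul_of_nonneg_left ?_ (by norm_num)
      have hL2 : 0 ≤ (1 + Real.log (X : ℝ)) ^ (2 * C0) := by positivity
      have h6p : (6 : ℝ) ^ c.card = 2 ^ c.card * 3 ^ c.card := by
        rw [← mul_pow]
        norm_num
      by_cases h0 : c = ∅
      · subst h0
        have h9 := h5 X hX5 ρ hρ
        simp only [Finset.card_empty, pow_zero, one_mul, Nat.sub_zero, if_true]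
        rw [← hA1] at h9
        have h11 : ¬ (i0 + 1 ≤ 0) := by omega
        have h12 : ¬ ((1 : ℕ) ≤ 0) := by omega
        simp only [h11, h12, if_false, mul_zero, add_zero]
        exact h9
      · have hc1 : 1 ≤ c.card := Finset.card_pos.2 (Finset.nonempty_iff_ne_empty.2 h0)
        simp only [h0, if_false, zero_add, hc1, if_true]
        by_cases hci : c.card ≤ i0
        · have h9 := h6 X hX6 ρ hρ c hc.1 hci
          have h10 : ¬ (i0 + 1 ≤ c.card) := by omega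
          simp only [h10, if_false, mul_zero, add_zero]
          calc (2 : ℝ) ^ c.card * ∑ s ∈ (PA a X).powersetCard (kA a X - c.card),
                ∑ t ∈ (PA a X).powersetCard (kA a X - c.card), MT a z r X η ρ c s t
              ≤ 2 ^ c.card * (2 ^ (z + 5) * 3 ^ c.card * GG X ρ * η * √(X : ℝ) *
                (CA a X (kA a X - c.card)) ^ 2) := mul_le_mul_of_nonneg_left h9 (by positivity)
            _ = GG X ρ * η * √(X : ℝ) * 2 ^ (z + 5) *
                (6 ^ c.card * (CA a X (kA a X - c.card)) ^ 2) := by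
                rw [h6p]
                ring
        · have h9 := h7 X hX7 ρ hρ c hc.1 hc.2
          have h10 : i0 + 1 ≤ c.card := by omega
          simp only [h10, if_true]
          have h11 : (2 : ℝ) ^ c.card * ∑ s ∈ (PA a X).powersetCard (kA a X - c.card),
                ∑ t ∈ (PA a X).powersetCard (kA a X - c.card), MT a z r X η ρ c s t
              ≤ GG X ρ * η * √(X : ℝ) * 2 ^ (z + 5) * (1 + Real.log X) ^ (2 * C0) *
                (6 ^ c.card * (CA a X (kA a X - c.card)) ^ 2) := by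
            calc _ ≤ 2 ^ c.card * (2 ^ (z + 5) * 3 ^ c.card * (1 + Real.log X) ^ (2 * C0) *
                  GG X ρ * η * √(X : ℝ) * (CA a X (kA a X - c.card)) ^ 2) :=
                  mul_le_mul_of_nonneg_left h9 (by positivity)
              _ = _ := by
                rw [h6p]
                ring
          have h12 : 0 ≤ GG X ρ * η * √(X : ℝ) * 2 ^ (z + 5) *
              (6 ^ c.card * (CA a X (kA a X - c.card)) ^ 2) := by positivity
          linarith
    refine (Finset.sum_le_sum hc).trans ?_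
    rw [← Finset.mul_sum, Finset.sum_add_distrib, Finset.sum_add_distrib, ← Finset.mul_sum,
      ← Finset.mul_sum, sum_card (PA a X) (kA a X) 1 hk3 w,
      sum_card (PA a X) (kA a X) (i0 + 1) hk3 w]
    refine mul_le_mul_of_nonneg_left ?_ (by norm_num)
    have hd0 : ∑ c ∈ (PA a X).powerset.filter (fun c => c.card ≤ kA a X),
        (if c = ∅ then (1 + ε / 4) * A1 * GG X ρ * η * √(X : ℝ) * (NA a X) ^ 2 else 0) =
        (1 + ε / 4) * A1 * GG X ρ * η * √(X : ℝ) * (NA a X) ^ 2 := by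
      rw [Finset.sum_ite_eq']
      rw [if_pos]
      rw [Finset.mem_filter]
      exact ⟨Finset.empty_mem_powerset _, by simp⟩
    have hd : ∀ j, ∑ i ∈ Finset.Icc j (kA a X), ((PA a X).card.choose i : ℝ) *
        w i =
        ∑ i ∈ Finset.Icc j (kA a X), ((PA a X).card.choose i : ℝ) * 6 ^ i *
          ((PA a X).card.choose (kA a X - i) : ℝ) ^ 2 := by
      intro j
      refine Finset.sum_congr rfl fun i _ => ?_
      rw [hw]
      simp only [CA]
      ring
    rw [hd0, hd, hd]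
    have hNA : ((PA a X).card.choose (kA a X) : ℝ) = NA a X := rfl
    rw [hNA] at c1 c2
    have hB : 0 ≤ GG X ρ * η * √(X : ℝ) := by positivity
    have g1 : GG X ρ * η * √(X : ℝ) * 2 ^ (z + 5) *
        ∑ i ∈ Finset.Icc 1 (kA a X), ((PA a X).card.choose i : ℝ) * 6 ^ i *
          ((PA a X).card.choose (kA a X - i) : ℝ) ^ 2 ≤
        GG X ρ * η * √(X : ℝ) * (NA a X) ^ 2 * (ε * A1 / 8) := by
      calc _ ≤ GG X ρ * η * √(X : ℝ) * 2 ^ (z + 5) *
            (u ^ (0 + 1) * Real.exp u * (NA a X) ^ 2) :=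
            mul_le_mul_of_nonneg_left c1 (by positivity)
        _ = GG X ρ * η * √(X : ℝ) * (NA a X) ^ 2 *
            (2 ^ (z + 5) * (u ^ (0 + 1) * Real.exp u)) := by ring
        _ ≤ _ := mul_le_mul_of_nonneg_left e1 (by positivity)
    have g2 : GG X ρ * η * √(X : ℝ) * 2 ^ (z + 5) * (1 + Real.log X) ^ (2 * C0) *
        ∑ i ∈ Finset.Icc (i0 + 1) (kA a X), ((PA a X).card.choose i : ℝ) * 6 ^ i *
          ((PA a X).card.choose (kA a X - i) : ℝ) ^ 2 ≤
        GG X ρ * η * √(X : ℝ) * (NA a X) ^ 2 * (ε * A1 / 8) := by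
      calc _ ≤ GG X ρ * η * √(X : ℝ) * 2 ^ (z + 5) * (1 + Real.log X) ^ (2 * C0) *
            (u ^ (i0 + 1) * Real.exp u * (NA a X) ^ 2) :=
            mul_le_mul_of_nonneg_left c2 (by positivity)
        _ = GG X ρ * η * √(X : ℝ) * (NA a X) ^ 2 *
            (2 ^ (z + 5) * ((1 + Real.log X) ^ (2 * C0) * (u ^ (i0 + 1) * Real.exp u))) := by
            ring
        _ ≤ _ := mul_le_mul_of_nonneg_left e2 (by positivity)
    linarith
  refine (add_le_add hE hM).trans ?_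
  have hQ2 : PiR z r / (2 * Qz z) = 2 * A1 := by
    rw [hA1]
    field_simp
    norm_num
  rw [hQ2]
  have hpos : 0 ≤ GG X ρ * η * √(X : ℝ) * (NA a X) ^ 2 * (ε * A1) := by positivity
  nlinarith [hpos]

end Pool.Agent.H38R2.CG2
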