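import Pool.Agent.H52.V.S8.H38R2.CG2.Stubs
import Pool.Agent.H52.V.S8.H38R2.CG.AS1

set_option autoImplicit false

namespace Pool.Agent.H38R2.CG2

open Finset Filter NumberField Pool.Agent.H38R2.CG
open scoped Classical

namespace APh

/-- a squarefree number divides `D` iff its prime factors do -/
lemma sqf_dvd_iff {d D : ℕ} (hd : Squarefree d) :
    d ∣ D ↔ ∀ p ∈ d.primeFactors, p ∣ D := by
  constructor
  · intro h p hp
    exact (Nat.dvd_of_mem_primeFactors hp).trans h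
  · intro h
    rw [← Nat.prod_primeFactors_of_squarefree hd]
    exact Finset.prod_primes_dvd D (fun p hp => (Nat.prime_of_mem_primeFactors hp).prime) h

lemma supp_le {z X : ℕ} {P : Finset ℕ} {δ : ℝ} {C0 : ℕ} {ρ : ℕ → ℝ} (hX : 1 ≤ X) (hδ : δ ≤ 1)
    (h : SWt z X P δ C0 ρ) (d : ℕ) (hd : ρ d ≠ 0) : d ≤ X := by
  have h1 := (h.supp d hd).2.1
  have hX' : (1 : ℝ) ≤ X := by exact_mod_cast hX
  have h2 : (X : ℝ) ^ δ ≤ (X : ℝ) ^ (1 : ℝ) := Real.rpow_le_rpow_of_exponent_le hX' hδ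
  rw [Real.rpow_one] at h2
  exact_mod_cast h1.trans h2

lemma wt_nonneg {z X : ℕ} {P : Finset ℕ} {δ : ℝ} {C0 : ℕ} {ρ : ℕ → ℝ} (hX : 1 ≤ X) (hδ : δ ≤ 1)
    (h : SWt z X P δ C0 ρ) (D : ℕ) (hD : 1 ≤ D) : 0 ≤ wt ρ D := by
  have key := h.pos (fun p => if p ∣ D then 1 else 0) (fun p => by
    show 0 ≤ (if p ∣ D then (1 : ℝ) else 0) ∧ (if p ∣ D then (1 : ℝ) else 0) ≤ 1
    split_ifs <;> norm_num)
  have e1 : ∀ d ∈ Finset.Icc 1 X, ρ d * ∏ p ∈ d.primeFactors, (if p ∣ D then (1 : ℝ) else 0) =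
      if d ∣ D then ρ d else 0 := by
    intro d _
    by_cases h0 : ρ d = 0
    · rw [h0, zero_mul, ite_self]
    · have hsq := (h.supp d h0).2.2.1
      by_cases hdv : d ∣ D
      · rw [if_pos hdv, Finset.prod_eq_one, mul_one]
        intro p hp
        rw [if_pos ((sqf_dvd_iff hsq).1 hdv p hp)]
      · rw [if_neg hdv]
        have : ∃ p ∈ d.primeFactors, ¬ p ∣ D := by
          by_contra hc
          push Not at hc
          exact hdv ((sqf_dvd_iff hsq).2 hc)
        obtain ⟨p, hp, hpD⟩ := this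
        rw [Finset.prod_eq_zero hp (if_neg hpD), mul_zero]
  rw [Finset.sum_congr rfl e1, ← Finset.sum_filter] at key
  have e2 : wt ρ D = ∑ d ∈ (Finset.Icc 1 X).filter (fun d => d ∣ D), ρ d := by
    unfold wt
    symm
    apply Finset.sum_subset_zero_on_sdiff
    · intro d hd
      rw [Finset.mem_filter] at hd
      rw [Nat.mem_divisors]
      exact ⟨hd.2, by omega⟩
    · intro d hd
      rw [Finset.mem_sdiff, Finset.mem_filter, Finset.mem_Icc, Nat.mem_divisors] at hd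
      by_contra h0
      have h1 := supp_le hX hδ h d h0
      have h2 := (h.supp d h0).1
      exact hd.2 ⟨⟨h2, h1⟩, hd.1.1⟩
    · intro d _
      rfl
  rw [e2]
  exact key

/-- the weight of `p` and `4 p` is one -/
lemma wt_one {z X : ℕ} {P : Finset ℕ} {δ : ℝ} {C0 : ℕ} {ρ : ℕ → ℝ} (hX : 17 ≤ X) (hδ : δ ≤ 1 / 2)
    (h : SWt z X P δ C0 ρ) (h1 : ρ 1 = 1) {D p : ℕ} (hXD : X < D) (hp : p.Prime)
    (hD : D = p ∨ D = 4 * p) : wt ρ D = 1 := by
  have hpX : (X : ℝ) < 4 * p := by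
    have : X < 4 * p := by
      rcases hD with h | h <;> omega
    exact_mod_cast this
  have hX0 : (17 : ℝ) ≤ X := by exact_mod_cast hX
  unfold wt
  have key : ∀ d ∈ D.divisors, d ≠ 1 → ρ d = 0 := by
    intro d hd hd1
    by_contra h0
    obtain ⟨h2, h3, h4, h5, -⟩ := h.supp d h0
    have hodd : Nat.Coprime d 2 := by
      refine Nat.Coprime.coprime_dvd_right ?_ h5
      exact Dvd.dvd.trans (by norm_num) (AS1h.dvd16 z)
    have hd4 : Nat.Coprime d 4 := by
      have := Nat.Coprime.pow_right 2 hodd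
      simpa using this
    have hdp : d ∣ p := by
      have hdD := (Nat.mem_divisors.1 hd).1
      rcases hD with h | h
      · rwa [h] at hdD
      · rw [h] at hdD
        exact hd4.dvd_of_dvd_mul_left hdD
    have hdeq : d = p := (hp.eq_one_or_self_of_dvd d hdp).resolve_left hd1
    rw [hdeq] at h3
    have h6 : (X : ℝ) ^ δ ≤ (X : ℝ) ^ (1 / 2 : ℝ) :=
      Real.rpow_le_rpow_of_exponent_le (by linarith) hδ
    rw [← Real.sqrt_eq_rpow] at h6
    have h7 : (X : ℝ) < 4 * √(X : ℝ) := by linarith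
    have h8 : √(X : ℝ) * √(X : ℝ) = X := Real.mul_self_sqrt (by linarith)
    have h9 : 0 ≤ √(X : ℝ) := Real.sqrt_nonneg _
    have h10 : √(X : ℝ) < 4 := by
      by_contra hc
      push Not at hc
      nlinarith
    nlinarith
  rw [Finset.sum_eq_single_of_mem 1 (Nat.mem_divisors.2 ⟨one_dvd _, by omega⟩) key, h1]

/-- the residue of `p` or `4 p` is coprime to the small odd primes -/
lemma res_cop {z X D p : ℕ} (hXD : X < D) (hp : p.Prime) (hD : D = p ∨ D = 4 * p)
    (hX : 4 * z ≤ X) : ∀ q ∈ (Finset.Icc 3 z).filter Nat.Prime, ¬ q ∣ D % Qz z := by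
  intro q hq hdvd
  obtain ⟨hq1, hqp⟩ := Finset.mem_filter.1 hq
  obtain ⟨hq3, hqz⟩ := Finset.mem_Icc.1 hq1
  have hqQ : q ∣ Qz z := by
    unfold Qz
    exact Dvd.dvd.mul_left ((dvd_pow_self q (by norm_num)).trans
      (Finset.dvd_prod_of_mem (fun l => l ^ 2) hq)) _
  have hqD : q ∣ D := (Nat.dvd_mod_iff hqQ).1 hdvd
  have hqpp : q ∣ p := by
    rcases hD with h | h
    · rwa [h] at hqD
    · rw [h] at hqD
      rcases (Nat.Prime.dvd_mul hqp).1 hqD with h2 | h2
      · exfalso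
        have h3 := Nat.le_of_dvd (by norm_num) h2
        interval_cases q
        · omega
        · exact absurd hqp (by norm_num)
      · exact h2
  have hqe : q = p := (Nat.prime_dvd_prime_iff_eq hqp hp).1 hqpp
  rcases hD with h | h <;> omega

end APh

open APh in
theorem T2_AP : P2_AS0 → P2_BH → P2_RC → P2_AP := by
  intro hAS hBH hRC a ha ε hε
  have ha1 : 0 < a - 1 := by linarith
  have hcc0 : 0 < cc a := by
    unfold cc
    exact div_pos (by linarith) (by linarith)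
  have hcc1 : cc a ≤ 1 / 2 := by
    unfold cc
    rw [div_le_iff₀ (by linarith)]
    linarith
  obtain ⟨C0, hC0, hB⟩ := hBH (cc a) hcc0 (by linarith)
  have hC0' : (1 : ℝ) ≤ C0 := by exact_mod_cast hC0
  obtain ⟨z0, hz0⟩ := hAS a ha C0 hC0 (ε / C0) (by positivity)
  set z := max 2 z0 with hz
  have hz2 : 2 ≤ z := le_max_left _ _
  obtain ⟨η1, hη1, H⟩ := hz0 z (le_max_right _ _)
  obtain ⟨XB, hXB⟩ := hB z hz2 a ha
  have hηpos : 0 < min η1 1 := lt_min hη1 one_pos
  refine ⟨min η1 1, hηpos, min_le_right _ _, ?_⟩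
  set η := min η1 1 with hη
  have H' : ∀ r : ℕ, ∃ X0 : ℕ, ∀ X ≥ X0, ∀ ρ : ℕ → ℝ, SWt z X (PA a X) (cc a) C0 ρ →
      FundRes z r →
      ∑ D ∈ (FD z r X η).filter (fun D => BadA a X D), wt ρ D ≤ ε / C0 * WW z X η ρ := by
    intro r
    by_cases hr : FundRes z r
    · obtain ⟨X0, hX0⟩ := H η hηpos (min_le_left _ _) r hr
      exact ⟨X0, fun X hX ρ hρ _ => hX0 X hX ρ hρ⟩
    · exact ⟨0, fun X _ ρ _ hr' => absurd hr' hr⟩
  choose X0 hX0 using H'
  refine ⟨max (max ((Finset.range (Qz z)).sup X0) XB) (max 17 (4 * z)), ?_⟩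
  intro X hX
  have hX1 : (Finset.range (Qz z)).sup X0 ≤ X :=
    (le_max_left _ _).trans ((le_max_left _ _).trans hX)
  have hX2 : XB ≤ X := (le_max_right _ _).trans ((le_max_left _ _).trans hX)
  have hX3 : 17 ≤ X := (le_max_left _ _).trans ((le_max_right _ _).trans hX)
  have hX4 : 4 * z ≤ X := (le_max_right _ _).trans ((le_max_right _ _).trans hX)
  obtain ⟨ρ, hρ, hρ1, hGG⟩ := hXB X hX2
  have hX17 : (17 : ℝ) ≤ X := by exact_mod_cast hX3
  have hlog : 0 < Real.log X := Real.log_pos (by linarith)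
  have hGpos : 0 ≤ GG X ρ := le_trans (by positivity) hρ.low
  set S := (Finset.Ioc X ⌊(1 + η) * X⌋₊).filter (fun D =>
    (∃ p : ℕ, p.Prime ∧ (D = p ∨ D = 4 * p)) ∧ IsFund D ∧ BadA a X D) with hS
  have hcard : S.card = ∑ r ∈ Finset.range (Qz z), (S.filter (fun D => D % Qz z = r)).card := by
    apply Finset.card_eq_sum_card_fiberwise
    intro D _
    simp only [Finset.coe_range, Set.mem_Iio]
    exact Nat.mod_lt _ (AS1h.Qz_pos z)
  have hQ : (0 : ℝ) < Qz z := by exact_mod_cast AS1h.Qz_pos z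
  have hW : 0 ≤ ε / C0 * WW z X η ρ := by
    unfold WW
    positivity
  have hle : ∀ r ∈ Finset.range (Qz z),
      ((S.filter (fun D => D % Qz z = r)).card : ℝ) ≤
        if (∀ q ∈ (Finset.Icc 3 z).filter Nat.Prime, ¬ q ∣ r) then ε / C0 * WW z X η ρ else 0 := by
    intro r hr
    by_cases hfr : FundRes z r ∧ ∀ q ∈ (Finset.Icc 3 z).filter Nat.Prime, ¬ q ∣ r
    · rw [if_pos hfr.2]
      refine le_trans ?_ (hX0 r X (le_trans (Finset.le_sup hr) hX1) ρ hρ hfr.1)
      have hsub : (S.filter (fun D => D % Qz z = r)) ⊆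
          ((FD z r X η).filter (fun D => BadA a X D)) := by
        intro D hD
        simp only [hS, FD, DD, Finset.mem_filter] at hD ⊢
        exact ⟨⟨⟨hD.1.1, hD.2⟩, hD.1.2.2.1⟩, hD.1.2.2.2⟩
      have e1 : ((S.filter (fun D => D % Qz z = r)).card : ℝ) =
          ∑ D ∈ S.filter (fun D => D % Qz z = r), wt ρ D := by
        rw [Finset.sum_congr rfl (g := fun _ => (1 : ℝ)), Finset.sum_const, nsmul_eq_mul, mul_one]
        intro D hD
        simp only [hS, Finset.mem_filter, Finset.mem_Ioc] at hD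
        obtain ⟨p, hp, hDp⟩ := hD.1.2.1
        exact wt_one hX3 hcc1 hρ hρ1 hD.1.1.1 hp hDp
      rw [e1]
      refine Finset.sum_le_sum_of_subset_of_nonneg hsub ?_
      intro D hD _
      simp only [FD, DD, Finset.mem_filter, Finset.mem_Ioc] at hD
      exact wt_nonneg (by omega) (by linarith) hρ D (by omega)
    · have hemp : (S.filter (fun D => D % Qz z = r)) = ∅ := by
        rw [Finset.filter_eq_empty_iff]
        intro D hD hDr
        apply hfr
        simp only [hS, Finset.mem_filter, Finset.mem_Ioc] at hD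
        obtain ⟨p, hp, hDp⟩ := hD.2.1
        rw [← hDr]
        exact ⟨AS1h.fundRes z D hD.2.2.1, res_cop hD.1.1 hp hDp hX4⟩
      rw [hemp, Finset.card_empty, Nat.cast_zero]
      split_ifs
      · exact hW
      · exact le_rfl
  rw [hcard]
  push_cast
  refine le_trans (Finset.sum_le_sum hle) ?_
  rw [← Finset.sum_filter, Finset.sum_const, nsmul_eq_mul]
  have hRC' : ∀ inst : DecidablePred fun r : ℕ =>
      ∀ q ∈ (Finset.Icc 3 z).filter Nat.Prime, ¬ q ∣ r,
      (((@Finset.filter ℕ (fun r : ℕ => ∀ q ∈ (Finset.Icc 3 z).filter Nat.Prime, ¬ q ∣ r) inst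
        (Finset.range (Qz z))).card : ℕ) : ℝ) =
      Qz z * ∏ q ∈ (Finset.Icc 3 z).filter Nat.Prime, (1 - (1 : ℝ) / q) := by
    intro inst
    have h5 := hRC z
    convert h5
  refine (le_of_eq (congrArg (fun t : ℝ => t * (ε / C0 * WW z X η ρ)) (hRC' _))).trans ?_
  show (Qz z : ℝ) * (∏ q ∈ (Finset.Icc 3 z).filter Nat.Prime, (1 - (1 : ℝ) / q)) *
    (ε / C0 * WW z X η ρ) ≤ ε * η * X / Real.log X
  unfold WW
  have e2 : (Qz z : ℝ) * (∏ q ∈ (Finset.Icc 3 z).filter Nat.Prime, (1 - (1 : ℝ) / q)) *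
      (ε / C0 * (η * X / Qz z * GG X ρ)) = ε / C0 * (η * X) *
        (GG X ρ * ∏ q ∈ (Finset.Icc 3 z).filter Nat.Prime, (1 - (1 : ℝ) / q)) := by
    field_simp
  rw [e2]
  calc ε / C0 * (η * X) *
        (GG X ρ * ∏ q ∈ (Finset.Icc 3 z).filter Nat.Prime, (1 - (1 : ℝ) / q))
      ≤ ε / C0 * (η * X) * (C0 / Real.log X) :=
        mul_le_mul_of_nonneg_left hGG (by positivity)
    _ = ε * η * X / Real.log X := by
        field_simp

end Pool.Agent.H38R2.CG2
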